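import Pool.Agent.Helper82.FC.Fixed

/-!
# The polynomials `b g ^ m + a`
-/

set_option autoImplicit false

namespace Pool.Agent.Helper82.SU

open Polynomial Finset Filter Pool.Agent.Helper82.FC

/-- the product of the integers whose prime divisors are excluded -/
def sbad {k : ℕ} (m : Fin k → ℕ) (a b : Fin k → ℤ) : ℤ :=
  (∏ i, ((m i : ℤ) * a i * b i)) *
    ∏ p ∈ (univ : Finset (Fin k × Fin k)).filter (fun p => p.1 ≠ p.2),
      ((-a p.1) ^ m p.2 * b p.2 ^ m p.1 - (-a p.2) ^ m p.1 * b p.1 ^ m p.2)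

theorem simp_scale {K : Type} [Field K] {ι : Type} (P : ι → K[X]) (b : ι → K) (hb : ∀ i, b i ≠ 0)
    (h : Simp P) : Simp (fun i => C (b i) * P i) := by
  obtain ⟨Om, i1, i2, φ, hφ⟩ := h
  refine ⟨Om, i1, i2, φ, fun i => ?_⟩
  obtain ⟨v, hv1, hv2⟩ := hφ i
  refine ⟨v, ?_, fun j hj => ?_⟩
  · rw [Polynomial.map_mul, map_C, rm_C_mul _ ((map_ne_zero φ).2 (hb i))]
    exact hv1
  · rw [Polynomial.map_mul, map_C, rm_C_mul _ ((map_ne_zero φ).2 (hb j))]
    exact hv2 j hj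

theorem simp_coef {k : ℕ} (g : ℤ[X]) (m : Fin k → ℕ) (hm : ∀ i, 2 ≤ m i) (a b : Fin k → ℤ) (l : ℕ)
    [hl : Fact l.Prime] (hd : g.natDegree < l) (n₁ n₂ : ℤ) (hn : ¬ (l : ℤ) ∣ g.eval n₁ - g.eval n₂)
    (h : ¬ (l : ℤ) ∣ sbad m a b) :
    Simp (red (fun i => (C (b i) * g ^ m i + C (a i) : ℤ[X])) l) := by
  classical
  have hdvd : ∀ c : ℤ, c ∣ sbad m a b → ¬ (l : ℤ) ∣ c := fun c hc hlc => h (hlc.trans hc)
  have hmab : ∀ i, ¬ (l : ℤ) ∣ (m i : ℤ) * a i * b i := fun i => hdvd _ (by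
    unfold sbad
    exact Dvd.dvd.mul_right (Finset.dvd_prod_of_mem _ (mem_univ i)) _)
  have hm' : ∀ i, ((m i : ℕ) : ZMod l) ≠ 0 := by
    intro i h0
    apply hmab i
    exact Dvd.dvd.mul_right (Dvd.dvd.mul_right
      (by exact_mod_cast (ZMod.natCast_eq_zero_iff _ _).1 h0) _) _
  have ha' : ∀ i, ((a i : ℤ) : ZMod l) ≠ 0 := by
    intro i h0
    apply hmab i
    exact Dvd.dvd.mul_right (Dvd.dvd.mul_left ((ZMod.intCast_zmod_eq_zero_iff_dvd _ _).1 h0) _) _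
  have hb' : ∀ i, ((b i : ℤ) : ZMod l) ≠ 0 := by
    intro i h0
    apply hmab i
    exact Dvd.dvd.mul_left ((ZMod.intCast_zmod_eq_zero_iff_dvd _ _).1 h0) _
  obtain ⟨a', hadef⟩ : ∃ a' : Fin k → ℤ, a' = fun i =>
      ((((a i : ZMod l) * (b i : ZMod l)⁻¹).val : ℕ) : ℤ) := ⟨_, rfl⟩
  have hac : ∀ i, ((a' i : ℤ) : ZMod l) = (a i : ZMod l) * (b i : ZMod l)⁻¹ := by
    intro i
    rw [hadef]
    show ((((((a i : ZMod l) * (b i : ZMod l)⁻¹).val : ℕ) : ℤ)) : ZMod l) = _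
    rw [Int.cast_natCast, ZMod.natCast_zmod_val]
  have hbad : ¬ (l : ℤ) ∣ bad m a' := by
    rw [← ZMod.intCast_zmod_eq_zero_iff_dvd]
    unfold bad
    push_cast
    refine mul_ne_zero (Finset.prod_ne_zero_iff.2 fun i _ => ?_) (Finset.prod_ne_zero_iff.2 fun p hp => ?_)
    · rw [hac]
      exact mul_ne_zero (hm' i) (mul_ne_zero (ha' i) (inv_ne_zero (hb' i)))
    · rw [hac, hac]
      intro h0
      have h1 : ¬ (l : ℤ) ∣ ((-a p.1) ^ m p.2 * b p.2 ^ m p.1 - (-a p.2) ^ m p.1 * b p.1 ^ m p.2) := by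
        refine hdvd _ ?_
        unfold sbad
        refine Dvd.dvd.mul_left ?_ _
        exact Finset.dvd_prod_of_mem (fun p : Fin k × Fin k =>
          ((-a p.1) ^ m p.2 * b p.2 ^ m p.1 - (-a p.2) ^ m p.1 * b p.1 ^ m p.2)) hp
      apply h1
      rw [← ZMod.intCast_zmod_eq_zero_iff_dvd]
      push_cast
      have h2 : ∀ (u v : ZMod l) (n : ℕ), v ≠ 0 → (-(u * v⁻¹)) ^ n * v ^ n = (-u) ^ n := by
        intro u v n hv
        rw [← mul_pow]
        congr 1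
        field_simp
      have h3 := sub_eq_zero.1 h0
      have h4 := h2 (a p.1) (b p.1) (m p.2) (hb' _)
      have h5 := h2 (a p.2) (b p.2) (m p.1) (hb' _)
      rw [← h4, ← h5, h3]
      ring
  have hs := simp_gen g m hm a' l hd n₁ n₂ hn hbad
  have hsc := simp_scale _ (fun i => (b i : ZMod l)) hb' hs
  have heq : (fun i => C ((b i : ZMod l)) * red (fun i => (g ^ m i + C (a' i) : ℤ[X])) l i) =
      red (fun i => (C (b i) * g ^ m i + C (a i) : ℤ[X])) l := by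
    funext i
    unfold red
    rw [Polynomial.map_add, Polynomial.map_add, Polynomial.map_mul, Polynomial.map_pow, map_C, map_C,
      map_C, eq_intCast, eq_intCast, eq_intCast, hac, mul_add, ← C_mul, mul_comm (b i : ZMod l), mul_assoc, inv_mul_cancel₀ (hb' i), mul_one]
  rwa [heq] at hsc

theorem sbad_ne_zero {k : ℕ} (m : Fin k → ℕ) (hm : ∀ i, 0 < m i) (a b : Fin k → ℤ)
    (ha : ∀ i, a i ≠ 0) (hb : ∀ i, b i ≠ 0)
    (hij : ∀ i j, i ≠ j → (a i).natAbs ^ m j * (b j).natAbs ^ m i ≠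
      (a j).natAbs ^ m i * (b i).natAbs ^ m j) : sbad m a b ≠ 0 := by
  unfold sbad
  refine mul_ne_zero (Finset.prod_ne_zero_iff.2 fun i _ => mul_ne_zero (mul_ne_zero ?_ (ha i)) (hb i))
    (Finset.prod_ne_zero_iff.2 fun p hp => ?_)
  · exact_mod_cast (hm i).ne'
  · rw [mem_filter] at hp
    intro h
    apply hij p.1 p.2 hp.2
    have h1 := congrArg Int.natAbs (sub_eq_zero.1 h)
    simpa only [Int.natAbs_mul, Int.natAbs_pow, Int.natAbs_neg] using h1

theorem log_sbad {k : ℕ} (m : Fin k → ℕ) (hm : ∀ i, 0 < m i) (a b : Fin k → ℤ)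
    (ha : ∀ i, a i ≠ 0) (hb : ∀ i, b i ≠ 0)
    (hij : ∀ i j, i ≠ j → (a i).natAbs ^ m j * (b j).natAbs ^ m i ≠
      (a j).natAbs ^ m i * (b i).natAbs ^ m j) (M A : ℝ)
    (hM : ∀ i, (m i : ℝ) ≤ M) (hA : ∀ i, Real.log (a i).natAbs ≤ A)
    (hB : ∀ i, Real.log (b i).natAbs ≤ A) (hM0 : 0 ≤ M) (hA0 : 0 ≤ A) :
    Real.log (sbad m a b).natAbs ≤ (k + k ^ 2) * ((1 + M) * (1 + 2 * A)) := by
  have hb2 := sbad_ne_zero m hm a b ha hb hij
  have hb' := hb2
  unfold sbad at hb'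
  rw [mul_ne_zero_iff] at hb'
  have h1 : ((sbad m a b).natAbs : ℝ) = |(sbad m a b : ℝ)| := by
    rw [Nat.cast_natAbs, Int.cast_abs]
  rw [h1, Real.log_abs]
  unfold sbad
  push_cast
  rw [Real.log_mul (by exact_mod_cast hb'.1) (by exact_mod_cast hb'.2), Real.log_prod (by
    intro i _
    exact_mod_cast mul_ne_zero (mul_ne_zero (by exact_mod_cast (hm i).ne' : (m i : ℤ) ≠ 0) (ha i))
      (hb i)),
    Real.log_prod (by
      intro p hp
      exact_mod_cast (Finset.prod_ne_zero_iff.1 hb'.2) p hp)]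
  have hlog : ∀ c : ℤ, Real.log c.natAbs ≤ A → Real.log (c : ℝ) ≤ A := by
    intro c h
    rwa [Nat.cast_natAbs, Int.cast_abs, Real.log_abs] at h
  have h2 : ∀ i, Real.log ((m i : ℝ) * (a i : ℝ) * (b i : ℝ)) ≤ (1 + M) * (1 + 2 * A) := by
    intro i
    have m0 : (m i : ℝ) ≠ 0 := by exact_mod_cast (hm i).ne'
    have a0 : (a i : ℝ) ≠ 0 := by exact_mod_cast ha i
    have b0 : (b i : ℝ) ≠ 0 := by exact_mod_cast hb i
    rw [Real.log_mul (mul_ne_zero m0 a0) b0, Real.log_mul m0 a0]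
    have h3 : Real.log (a i : ℝ) ≤ A := hlog _ (hA i)
    have h3' : Real.log (b i : ℝ) ≤ A := hlog _ (hB i)
    have h4 : Real.log (m i : ℝ) ≤ M := by
      refine (Real.log_le_sub_one_of_pos (by exact_mod_cast hm i)).trans ?_
      have := hM i
      linarith
    nlinarith [mul_nonneg hM0 hA0]
  have habs : ∀ c : ℤ, c ≠ 0 → Real.log c.natAbs ≤ A → |(c : ℝ)| ≤ Real.exp A := by
    intro c hc h
    rw [Nat.cast_natAbs, Int.cast_abs] at h
    have h0 : 0 < |(c : ℝ)| := abs_pos.2 (by exact_mod_cast hc)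
    exact (Real.log_le_iff_le_exp h0).1 h
  have hpow : ∀ (c : ℤ) (j : Fin k), |(c : ℝ)| ≤ Real.exp A → |(c : ℝ)| ^ m j ≤ Real.exp (A * M) := by
    intro c j hc
    refine (pow_le_pow_left₀ (abs_nonneg _) hc _).trans ?_
    rw [← Real.exp_nat_mul]
    apply Real.exp_le_exp.2
    rw [mul_comm]
    exact mul_le_mul_of_nonneg_left (hM j) hA0
  have hprod : ∀ i j, |(-(a i : ℝ)) ^ m j * (b j : ℝ) ^ m i| ≤ Real.exp (2 * A * M) := by
    intro i j
    rw [abs_mul, abs_pow, abs_pow, abs_neg]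
    have e1 := hpow (a i) j (habs _ (ha i) (hA i))
    have e2 := hpow (b j) i (habs _ (hb j) (hB j))
    calc |(a i : ℝ)| ^ m j * |(b j : ℝ)| ^ m i ≤ Real.exp (A * M) * Real.exp (A * M) :=
          mul_le_mul e1 e2 (by positivity) (by positivity)
      _ = Real.exp (2 * A * M) := by
          rw [← Real.exp_add]
          ring_nf
  have h5 : ∀ p ∈ (univ : Finset (Fin k × Fin k)).filter (fun p => p.1 ≠ p.2),
      Real.log ((-(a p.1 : ℝ)) ^ m p.2 * (b p.2 : ℝ) ^ m p.1 -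
        (-(a p.2 : ℝ)) ^ m p.1 * (b p.1 : ℝ) ^ m p.2) ≤ (1 + M) * (1 + 2 * A) := by
    intro p hp
    rw [← Real.log_abs]
    have h6 : |(-(a p.1 : ℝ)) ^ m p.2 * (b p.2 : ℝ) ^ m p.1 -
        (-(a p.2 : ℝ)) ^ m p.1 * (b p.1 : ℝ) ^ m p.2| ≤ Real.exp (1 + 2 * A * M) := by
      refine (abs_sub _ _).trans ?_
      have h7 := hprod p.1 p.2
      have h8 := hprod p.2 p.1
      have h9 : 2 ≤ Real.exp 1 := by
        have := Real.add_one_le_exp (1 : ℝ)
        linarith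
      rw [Real.exp_add]
      have h10 := mul_le_mul_of_nonneg_right h9 (Real.exp_pos (2 * A * M)).le
      linarith
    have h7 : 0 < |(-(a p.1 : ℝ)) ^ m p.2 * (b p.2 : ℝ) ^ m p.1 -
        (-(a p.2 : ℝ)) ^ m p.1 * (b p.1 : ℝ) ^ m p.2| := by
      rw [abs_pos]
      exact_mod_cast (Finset.prod_ne_zero_iff.1 hb'.2) p hp
    refine ((Real.log_le_iff_le_exp h7).2 h6).trans ?_
    nlinarith
  have h6 := Finset.sum_le_sum (s := univ) (fun i _ => h2 i)
  have h7 := Finset.sum_le_sum h5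
  rw [Finset.sum_const, nsmul_eq_mul] at h6 h7
  rw [Finset.card_univ, Fintype.card_fin] at h6
  have h8 : (((univ : Finset (Fin k × Fin k)).filter (fun p => p.1 ≠ p.2)).card : ℝ) ≤ k ^ 2 := by
    have : ((univ : Finset (Fin k × Fin k)).filter (fun p => p.1 ≠ p.2)).card ≤ k ^ 2 := by
      refine (Finset.card_filter_le _ _).trans ?_
      rw [Finset.card_univ, Fintype.card_prod, Fintype.card_fin, sq]
    exact_mod_cast this
  have h9 : 0 ≤ (1 + M) * (1 + 2 * A) := by positivity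
  have h10 := mul_le_mul_of_nonneg_right h8 h9
  linarith

end Pool.Agent.Helper82.SU
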