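import Pool.Agent.Helper82.SU.Line

/-!
# Two bases given by polynomials in one variable: asymptotic form
-/

set_option autoImplicit false

namespace Pool.Agent.Helper82.SU

open Finset Polynomial Filter Topology Pool.Agent.N741.PB

theorem sline (s R : ℕ) (hR : 2 ≤ R) (δ : ℝ) (hδ : 0 < δ) : ∃ c : ℝ, 0 < c ∧ c ≤ δ ∧ c ≤ 1 ∧
    ∃ N₀ : ℕ, ∀ N : ℕ, N₀ ≤ N → ∀ S : Finset ℕ, S.card ≤ s → ∀ f g : ℤ[X],
      (0 < f.natDegree ∨ 0 < g.natDegree) →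
      (f.natDegree : ℝ) ≤ (N : ℝ) ^ c → (g.natDegree : ℝ) ≤ (N : ℝ) ^ c →
      ∀ V : Finset ℤ, (∀ n ∈ V, |n| ≤ N ∧
          SPair S R (Real.exp ((N : ℝ) ^ c)) (f.eval n) (g.eval n)) →
        (V.card : ℝ) ≤ (N : ℝ) ^ (1 / (R : ℝ) + δ) := by
  obtain ⟨P, hPge, hP⟩ := Nat.exists_infinite_primes (R + 7)
  obtain ⟨e, he⟩ : ∃ e, e = min δ 1 := ⟨_, rfl⟩
  have he0 : 0 < e := by rw [he]; positivity
  have he1 : e ≤ 1 := by rw [he]; exact min_le_right _ _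
  have heδ : e ≤ δ := by rw [he]; exact min_le_left _ _
  obtain ⟨c, hc⟩ : ∃ c : ℝ, c = e / (1000 * (s + 1)) := ⟨_, rfl⟩
  have hs1 : (0 : ℝ) < (s : ℝ) + 1 := by positivity
  have hc0 : 0 < c := by rw [hc]; positivity
  have hcs : c * (s + 1) = e / 1000 := by rw [hc]; field_simp
  have hce : c ≤ e / 1000 := by
    rw [← hcs]
    have : (0 : ℝ) ≤ s := Nat.cast_nonneg s
    nlinarith
  refine ⟨c, hc0, by linarith, by linarith, ?_⟩
  obtain ⟨K₀, hK₀⟩ : ∃ K₀ : ℝ, K₀ = ((P : ℝ) + R + 8) * (2 * 4 ^ (s + 1)) := ⟨_, rfl⟩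
  obtain ⟨L₁, hL₁⟩ := ev_rpow hc0 2
  obtain ⟨L₂, hL₂⟩ := ev_rpow (show 0 < e / 128 by positivity) K₀
  obtain ⟨L₃, hL₃⟩ := ev_rpow (show 0 < e / 4 by positivity) (8 * (R : ℝ) ^ 2)
  obtain ⟨L₄, hL₄⟩ := ev_rpow (show 0 < e / 4 by positivity) 20
  obtain ⟨L₅, hL₅⟩ := ev_rpow (show 0 < e / 8 by positivity) 3
  obtain ⟨L, hL⟩ := pi_rpow (e / 8) (by positivity)
  obtain ⟨L₆, hL₆⟩ := ev_rpow (show 0 < e / 2 by positivity) (L : ℝ)
  refine ⟨L₁ + L₂ + L₃ + L₄ + L₅ + L₆ + 2, fun N hN S hS f g hfg hDf hDg V hV => ?_⟩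
  have h1 := hL₁ N (by omega)
  have h2 := hL₂ N (by omega)
  have h3 := hL₃ N (by omega)
  have h4 := hL₄ N (by omega)
  have h5 := hL₅ N (by omega)
  have h6 := hL₆ N (by omega)
  have hNpos : (0 : ℝ) < N := by
    have : 0 < N := by omega
    exact_mod_cast this
  have hN1 : (1 : ℝ) ≤ N := by
    have : 1 ≤ N := by omega
    exact_mod_cast this
  have hR2 : (2 : ℝ) ≤ R := by exact_mod_cast hR
  have hRinv : 1 / (R : ℝ) ≤ 1 / 2 := by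
    apply one_div_le_one_div_of_le (by norm_num) hR2
  have hRinv0 : 0 < 1 / (R : ℝ) := by positivity
  -- the parameter `T`
  obtain ⟨T, hT⟩ : ∃ T, T = ⌈(N : ℝ) ^ (2 * c)⌉₊ := ⟨_, rfl⟩
  have hle : (N : ℝ) ^ (2 * c) ≤ (T : ℝ) := by rw [hT]; exact Nat.le_ceil _
  have hge1 : 1 ≤ (N : ℝ) ^ (2 * c) := Real.one_le_rpow hN1 (by positivity)
  have hlt : (T : ℝ) < (N : ℝ) ^ (2 * c) + 1 := by rw [hT]; exact Nat.ceil_lt_add_one (by linarith)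
  have e1 : (N : ℝ) ^ (2 * c) = (N : ℝ) ^ c * (N : ℝ) ^ c := by
    rw [← Real.rpow_add hNpos]; congr 1; ring
  have e2 : 2 * (N : ℝ) ^ c ≤ T := by
    have : 2 * (N : ℝ) ^ c ≤ (N : ℝ) ^ c * (N : ℝ) ^ c :=
      mul_le_mul_of_nonneg_right h1 (by linarith)
    linarith
  have hT2 : 2 ≤ T := by
    have : (2 : ℝ) ≤ T := by linarith
    exact_mod_cast this
  have e3 : (N : ℝ) ^ c ≤ T * Real.log 2 := by
    have := Real.log_two_gt_d9
    have hS0 : (0 : ℝ) ≤ T := Nat.cast_nonneg _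
    have : (T : ℝ) * (1 / 2) ≤ T * Real.log 2 := mul_le_mul_of_nonneg_left (by linarith) hS0
    linarith
  have hW : Real.exp ((N : ℝ) ^ c) ≤ ((2 ^ T : ℕ) : ℝ) := by
    calc Real.exp ((N : ℝ) ^ c) ≤ Real.exp (T * Real.log 2) := Real.exp_le_exp.mpr e3
      _ = (2 : ℝ) ^ T := by
        rw [mul_comm, Real.exp_mul, Real.exp_log (by norm_num), Real.rpow_natCast]
      _ = _ := by push_cast; rfl
  -- the small quantity
  obtain ⟨Z, hZ⟩ : ∃ Z : ℝ, Z = (N : ℝ) ^ (e / 64) := ⟨_, rfl⟩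
  have hZ1 : 1 ≤ Z := by rw [hZ]; exact Real.one_le_rpow hN1 (by positivity)
  have e4 : (T : ℝ) + 1 ≤ 4 * (N : ℝ) ^ (2 * c) := by linarith
  have e5 : 2 * ((T : ℝ) + 1) ^ (s + 1) ≤ 2 * 4 ^ (s + 1) * (N : ℝ) ^ (e / 500) := by
    calc 2 * ((T : ℝ) + 1) ^ (s + 1) ≤ 2 * (4 * (N : ℝ) ^ (2 * c)) ^ (s + 1) :=
          mul_le_mul_of_nonneg_left (pow_le_pow_left₀ (by positivity) e4 _) (by norm_num)
      _ = 2 * 4 ^ (s + 1) * (N : ℝ) ^ (e / 500) := by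
        rw [mul_pow, ← Real.rpow_natCast ((N : ℝ) ^ (2 * c)), ← Real.rpow_mul hNpos.le, ← mul_assoc]
        congr 2
        push_cast
        linear_combination 2 * hcs
  obtain ⟨q, hq⟩ : ∃ q : ℝ, q = 2 * ((T : ℝ) + 1) ^ (s + 1) := ⟨_, rfl⟩
  rw [← hq] at e5
  have e6 : ((P : ℝ) + R + 8) * q ≤ Z := by
    calc ((P : ℝ) + R + 8) * q
        ≤ ((P : ℝ) + R + 8) * (2 * 4 ^ (s + 1) * (N : ℝ) ^ (e / 500)) := by gcongr
      _ = K₀ * (N : ℝ) ^ (e / 500) := by rw [hK₀]; ring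
      _ ≤ (N : ℝ) ^ (e / 128) * (N : ℝ) ^ (e / 500) := by gcongr
      _ = (N : ℝ) ^ (e / 128 + e / 500) := by rw [← Real.rpow_add hNpos]
      _ ≤ Z := by
        rw [hZ]
        apply Real.rpow_le_rpow_of_exponent_le hN1
        linarith
  have hT0 : (0 : ℝ) ≤ T := Nat.cast_nonneg _
  have hT1 : (1 : ℝ) ≤ (T : ℝ) + 1 := by linarith
  have hq1 : 2 * ((T : ℝ) + 1) ≤ q := by
    rw [hq]
    exact mul_le_mul_of_nonneg_left (le_self_pow₀ hT1 (by omega)) (by norm_num)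
  have hqs : 2 * ((T : ℝ) + 1) ^ s ≤ q := by
    rw [hq]
    exact mul_le_mul_of_nonneg_left (pow_le_pow_right₀ hT1 (by omega)) (by norm_num)
  have hq0 : 1 ≤ q := by linarith
  have hP0 : (0 : ℝ) ≤ P := Nat.cast_nonneg _
  have hR0 : (0 : ℝ) ≤ R := Nat.cast_nonneg _
  have a2 : (P : ℝ) ≤ P * q := le_mul_of_one_le_right hP0 hq0
  have a3 : (R : ℝ) ≤ R * q := le_mul_of_one_le_right hR0 hq0
  have a4 : ((P : ℝ) + R + 8) * q = P * q + R * q + 8 * q := by ring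
  obtain ⟨B, hB⟩ : ∃ B, B = T + P := ⟨_, rfl⟩
  have hBZ : (B : ℝ) + 1 ≤ Z := by
    refine le_trans ?_ e6
    rw [hB]; push_cast
    linarith
  have hTZ : 2 * (T : ℝ) + 1 ≤ Z := by
    refine le_trans ?_ e6
    linarith
  have hRZ : (R : ℝ) ≤ Z := by
    refine le_trans ?_ e6
    linarith
  have hqZ : 2 * ((T : ℝ) + 1) ^ S.card ≤ Z := by
    refine le_trans (le_trans ?_ hqs) ?_
    · exact mul_le_mul_of_nonneg_left (pow_le_pow_right₀ hT1 hS) (by norm_num)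
    · refine le_trans ?_ e6
      nlinarith
  -- the primes
  obtain ⟨u, hu⟩ : ∃ u : ℝ, u = (N : ℝ) ^ (1 / (R : ℝ)) * (N : ℝ) ^ (e / 4) := ⟨_, rfl⟩
  have hu' : u = (N : ℝ) ^ (1 / (R : ℝ) + e / 4) := by rw [hu, ← Real.rpow_add hNpos]
  have hZu : Z ≤ u := by
    rw [hZ, hu']
    apply Real.rpow_le_rpow_of_exponent_le hN1
    linarith
  obtain ⟨X, hX⟩ : ∃ X, X = ⌈u⌉₊ := ⟨_, rfl⟩
  have hXu : u ≤ X := by rw [hX]; exact Nat.le_ceil _
  have hXu' : (X : ℝ) < u + 1 := by rw [hX]; exact Nat.ceil_lt_add_one (by linarith)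
  obtain ⟨v, hv⟩ : ∃ v : ℝ, v = (N : ℝ) ^ (1 / (R : ℝ) + e / 2) := ⟨_, rfl⟩
  have hv1 : 1 ≤ v := by rw [hv]; exact Real.one_le_rpow hN1 (by positivity)
  obtain ⟨X₁, hX₁⟩ : ∃ X₁, X₁ = ⌈v⌉₊ := ⟨_, rfl⟩
  have hX₁v : v ≤ X₁ := by rw [hX₁]; exact Nat.le_ceil _
  have hX₁v' : (X₁ : ℝ) < v + 1 := by rw [hX₁]; exact Nat.ceil_lt_add_one (by linarith)
  have hLX : L ≤ X₁ := by
    have : (L : ℝ) ≤ X₁ := by
      refine h6.trans (le_trans ?_ hX₁v)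
      rw [hv]
      apply Real.rpow_le_rpow_of_exponent_le hN1
      linarith
    exact_mod_cast this
  have hpi := hL X₁ hLX
  have e7 : (N : ℝ) ^ (1 / (R : ℝ) + 3 * e / 8) ≤ (X₁ : ℝ) ^ (1 - e / 8) := by
    calc (N : ℝ) ^ (1 / (R : ℝ) + 3 * e / 8) ≤ v ^ (1 - e / 8) := by
          rw [hv, ← Real.rpow_mul hNpos.le]
          apply Real.rpow_le_rpow_of_exponent_le hN1
          have g1 : (1 / (R : ℝ) + e / 2) * (e / 8) ≤ 1 * (e / 8) :=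
            mul_le_mul_of_nonneg_right (by linarith) (by linarith)
          have g2 : (1 / (R : ℝ) + e / 2) * (1 - e / 8) =
              1 / (R : ℝ) + e / 2 - (1 / (R : ℝ) + e / 2) * (e / 8) := by ring
          rw [g2]
          linarith
      _ ≤ _ := Real.rpow_le_rpow (by linarith) hX₁v (by linarith)
  have e8 : (N : ℝ) ^ (1 / (R : ℝ) + 3 * e / 8) = u * (N : ℝ) ^ (e / 8) := by
    rw [hu', ← Real.rpow_add hNpos]; congr 1; ring
  have hu1 : 1 ≤ u := hZ1.trans hZu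
  have hcount : X + (2 * T + 1) ≤ Nat.primeCounting X₁ := by
    have : ((X + (2 * T + 1) : ℕ) : ℝ) ≤ (Nat.primeCounting X₁ : ℝ) := by
      refine le_trans ?_ (e7.trans hpi)
      rw [e8]
      push_cast
      have : u * 3 ≤ u * (N : ℝ) ^ (e / 8) := mul_le_mul_of_nonneg_left h5 (by linarith)
      linarith
    exact_mod_cast this
  obtain ⟨𝒬, h𝒬c, h𝒬⟩ := primes_in hcount
  have hBX : B < X := by
    have : (B : ℝ) < X := by linarith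
    exact_mod_cast this
  have hX2 : 2 ≤ X := by
    have : (2 : ℝ) ≤ X := by linarith
    exact_mod_cast this
  have hWX : 2 ^ (2 * T) < X ^ 𝒬.card := by
    rw [h𝒬c]
    calc 2 ^ (2 * T) < 2 ^ (2 * T + 1) := Nat.pow_lt_pow_right (by norm_num) (by omega)
      _ ≤ X ^ (2 * T + 1) := Nat.pow_le_pow_left hX2 _
  have hbig := hbig_of (S := 2 * T) (X := X) hR (by omega : 1 ≤ N) h3 (by rw [← hu]; exact hXu)
  have hDf' : f.natDegree ≤ T := by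
    have : (f.natDegree : ℝ) ≤ T := by linarith
    exact_mod_cast this
  have hDg' : g.natDegree ≤ T := by
    have : (g.natDegree : ℝ) ≤ T := by linarith
    exact_mod_cast this
  have hmain := sline_count hfg (by omega) hP (by omega) (by omega) (by omega) hDf' hDg' S
    h𝒬 hB hBX hWX hbig V (by
      intro n hn
      obtain ⟨hn1, a, b, c', z, l, m, k, hI, hk, t1, t2, t3⟩ := hV n hn
      exact ⟨hn1, a, b, c', z, l, m, k, hI, hk, t1.trans hW, t2.trans hW, t3.trans hW⟩)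
  rw [h𝒬c] at hmain
  have hB0 : (0 : ℝ) ≤ B := Nat.cast_nonneg _
  have hBZ' : (B : ℝ) ≤ Z := by linarith
  have hTZ' : (T : ℝ) ≤ Z := by linarith
  have h2TZ : 2 * (T : ℝ) ≤ Z := by linarith
  have hX₁0 : (0 : ℝ) ≤ X₁ := Nat.cast_nonneg _
  have hX₁2 : (X₁ : ℝ) ≤ 2 * v := by linarith
  have hfin : (V.card : ℝ) ≤ 4 * (X₁ * Z ^ 11) := by
    calc (V.card : ℝ) ≤ ((2 * T + (B + 1) ^ 3 * (2 * (T + 1) ^ S.card) ^ 3 *
          ((2 * T + 1) * (X₁ * (B * (B * (2 * T) + R * (B * T))))) : ℕ) : ℝ) := by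
            exact_mod_cast hmain
      _ = 2 * (T : ℝ) + ((B : ℝ) + 1) ^ 3 * (2 * ((T : ℝ) + 1) ^ S.card) ^ 3 *
          ((2 * (T : ℝ) + 1) * (X₁ * (B * (B * (2 * T) + R * (B * T))))) := by
        push_cast; ring
      _ ≤ Z + Z ^ 3 * Z ^ 3 * (Z * (X₁ * (Z * (Z * Z + Z * (Z * Z))))) := by
        gcongr
      _ ≤ 4 * (X₁ * Z ^ 11) := by
        have hX₁1 : (1 : ℝ) ≤ X₁ := by linarith
        have g1 : Z ≤ Z ^ 11 := le_self_pow₀ hZ1 (by norm_num)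
        have g2 : Z ^ 10 ≤ Z ^ 11 := pow_le_pow_right₀ hZ1 (by norm_num)
        have g3 : Z ^ 11 ≤ X₁ * Z ^ 11 := le_mul_of_one_le_left (by positivity) hX₁1
        have g4 : (X₁ : ℝ) * Z ^ 10 ≤ X₁ * Z ^ 11 := mul_le_mul_of_nonneg_left g2 hX₁0
        have g5 : Z + Z ^ 3 * Z ^ 3 * (Z * (X₁ * (Z * (Z * Z + Z * (Z * Z))))) =
            Z + (X₁ : ℝ) * Z ^ 10 + (X₁ : ℝ) * Z ^ 11 := by ring
        rw [g5]
        linarith
  have hZ11 : Z ^ 11 ≤ (N : ℝ) ^ (e / 4) := by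
    rw [hZ, ← Real.rpow_natCast, ← Real.rpow_mul hNpos.le]
    apply Real.rpow_le_rpow_of_exponent_le hN1
    push_cast
    linarith
  calc (V.card : ℝ) ≤ 4 * (X₁ * Z ^ 11) := hfin
    _ ≤ 10 * ((2 * v) * (N : ℝ) ^ (e / 4)) := by
      have g1 : (X₁ : ℝ) * Z ^ 11 ≤ (2 * v) * (N : ℝ) ^ (e / 4) :=
        mul_le_mul hX₁2 hZ11 (by positivity) (by positivity)
      have g2 : 0 ≤ (2 * v) * (N : ℝ) ^ (e / 4) := by positivity
      linarith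
    _ = 20 * (v * (N : ℝ) ^ (e / 4)) := by ring
    _ ≤ (N : ℝ) ^ (e / 4) * (v * (N : ℝ) ^ (e / 4)) := by gcongr
    _ = (N : ℝ) ^ (1 / (R : ℝ) + e) := by
      rw [hv, ← Real.rpow_add hNpos, ← Real.rpow_add hNpos]
      congr 1; ring
    _ ≤ (N : ℝ) ^ (1 / (R : ℝ) + δ) := Real.rpow_le_rpow_of_exponent_le hN1 (by linarith)

end Pool.Agent.Helper82.SU
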