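import Pool.Agent.Helper82.SU.Fixed
import Pool.Agent.Helper82.SU.LineMain
import Pool.Agent.Helper82.FC.Many

/-!
# Common partners of several bases among the values of a polynomial, with coefficients
-/

set_option autoImplicit false

namespace Pool.Agent.Helper82.SU

open Polynomial Finset Filter Pool.Agent.N741.PB
open Pool.Agent.Helper82.FC (card_value exp_le_two_pow double_count)

/-- `x` and `y` are two bases of a solution with terms at most `W` -/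
def SPart (S : Finset ℕ) (W : ℝ) (x y : ℤ) : Prop := ∃ (a b c z : ℤ) (l m r : ℕ),
  Sol S a b c x y z l m r ∧
    |((a * x ^ l : ℤ) : ℝ)| ≤ W ∧ |((b * y ^ m : ℤ) : ℝ)| ≤ W ∧ |((c * z ^ r : ℤ) : ℝ)| ≤ W

/-- the third exponent has only large prime divisors or can be replaced by a small prime -/
theorem spart_cases {S : Finset ℕ} {R T : ℕ} {W : ℝ} {x y : ℤ} (hW : W ≤ 2 ^ T)
    (h : SPart S W x y) :
    SPair S R W x y ∨ ∃ (a b c : ℤ) (l m r : ℕ), a ∈ units S T ∧ b ∈ units S T ∧ c ∈ units S T ∧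
      l ≤ T + 7 ∧ m ≤ T + 7 ∧ 0 < l ∧ 2 ≤ m ∧ (a * x ^ l).natAbs ≤ 2 ^ T ∧
      r.Prime ∧ r < R ∧ ∃ w : ℤ, b * y ^ m + a * x ^ l = c * w ^ r := by
  obtain ⟨a, b, c, z, l, m, n, hI, t1, t2, t3⟩ := h
  by_cases hR : ∀ p : ℕ, p.Prime → p ∣ n → R ≤ p
  · left
    exact ⟨a, b, c, z, l, m, n, hI, hR, t1, t2, t3⟩
  · right
    push Not at hR
    obtain ⟨p, hp, hpn, hpR⟩ := hR
    obtain ⟨q, hq⟩ := hpn
    have u1 := natAbs_le_of_abs t1 hW
    have u2 := natAbs_le_of_abs t2 hW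
    have u3 := natAbs_le_of_abs t3 hW
    obtain ⟨l', m', hI', hl', hm', el, em⟩ := hI.red12 u1 u2
    refine ⟨a, b, c, l', m', p, mem_units hI.a1 (natAbs_le_mul' (pow_ne_zero _ hI.x0) u1),
      mem_units hI.b1 (natAbs_le_mul' (pow_ne_zero _ hI.y0) u2),
      mem_units hI.c1 (natAbs_le_mul' (pow_ne_zero _ hI.z0) u3), hl', hm', hI'.l0,
      hI'.two_le.2.1, by rw [el]; exact u1, hp, hpR, z ^ q, ?_⟩
    rw [add_comm, hI'.eq, hq, ← pow_mul, mul_comm q p]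

/-- coefficients and exponents -/
abbrev SDat (k : ℕ) : Type :=
  (Fin k → ℤ) × (Fin k → ℤ) × (Fin k → ℤ) × (Fin k → ℕ) × (Fin k → ℕ) × (Fin k → ℕ)

/-- **common partners of several bases among the values of a polynomial** -/
theorem scommon (k s : ℕ) (hk : 1 ≤ k) (δ : ℝ) (hδ : 0 < δ) : ∃ c : ℝ, 0 < c ∧ ∃ N₀ : ℕ,
    ∀ N : ℕ, N₀ ≤ N → ∀ S : Finset ℕ, S.card ≤ s →
    ∀ g : ℤ[X], 0 < g.natDegree → (g.natDegree : ℝ) ≤ (N : ℝ) ^ c → ∀ x : Fin k → ℕ,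
    (∀ i, 0 < x i) →
    (∀ i j, i ≠ j → ∀ e f : ℤ, SU S e → SU S f → ∀ u v : ℕ, 0 < u → 0 < v →
      e * (x i : ℤ) ^ u ≠ f * (x j : ℤ) ^ v) → ∀ Y : Finset ℤ,
    (∀ n ∈ Y, |n| ≤ N ∧ ∀ i, SPart S (Real.exp ((N : ℝ) ^ c)) (x i : ℤ) (g.eval n)) →
      (Y.card : ℝ) ≤ (N : ℝ) ^ (1 / (2 : ℝ) ^ k + δ) := by
  classical
  obtain ⟨R, hR⟩ : ∃ R : ℕ, R = 2 ^ (k + 1) := ⟨_, rfl⟩
  have hR2 : 2 ≤ R := by
    rw [hR, pow_succ]
    have : 1 ≤ 2 ^ k := Nat.one_le_two_pow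
    omega
  have hRk : 1 / (R : ℝ) ≤ 1 / (2 : ℝ) ^ k := by
    rw [hR]
    push_cast
    exact one_div_le_one_div_of_le (by positivity) (pow_le_pow_right₀ (by norm_num) (by omega))
  obtain ⟨c1, hc1, -, hc11, N₁, hbig⟩ := sline s R hR2 (δ / 4) (by positivity)
  obtain ⟨ε, hε, N₂, hfix⟩ := sfixed k R (δ / 4) (by positivity)
  obtain ⟨ε2, hε2⟩ : ∃ ε2 : ℝ, ε2 = min ε (δ / (40 * (k + 1))) := ⟨_, rfl⟩
  have hε20 : 0 < ε2 := by rw [hε2]; exact lt_min hε (by positivity)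
  have hε2ε : ε2 ≤ ε := by rw [hε2]; exact min_le_left _ _
  have hk0 : (0 : ℝ) ≤ k := Nat.cast_nonneg k
  have hε2d : ε2 * (40 * (k + 1)) ≤ δ := by
    have h1 : ε2 ≤ δ / (40 * (k + 1)) := by rw [hε2]; exact min_le_right _ _
    rwa [le_div_iff₀ (by positivity)] at h1
  have hε2k : 5 * k * ε2 ≤ δ / 8 := by nlinarith
  have hε2δ : ε2 ≤ δ / 16 := by nlinarith
  obtain ⟨c, hc⟩ : ∃ c : ℝ, c = min c1 (ε2 / (2 * (s + 1))) := ⟨_, rfl⟩
  have hc0 : 0 < c := by rw [hc]; exact lt_min hc1 (by positivity)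
  have hcc1 : c ≤ c1 := by rw [hc]; exact min_le_left _ _
  have hs0 : (0 : ℝ) ≤ s := Nat.cast_nonneg _
  have hcs : c * (s + 1) ≤ ε2 / 2 := by
    have h1 : c ≤ ε2 / (2 * (s + 1)) := by rw [hc]; exact min_le_right _ _
    rw [le_div_iff₀ (by positivity)] at h1
    linarith
  have hcε2 : c ≤ ε2 / 2 := by nlinarith
  have hxt := tendsto_natCast_atTop_atTop (R := ℝ)
  have e1 := ((tendsto_rpow_atTop (show 0 < ε2 / 2 by positivity)).comp hxt).eventually_ge_atTop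
    (2 * 16 ^ (s + 1))
  have e3 := ((tendsto_rpow_atTop (show 0 < 5 * δ / 8 by positivity)).comp hxt).eventually_ge_atTop
    (1 + (k : ℝ) + R ^ k * 2 ^ (1 / (2 : ℝ) ^ k + δ / 4))
  obtain ⟨N₃, hN₃⟩ := eventually_atTop.1 (e1.and (e3.and (eventually_ge_atTop 1)))
  refine ⟨c, hc0, max N₁ (max N₂ N₃), ?_⟩
  intro N hN S hS g hg0 hgd x hx hind Y hY
  obtain ⟨g1, g3, hN1⟩ := hN₃ N ((le_max_right _ _).trans ((le_max_right _ _).trans hN))
  have hNN1 : N₁ ≤ N := (le_max_left _ _).trans hN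
  have hNN2 : N₂ ≤ 2 * N := by
    have := (le_max_left _ _).trans ((le_max_right _ _).trans hN)
    omega
  simp only [Function.comp] at g1 g3
  have hN0 : (0 : ℝ) < N := by exact_mod_cast hN1
  have hN1' : (1 : ℝ) ≤ N := by exact_mod_cast hN1
  obtain ⟨z, hz⟩ : ∃ z : ℝ, z = (N : ℝ) ^ c := ⟨_, rfl⟩
  have hz1 : 1 ≤ z := by rw [hz]; exact Real.one_le_rpow hN1' hc0.le
  have hz0 : 0 < z := by linarith
  have hzz1 : z ≤ (N : ℝ) ^ c1 := by
    rw [hz]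
    exact Real.rpow_le_rpow_of_exponent_le hN1' hcc1
  have hzc1 : Real.exp z ≤ Real.exp ((N : ℝ) ^ c1) := Real.exp_le_exp.2 hzz1
  have hNhalf : (N : ℝ) ^ (ε2 / 2) * (N : ℝ) ^ (ε2 / 2) = (N : ℝ) ^ ε2 := by
    rw [← Real.rpow_add hN0]
    ring_nf
  have hN2ε : (N : ℝ) ^ ε2 ≤ ((2 * N : ℕ) : ℝ) ^ ε := by
    have h1 : (N : ℝ) ^ ε2 ≤ (N : ℝ) ^ ε := Real.rpow_le_rpow_of_exponent_le hN1' hε2ε
    refine h1.trans (Real.rpow_le_rpow hN0.le ?_ hε.le)
    push_cast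
    linarith
  rw [← hz] at hgd hY
  -- the bound for the exponents
  obtain ⟨T, hT⟩ : ∃ T : ℕ, T = ⌈2 * z⌉₊ + 1 := ⟨_, rfl⟩
  have hTz : 2 * z + 1 ≤ T := by
    rw [hT]
    push_cast
    have := Nat.le_ceil (2 * z)
    linarith
  have hTz' : (T : ℝ) ≤ 4 * z := by
    rw [hT]
    push_cast
    have := Nat.ceil_lt_add_one (show 0 ≤ 2 * z by linarith)
    linarith
  have hexp := exp_le_two_pow z hz0.le T hTz
  have hexp0 := Real.exp_pos z
  have hW : Real.exp z ≤ 2 ^ T := by linarith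
  have hT0 : (0 : ℝ) ≤ T := Nat.cast_nonneg _
  have hzs : z ^ (s + 1) ≤ (N : ℝ) ^ (ε2 / 2) := by
    rw [hz, ← Real.rpow_natCast, ← Real.rpow_mul hN0.le]
    refine Real.rpow_le_rpow_of_exponent_le hN1' ?_
    push_cast
    exact hcs
  have hT8 : (T : ℝ) + 8 ≤ 16 * z := by linarith
  have hpow : 2 * ((T : ℝ) + 8) ^ (s + 1) ≤ (N : ℝ) ^ ε2 := by
    calc 2 * ((T : ℝ) + 8) ^ (s + 1) ≤ 2 * (16 * z) ^ (s + 1) :=
          mul_le_mul_of_nonneg_left (pow_le_pow_left₀ (by linarith) hT8 _) (by norm_num)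
      _ = (2 * 16 ^ (s + 1)) * z ^ (s + 1) := by rw [mul_pow]; ring
      _ ≤ (N : ℝ) ^ (ε2 / 2) * (N : ℝ) ^ (ε2 / 2) :=
          mul_le_mul g1 hzs (by positivity) (by positivity)
      _ = (N : ℝ) ^ ε2 := hNhalf
  have hT81 : (1 : ℝ) ≤ (T : ℝ) + 8 := by linarith
  have hTN : (T : ℝ) + 8 ≤ (N : ℝ) ^ ε2 := by
    refine le_trans ?_ hpow
    have := le_self_pow₀ hT81 (show s + 1 ≠ 0 by omega)
    linarith
  have hUN : ((units S T).card : ℝ) ≤ (N : ℝ) ^ ε2 := by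
    refine le_trans ?_ hpow
    have h1 : ((units S T).card : ℝ) ≤ 2 * ((T : ℝ) + 1) ^ S.card := by
      exact_mod_cast units_card S T
    refine h1.trans (mul_le_mul_of_nonneg_left ?_ (by norm_num))
    calc ((T : ℝ) + 1) ^ S.card ≤ ((T : ℝ) + 8) ^ S.card :=
          pow_le_pow_left₀ (by linarith) (by linarith) _
      _ ≤ ((T : ℝ) + 8) ^ (s + 1) := pow_le_pow_right₀ hT81 (by omega)
  -- one or several values
  obtain ⟨i0, -⟩ : ∃ i0 : Fin k, True := ⟨⟨0, hk⟩, trivial⟩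
  have hval : ∀ n ∈ Y, (g.eval n).natAbs ≤ 2 ^ T := by
    intro n hn
    obtain ⟨a, b, c', z', l, m, r, hI, -, t2, -⟩ := (hY n hn).2 i0
    exact natAbs_base hI.m0 (natAbs_le_mul hI.b1.1 (natAbs_le_of_abs t2 hW))
  obtain ⟨V, hV⟩ : ∃ V : ℝ, V = (N : ℝ) ^ (1 / (2 : ℝ) ^ k + δ / 4 + δ / 8) := ⟨_, rfl⟩
  have h2k : 0 < 1 / (2 : ℝ) ^ k := by positivity
  have hV0 : 0 ≤ V := by rw [hV]; positivity
  have hgV : (g.natDegree : ℝ) ≤ V := by
    refine hgd.trans ?_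
    rw [hz, hV]
    exact Real.rpow_le_rpow_of_exponent_le hN1' (by linarith)
  have hVfin : V ≤ (N : ℝ) ^ (1 / (2 : ℝ) ^ k + δ) := by
    rw [hV]
    exact Real.rpow_le_rpow_of_exponent_le hN1' (by linarith)
  by_cases hone : ∀ n₁ ∈ Y, ∀ n₂ ∈ Y, g.eval n₁ = g.eval n₂
  · rcases Y.eq_empty_or_nonempty with h0 | ⟨n0, hn0⟩
    · rw [h0, card_empty, Nat.cast_zero]
      positivity
    · have h1 := card_value g hg0 (g.eval n0) Y
      rw [Finset.filter_true_of_mem fun n hn => hone n hn n0 hn0] at h1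
      have h2 : (Y.card : ℝ) ≤ g.natDegree := by exact_mod_cast h1
      exact h2.trans (hgV.trans hVfin)
  push Not at hone
  obtain ⟨n₁, hn₁, n₂, hn₂, hgn⟩ := hone
  have hlogn : Real.log (g.eval n₁ - g.eval n₂).natAbs ≤ (T : ℝ) + 1 := by
    have h1 : (g.eval n₁ - g.eval n₂).natAbs ≤ 2 ^ (T + 1) := by
      have h2 := hval n₁ hn₁
      have h3 := hval n₂ hn₂
      have h4 := Int.natAbs_sub_le (g.eval n₁) (g.eval n₂)
      rw [pow_succ]
      omega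
    have h2 : (0 : ℝ) < ((g.eval n₁ - g.eval n₂).natAbs : ℝ) := by
      exact_mod_cast Int.natAbs_pos.2 (sub_ne_zero.2 hgn)
    have h3 : ((g.eval n₁ - g.eval n₂).natAbs : ℝ) ≤ (2 : ℝ) ^ (T + 1) := by exact_mod_cast h1
    refine (Real.log_le_log h2 h3).trans ?_
    rw [Real.log_pow]
    push_cast
    have := Real.log_two_lt_d9
    nlinarith
  have hlog2 : ∀ t : ℤ, t ≠ 0 → t.natAbs ≤ 2 ^ T → Real.log t.natAbs ≤ T := by
    intro t ht h
    have h2 : (0 : ℝ) < (t.natAbs : ℝ) := by exact_mod_cast Int.natAbs_pos.2 ht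
    have h3 : (t.natAbs : ℝ) ≤ (2 : ℝ) ^ T := by exact_mod_cast h
    refine (Real.log_le_log h2 h3).trans ?_
    rw [Real.log_pow]
    have := Real.log_two_lt_d9
    nlinarith
  -- the parts of `Y`
  obtain ⟨J, hJ⟩ : ∃ J : Finset (SDat k), J = (Fintype.piFinset fun _ => units S T) ×ˢ
      ((Fintype.piFinset fun _ => units S T) ×ˢ ((Fintype.piFinset fun _ => units S T) ×ˢ
        ((Fintype.piFinset fun _ => range (T + 8)) ×ˢ
          ((Fintype.piFinset fun _ => range (T + 8)) ×ˢ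
            (Fintype.piFinset fun _ => range R))))) := ⟨_, rfl⟩
  have hJc : J.card = (units S T).card ^ k * ((units S T).card ^ k * ((units S T).card ^ k *
      ((T + 8) ^ k * ((T + 8) ^ k * R ^ k)))) := by
    rw [hJ]
    simp only [card_product, Fintype.card_piFinset, card_range, prod_const, card_univ,
      Fintype.card_fin]
  obtain ⟨F, hF⟩ : ∃ F : SDat k → Finset ℤ, F = fun j : SDat k => Y.filter fun n : ℤ =>
      (∀ i, 0 < j.2.2.2.1 i) ∧ (∀ i, 2 ≤ j.2.2.2.2.1 i) ∧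
        (∀ i, (j.2.2.2.2.2 i).Prime) ∧ (∀ i, (j.1 i * (x i : ℤ) ^ j.2.2.2.1 i).natAbs ≤ 2 ^ T) ∧
        ∀ i, ∃ w : ℤ, j.2.1 i * (g.eval n) ^ j.2.2.2.2.1 i + j.1 i * (x i : ℤ) ^ j.2.2.2.1 i =
          j.2.2.1 i * w ^ j.2.2.2.2.2 i :=
    ⟨_, rfl⟩
  obtain ⟨G, hG⟩ : ∃ G : Fin k → Finset ℤ, G = fun i => Y.filter fun n : ℤ =>
    SPair S R (Real.exp z) (x i : ℤ) (g.eval n) := ⟨_, rfl⟩
  have hsub : Y ⊆ (univ.biUnion G) ∪ (J.biUnion F) := by
    intro n hn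
    obtain ⟨hn1, hn3⟩ := hY n hn
    rw [mem_union, mem_biUnion, mem_biUnion]
    by_cases h2 : ∃ i, SPair S R (Real.exp z) (x i : ℤ) (g.eval n)
    · left
      obtain ⟨i, hi⟩ := h2
      exact ⟨i, mem_univ _, by rw [hG]; exact mem_filter.2 ⟨hn, hi⟩⟩
    · right
      push Not at h2
      have h3 := fun i => (spart_cases (R := R) hW (hn3 i)).resolve_left (h2 i)
      choose a b c' l m r ha hb hc' hl hm hl0 hm2 hax hr hrR w hw using h3
      refine ⟨(a, b, c', l, m, r), ?_, ?_⟩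
      · rw [hJ]
        simp only [mem_product, Fintype.mem_piFinset, mem_range]
        exact ⟨ha, hb, hc', fun i => by have := hl i; omega, fun i => by have := hm i; omega, hrR⟩
      · rw [hF]
        exact mem_filter.2 ⟨hn, hl0, hm2, hr, hax, fun i => ⟨w i, hw i⟩⟩
  have hGc : ∀ i, ((G i).card : ℝ) ≤ V := by
    intro i
    have hxi : (C (x i : ℤ) : ℤ[X]).natDegree = 0 := natDegree_C _
    refine (hbig N hNN1 S hS (C (x i : ℤ)) g (Or.inr hg0) ?_ ?_ (G i) ?_).trans ?_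
    · rw [hxi, Nat.cast_zero]
      positivity
    · exact hgd.trans hzz1
    · intro n hn
      rw [hG, mem_filter] at hn
      refine ⟨(hY n hn.1).1, ?_⟩
      rw [eval_C]
      obtain ⟨a, b, c', z', l, m, r, hI, hp, t1, t2, t3⟩ := hn.2
      exact ⟨a, b, c', z', l, m, r, hI, hp, t1.trans hzc1, t2.trans hzc1, t3.trans hzc1⟩
    · rw [hV]
      exact Real.rpow_le_rpow_of_exponent_le hN1' (by linarith)
  obtain ⟨g', hg'⟩ : ∃ g' : ℤ[X], g' = g.comp (X - C (N : ℤ)) := ⟨_, rfl⟩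
  have hg'd : g'.natDegree = g.natDegree := by
    rw [hg', natDegree_comp, natDegree_X_sub_C, mul_one]
  have hg'e : ∀ n : ℤ, g'.eval (n + N) = g.eval n := by
    intro n
    rw [hg', eval_comp, eval_sub, eval_X, eval_C, add_sub_cancel_right]
  have hFc : ∀ j ∈ J, ((F j).card : ℝ) ≤
      2 ^ (1 / (2 : ℝ) ^ k + δ / 4) * (N : ℝ) ^ (1 / (2 : ℝ) ^ k + δ / 4) := by
    intro j hj
    rcases (F j).eq_empty_or_nonempty with h0 | ⟨y0, hy0⟩
    · rw [h0, card_empty, Nat.cast_zero]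
      positivity
    · rw [hF, mem_filter] at hy0
      obtain ⟨-, hl0, hm2, hr, hax, -⟩ := hy0
      rw [hJ] at hj
      simp only [mem_product, Fintype.mem_piFinset, mem_range] at hj
      obtain ⟨hj1, hj2, hj3, hj4, hj5, hj6⟩ := hj
      have hle : ∀ b : ℕ, b < T + 8 → (b : ℝ) ≤ ((2 * N : ℕ) : ℝ) ^ ε := by
        intro b hb
        have h1 : (b : ℝ) ≤ (T : ℝ) + 8 := by exact_mod_cast hb.le
        exact (h1.trans hTN).trans hN2ε
      have hTε : (T : ℝ) + 1 ≤ ((2 * N : ℕ) : ℝ) ^ ε := le_trans (by linarith) (hTN.trans hN2ε)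
      have hFY : ∀ n ∈ F j, |n| ≤ (N : ℤ) := fun n hn => by
        rw [hF, mem_filter] at hn
        exact (hY n hn.1).1
      have hinj : Set.InjOn (fun n : ℤ => (n + N).toNat) (F j) := by
        intro a ha b hb hab
        have h1 := abs_le.1 (hFY a ha)
        have h2 := abs_le.1 (hFY b hb)
        simp only at hab
        omega
      have h2N : (((2 * N : ℕ) : ℝ)) ^ (1 / (2 : ℝ) ^ k + δ / 4) =
          2 ^ (1 / (2 : ℝ) ^ k + δ / 4) * (N : ℝ) ^ (1 / (2 : ℝ) ^ k + δ / 4) := by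
        push_cast
        exact Real.mul_rpow (by norm_num) hN0.le
      have hx0 : ∀ i, (x i : ℤ) ≠ 0 := fun i => by exact_mod_cast (hx i).ne'
      rw [← h2N, ← Finset.card_image_of_injOn hinj]
      refine hfix (2 * N) hNN2 g' ?_ (n₁ + N) (n₂ + N) ?_ ?_
        (fun i => j.1 i * (x i : ℤ) ^ j.2.2.2.1 i) j.2.1 j.2.2.1
        (fun i => mul_ne_zero (units_spec (hj1 i)).1.1 (pow_ne_zero _ (hx0 i)))
        (fun i => (units_spec (hj2 i)).1.1) (fun i => (units_spec (hj3 i)).1.1)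
        (fun i => (hlog2 _ (mul_ne_zero (units_spec (hj1 i)).1.1 (pow_ne_zero _ (hx0 i)))
          (hax i)).trans (le_trans (by linarith) hTε))
        (fun i => (hlog2 _ (units_spec (hj2 i)).1.1 (units_spec (hj2 i)).2).trans
          (le_trans (by linarith) hTε))
        (fun i => (hlog2 _ (units_spec (hj3 i)).1.1 (units_spec (hj3 i)).2).trans
          (le_trans (by linarith) hTε))
        j.2.2.2.2.1 j.2.2.2.2.2 (fun i => ⟨hm2 i, hle _ (hj5 i)⟩) (fun i => ⟨hr i, hj6 i⟩)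
        ?_ _ ?_ ?_
      · rw [hg'd]
        refine hgd.trans (le_trans ?_ hTε)
        linarith
      · rw [hg'e, hg'e]
        exact hgn
      · rw [hg'e, hg'e]
        exact hlogn.trans hTε
      · intro i i' hii heq
        have hm0 : ∀ i, 0 < j.2.2.2.2.1 i := fun i => by have := hm2 i; omega
        have h1 : ((j.1 i * (x i : ℤ) ^ j.2.2.2.1 i) ^ j.2.2.2.2.1 i' *
            (j.2.1 i') ^ j.2.2.2.2.1 i).natAbs =
            ((j.1 i' * (x i' : ℤ) ^ j.2.2.2.1 i') ^ j.2.2.2.2.1 i *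
              (j.2.1 i) ^ j.2.2.2.2.1 i').natAbs := by
          rw [Int.natAbs_mul, Int.natAbs_mul, Int.natAbs_pow, Int.natAbs_pow, Int.natAbs_pow,
            Int.natAbs_pow]
          exact heq
        have hsu1 : SU S ((j.1 i) ^ j.2.2.2.2.1 i' * (j.2.1 i') ^ j.2.2.2.2.1 i) :=
          ((units_spec (hj1 i)).1.pow _).mul ((units_spec (hj2 i')).1.pow _)
        have hsu2 : SU S ((j.1 i') ^ j.2.2.2.2.1 i * (j.2.1 i) ^ j.2.2.2.2.1 i') :=
          ((units_spec (hj1 i')).1.pow _).mul ((units_spec (hj2 i)).1.pow _)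
        have hneg : ∀ e : ℤ, SU S e → SU S (-e) := fun e he =>
          ⟨neg_ne_zero.2 he.1, fun p hp h => he.2 p hp ((dvd_neg).1 h)⟩
        rcases Int.natAbs_eq_natAbs_iff.1 h1 with h2 | h2
        · refine hind i i' hii _ _ hsu1 hsu2 (j.2.2.2.1 i * j.2.2.2.2.1 i')
            (j.2.2.2.1 i' * j.2.2.2.2.1 i) (Nat.mul_pos (hl0 i) (hm0 i'))
            (Nat.mul_pos (hl0 i') (hm0 i)) ?_
          rw [pow_mul, pow_mul]
          linear_combination h2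
        · refine hind i i' hii _ _ hsu1 (hneg _ hsu2) (j.2.2.2.1 i * j.2.2.2.2.1 i')
            (j.2.2.2.1 i' * j.2.2.2.2.1 i) (Nat.mul_pos (hl0 i) (hm0 i'))
            (Nat.mul_pos (hl0 i') (hm0 i)) ?_
          rw [pow_mul, pow_mul]
          linear_combination h2
      · intro y hy y' hy'
        obtain ⟨n, hn, rfl⟩ := mem_image.1 hy
        obtain ⟨n', hn', rfl⟩ := mem_image.1 hy'
        have h1 := abs_le.1 (hFY n hn)
        have h2 := abs_le.1 (hFY n' hn')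
        have h3 : (n + N).toNat ≤ (n' + N).toNat + 2 * N := by omega
        exact_mod_cast h3
      · intro y hy
        obtain ⟨n, hn, rfl⟩ := mem_image.1 hy
        have h1 := abs_le.1 (hFY n hn)
        have h2 : ((n + N).toNat : ℤ) = n + N := by omega
        rw [h2, hg'e]
        rw [hF, mem_filter] at hn
        exact hn.2.2.2.2.2
  -- conclusion
  obtain ⟨T2, hT2⟩ : ∃ T2 : ℝ, T2 = 2 ^ (1 / (2 : ℝ) ^ k + δ / 4) := ⟨_, rfl⟩
  have hT20 : 0 < T2 := by rw [hT2]; positivity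
  rw [← hT2] at hFc g3
  have hcard : (Y.card : ℝ) ≤ k * V + J.card *
      (T2 * (N : ℝ) ^ (1 / (2 : ℝ) ^ k + δ / 4)) := by
    have h1 := (Finset.card_le_card hsub).trans (Finset.card_union_le _ _)
    have h2 : ((univ.biUnion G).card : ℝ) ≤ k * V := by
      calc ((univ.biUnion G).card : ℝ) ≤ ∑ i, ((G i).card : ℝ) := by
            exact_mod_cast Finset.card_biUnion_le
        _ ≤ ∑ _i : Fin k, V := Finset.sum_le_sum fun i _ => hGc i
        _ = k * V := by rw [Finset.sum_const, Finset.card_univ, Fintype.card_fin, nsmul_eq_mul]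
    have h3 : ((J.biUnion F).card : ℝ) ≤
        J.card * (T2 * (N : ℝ) ^ (1 / (2 : ℝ) ^ k + δ / 4)) := by
      calc ((J.biUnion F).card : ℝ) ≤ ∑ j ∈ J, ((F j).card : ℝ) := by
            exact_mod_cast Finset.card_biUnion_le
        _ ≤ ∑ _j ∈ J, T2 * (N : ℝ) ^ (1 / (2 : ℝ) ^ k + δ / 4) := Finset.sum_le_sum hFc
        _ = _ := by rw [Finset.sum_const, nsmul_eq_mul]
    have h4 : (Y.card : ℝ) ≤ (univ.biUnion G).card + (J.biUnion F).card := by exact_mod_cast h1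
    linarith
  have hJr : (J.card : ℝ) * (T2 * (N : ℝ) ^ (1 / (2 : ℝ) ^ k + δ / 4)) ≤
      R ^ k * T2 * V := by
    rw [hJc]
    push_cast
    obtain ⟨u, hu⟩ : ∃ u : ℝ, u = (N : ℝ) ^ ε2 := ⟨_, rfl⟩
    rw [← hu] at hTN hUN
    have hu0 : 0 ≤ u := by rw [hu]; positivity
    have h2 : ((units S T).card : ℝ) ^ k * (((units S T).card : ℝ) ^ k *
        (((units S T).card : ℝ) ^ k * (((T : ℝ) + 8) ^ k * ((T : ℝ) + 8) ^ k))) ≤
        (N : ℝ) ^ (δ / 8) := by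
      calc _ ≤ u ^ k * (u ^ k * (u ^ k * (u ^ k * u ^ k))) := by gcongr
        _ = u ^ (5 * k) := by ring
        _ = (N : ℝ) ^ (5 * k * ε2) := by
          rw [hu, ← Real.rpow_natCast, ← Real.rpow_mul hN0.le]
          congr 1
          push_cast
          ring
        _ ≤ _ := Real.rpow_le_rpow_of_exponent_le hN1' hε2k
    have h3 : (N : ℝ) ^ (δ / 8) * (N : ℝ) ^ (1 / (2 : ℝ) ^ k + δ / 4) = V := by
      rw [← Real.rpow_add hN0, hV]
      ring_nf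
    calc _ = (((units S T).card : ℝ) ^ k * (((units S T).card : ℝ) ^ k *
          (((units S T).card : ℝ) ^ k * (((T : ℝ) + 8) ^ k * ((T : ℝ) + 8) ^ k)))) * (R ^ k * T2) *
          (N : ℝ) ^ (1 / (2 : ℝ) ^ k + δ / 4) := by ring
      _ ≤ (N : ℝ) ^ (δ / 8) * (R ^ k * T2) * (N : ℝ) ^ (1 / (2 : ℝ) ^ k + δ / 4) := by gcongr
      _ = R ^ k * T2 * ((N : ℝ) ^ (δ / 8) * (N : ℝ) ^ (1 / (2 : ℝ) ^ k + δ / 4)) := by ring
      _ = R ^ k * T2 * V := by rw [h3]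
  calc (Y.card : ℝ) ≤ k * V + J.card *
        (T2 * (N : ℝ) ^ (1 / (2 : ℝ) ^ k + δ / 4)) := hcard
    _ ≤ k * V + R ^ k * T2 * V := by linarith
    _ ≤ (1 + (k : ℝ) + R ^ k * T2) * V := by nlinarith
    _ ≤ (N : ℝ) ^ (5 * δ / 8) * V := mul_le_mul_of_nonneg_right g3 hV0
    _ = (N : ℝ) ^ (1 / (2 : ℝ) ^ k + δ) := by
        rw [hV, ← Real.rpow_add hN0]
        ring_nf

open Classical in
/-- **values of a polynomial with many partners in an arbitrary set** -/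
theorem smany (k s : ℕ) (hk : 1 ≤ k) (δ : ℝ) (hδ : 0 < δ) : ∃ c : ℝ, 0 < c ∧ ∃ N₀ : ℕ,
    ∀ N : ℕ, N₀ ≤ N → ∀ S : Finset ℕ, S.card ≤ s →
    ∀ g : ℤ[X], 0 < g.natDegree → (g.natDegree : ℝ) ≤ (N : ℝ) ^ c → ∀ A : Finset ℕ,
    (∀ x ∈ A, 0 < x) →
    (∀ x ∈ A, ∀ y ∈ A, x ≠ y → ∀ e f : ℤ, SU S e → SU S f → ∀ u v : ℕ, 0 < u → 0 < v →
      e * (x : ℤ) ^ u ≠ f * (y : ℤ) ^ v) → ∀ Y : Finset ℤ,
    (∀ n ∈ Y, |n| ≤ N ∧ (k : ℝ) - 1 + A.card * (N : ℝ) ^ (-c) <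
      ((A.filter fun x : ℕ => SPart S (Real.exp ((N : ℝ) ^ c)) (x : ℤ) (g.eval n)).card : ℝ)) →
      (Y.card : ℝ) ≤ (N : ℝ) ^ (1 / (2 : ℝ) ^ k + δ) := by
  obtain ⟨c1, hc1, N₁, h⟩ := scommon k s hk (δ / 2) (by positivity)
  obtain ⟨c, hc⟩ : ∃ c : ℝ, c = min c1 (δ / (2 * (k + 1))) := ⟨_, rfl⟩
  have hc0 : 0 < c := by rw [hc]; exact lt_min hc1 (by positivity)
  have hcc1 : c ≤ c1 := by rw [hc]; exact min_le_left _ _
  have hk0 : (0 : ℝ) ≤ k := Nat.cast_nonneg k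
  have hck : c * k ≤ δ / 2 := by
    have h1 : c ≤ δ / (2 * (k + 1)) := by rw [hc]; exact min_le_right _ _
    rw [le_div_iff₀ (by positivity)] at h1
    nlinarith
  refine ⟨c, hc0, max N₁ 1, ?_⟩
  intro N hN S hS g hg0 hgd A hA hind Y hY
  have hN1 : 1 ≤ N := (le_max_right _ _).trans hN
  have hN0 : (0 : ℝ) < N := by exact_mod_cast hN1
  have hN1' : (1 : ℝ) ≤ N := by exact_mod_cast hN1
  have hcc : (N : ℝ) ^ c ≤ (N : ℝ) ^ c1 := Real.rpow_le_rpow_of_exponent_le hN1' hcc1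
  have hee : Real.exp ((N : ℝ) ^ c) ≤ Real.exp ((N : ℝ) ^ c1) := Real.exp_le_exp.2 hcc
  have hdc := double_count k A Y (fun x n => SPart S (Real.exp ((N : ℝ) ^ c)) (x : ℤ) (g.eval n))
    ((N : ℝ) ^ (1 / (2 : ℝ) ^ k + δ / 2)) ((N : ℝ) ^ (-c)) (by positivity) (by positivity) ?_
    (fun n hn => (hY n hn).2)
  · have h1 : ((N : ℝ) ^ (-c)) ^ k = (N : ℝ) ^ (-(c * k)) := by
      rw [← Real.rpow_natCast, ← Real.rpow_mul hN0.le]
      ring_nf
    rw [h1, Real.rpow_neg hN0.le, ← div_eq_mul_inv, div_le_iff₀ (by positivity),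
      ← Real.rpow_add hN0] at hdc
    refine hdc.trans (Real.rpow_le_rpow_of_exponent_le hN1' (by linarith))
  · intro S' hS' hSc
    have hx : ∀ i : Fin k, S'.orderEmbOfFin hSc i ∈ S' := fun i => Finset.orderEmbOfFin_mem S' hSc i
    refine h N ((le_max_left _ _).trans hN) S hS g hg0 (hgd.trans hcc)
      (fun i => S'.orderEmbOfFin hSc i) (fun i => ?_) (fun i j hij => ?_) _ (fun n hn => ?_)
    · exact hA _ (hS' (hx i))
    · exact hind _ (hS' (hx i)) _ (hS' (hx j)) fun he => hij ((S'.orderEmbOfFin hSc).injective he)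
    · rw [mem_filter] at hn
      refine ⟨(hY n hn.1).1, fun i => ?_⟩
      obtain ⟨a, b, c', z', l, m, r, hI, t1, t2, t3⟩ := hn.2 _ (hx i)
      exact ⟨a, b, c', z', l, m, r, hI, t1.trans hee, t2.trans hee, t3.trans hee⟩

end Pool.Agent.Helper82.SU
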