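import Pool.Agent.Helper82.SU.Perm

/-!
# Descent for equal exponents
-/

set_option autoImplicit false

namespace Pool.Agent.Helper82.SU

open Finset

/-- the number with a given factorization -/
noncomputable def num (f : ℕ →₀ ℕ) : ℕ := f.prod (· ^ ·)

lemma num_fac {f : ℕ →₀ ℕ} (hf : ∀ p ∈ f.support, Nat.Prime p) : (num f).factorization = f :=
  Nat.prod_pow_factorization_eq_self hf

lemma num_ne {f : ℕ →₀ ℕ} (hf : ∀ p ∈ f.support, Nat.Prime p) : num f ≠ 0 := by
  unfold num Finsupp.prod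
  exact Finset.prod_ne_zero_iff.2 fun p hp => pow_ne_zero _ (hf p hp).ne_zero

/-- the first factor of a unit multiple of a power, if the gcd of the factors divides `P` -/
theorem split_power (S : Finset ℕ) {n m z P r C : ℕ} (hn : n ≠ 0) (hm : m ≠ 0) (hz : z ≠ 0)
    (hP : P ≠ 0) (hC : C ≠ 0) (hCS : ∀ l : ℕ, l.Prime → l ∣ C → l ∈ S) (hg : Nat.gcd n m ∣ P)
    (he : n * m = C * z ^ r) : ∃ u d₁ d₂ w : ℕ, u ≠ 0 ∧ (∀ l : ℕ, l.Prime → l ∣ u → l ∈ S) ∧
      u ∣ n ∧ d₁ ∣ P ∧ d₂ ∣ P ∧ d₂ * n = u * d₁ * w ^ r := by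
  classical
  obtain ⟨φu, hφu⟩ : ∃ φ : ℕ →₀ ℕ, φ = n.factorization.filter (· ∈ S) := ⟨_, rfl⟩
  obtain ⟨φ1, hφ1⟩ : ∃ φ : ℕ →₀ ℕ, φ = n.factorization.filter
    (fun l => l ∉ S ∧ n.factorization l ≤ P.factorization l) := ⟨_, rfl⟩
  obtain ⟨φ2, hφ2⟩ : ∃ φ : ℕ →₀ ℕ, φ = m.factorization.filter
    (fun l => l ∉ S ∧ P.factorization l < n.factorization l) := ⟨_, rfl⟩
  obtain ⟨φw, hφw⟩ : ∃ φ : ℕ →₀ ℕ, φ = z.factorization.filter
    (fun l => l ∉ S ∧ P.factorization l < n.factorization l) := ⟨_, rfl⟩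
  have hsupp : ∀ {k : ℕ} {q : ℕ → Prop} [DecidablePred q] {p : ℕ},
      p ∈ (k.factorization.filter q).support → p.Prime := by
    intro k q _ p hp
    rw [Finsupp.support_filter, mem_filter, Nat.support_factorization] at hp
    exact Nat.prime_of_mem_primeFactors hp.1
  have pu : ∀ p ∈ φu.support, Nat.Prime p := fun p hp => hsupp (by rw [hφu] at hp; exact hp)
  have p1 : ∀ p ∈ φ1.support, Nat.Prime p := fun p hp => hsupp (by rw [hφ1] at hp; exact hp)
  have p2 : ∀ p ∈ φ2.support, Nat.Prime p := fun p hp => hsupp (by rw [hφ2] at hp; exact hp)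
  have pw : ∀ p ∈ φw.support, Nat.Prime p := fun p hp => hsupp (by rw [hφw] at hp; exact hp)
  have hmin : ∀ l, min (n.factorization l) (m.factorization l) ≤ P.factorization l := by
    intro l
    have h1 := (Nat.factorization_le_iff_dvd (Nat.gcd_pos_of_pos_left _ (Nat.pos_of_ne_zero hn)).ne'
      hP).2 hg
    rw [Nat.factorization_gcd hn hm] at h1
    exact h1 l
  have hsum : ∀ l, l ∉ S → n.factorization l + m.factorization l = r * z.factorization l := by
    intro l hl
    have h1 := congrArg (fun k => k.factorization l) he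
    simp only [Nat.factorization_mul hn hm, Nat.factorization_mul hC (pow_ne_zero r hz),
      Nat.factorization_pow, Finsupp.add_apply, Finsupp.smul_apply, smul_eq_mul] at h1
    have h2 : C.factorization l = 0 := by
      by_cases hlp : l.Prime
      · exact Nat.factorization_eq_zero_of_not_dvd fun h => hl (hCS l hlp h)
      · exact Nat.factorization_eq_zero_of_not_prime _ hlp
    rw [h2, zero_add] at h1
    exact h1
  refine ⟨num φu, num φ1, num φ2, num φw, num_ne pu, ?_, ?_, ?_, ?_, ?_⟩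
  · intro l hl hd
    by_contra hlS
    have h1 : (num φu).factorization l = 0 := by
      rw [num_fac pu, hφu, Finsupp.filter_apply, if_neg hlS]
    have h2 := (hl.dvd_iff_one_le_factorization (num_ne pu)).1 hd
    omega
  · rw [← Nat.factorization_le_iff_dvd (num_ne pu) hn, num_fac pu]
    intro l
    rw [hφu, Finsupp.filter_apply]
    split_ifs <;> omega
  · rw [← Nat.factorization_le_iff_dvd (num_ne p1) hP, num_fac p1]
    intro l
    rw [hφ1, Finsupp.filter_apply]
    split_ifs with h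
    · exact h.2
    · exact Nat.zero_le _
  · rw [← Nat.factorization_le_iff_dvd (num_ne p2) hP, num_fac p2]
    intro l
    rw [hφ2, Finsupp.filter_apply]
    have := hmin l
    split_ifs with h
    · omega
    · exact Nat.zero_le _
  · refine Nat.eq_of_factorization_eq (mul_ne_zero (num_ne p2) hn)
      (mul_ne_zero (mul_ne_zero (num_ne pu) (num_ne p1)) (pow_ne_zero _ (num_ne pw))) fun l => ?_
    rw [Nat.factorization_mul (num_ne p2) hn,
      Nat.factorization_mul (mul_ne_zero (num_ne pu) (num_ne p1)) (pow_ne_zero _ (num_ne pw)),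
      Nat.factorization_mul (num_ne pu) (num_ne p1), Nat.factorization_pow, num_fac pu, num_fac p1,
      num_fac p2, num_fac pw, hφu, hφ1, hφ2, hφw]
    simp only [Finsupp.add_apply, Finsupp.smul_apply, Finsupp.filter_apply, smul_eq_mul]
    by_cases hl : l ∈ S
    · simp [hl]
    · have h1 := hsum l hl
      by_cases h2 : P.factorization l < n.factorization l
      · have h3 : ¬ n.factorization l ≤ P.factorization l := by omega
        simp only [hl, not_false_eq_true, h2, h3, and_self, and_false, if_true, if_false, true_and]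
        omega
      · have h3 : n.factorization l ≤ P.factorization l := by omega
        simp only [hl, not_false_eq_true, h2, h3, and_self, and_false, if_true, if_false, true_and]
        omega

/-- the difference of the bases is almost a power -/
theorem descent {S : Finset ℕ} {p r : ℕ} (hp : 0 < p) {x y c z : ℤ} (hxy : IsCoprime x y)
    (hc : SU S c) (hz : z ≠ 0) (h : x ^ p - y ^ p = c * z ^ r) :
    x - y ≠ 0 ∧ ∃ u d₁ d₂ w : ℕ, u ≠ 0 ∧ (∀ l : ℕ, l.Prime → l ∣ u → l ∈ S) ∧
      u ∣ (x - y).natAbs ∧ d₁ ∣ p ∧ d₂ ∣ p ∧ d₂ * (x - y).natAbs = u * d₁ * w ^ r := by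
  have hne : c * z ^ r ≠ 0 := mul_ne_zero hc.1 (pow_ne_zero _ hz)
  have hd : x - y ≠ 0 := by
    intro h0
    apply hne
    rw [← h, sub_eq_zero.1 h0, sub_self]
  refine ⟨hd, ?_⟩
  obtain ⟨Ψ, hΨ⟩ : ∃ Ψ : ℤ, Ψ = ∑ i ∈ range p, x ^ i * y ^ (p - 1 - i) := ⟨_, rfl⟩
  have hprod : (x - y) * Ψ = c * z ^ r := by
    rw [hΨ, ← h, (Commute.all x y).mul_geom_sum₂]
  have hΨ0 : Ψ ≠ 0 := fun h0 => hne (by rw [← hprod, h0, mul_zero])
  have hgcd : Nat.gcd (x - y).natAbs Ψ.natAbs ∣ p := by
    have h1 : (x - y) ∣ Ψ - p * y ^ (p - 1) := by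
      have h2 : Ψ - p * y ^ (p - 1) = ∑ i ∈ range p, (x ^ i - y ^ i) * y ^ (p - 1 - i) := by
        rw [hΨ]
        have h3 : ∀ i ∈ range p, (x ^ i - y ^ i) * y ^ (p - 1 - i) =
            x ^ i * y ^ (p - 1 - i) - y ^ (p - 1) := by
          intro i hi
          rw [sub_mul, ← pow_add]
          congr 2
          have := mem_range.1 hi
          omega
        rw [sum_congr rfl h3, sum_sub_distrib, sum_const, card_range, nsmul_eq_mul]
      rw [h2]
      exact dvd_sum fun i _ => (sub_dvd_pow_sub_pow x y i).mul_right _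
    have h4 : IsCoprime (x - y) y := by
      have := hxy
      rw [show x - y = x + y * (-1) by ring]
      exact IsCoprime.add_mul_left_left this _
    have h5 : IsCoprime (x - y) (y ^ (p - 1)) := h4.pow_right
    obtain ⟨g, hg⟩ : ∃ g : ℤ, g = ((Nat.gcd (x - y).natAbs Ψ.natAbs : ℕ) : ℤ) := ⟨_, rfl⟩
    have h6 : g ∣ x - y := by
      rw [hg]; exact Int.natCast_dvd.2 (Nat.gcd_dvd_left _ _)
    have h7 : g ∣ Ψ := by
      rw [hg]; exact Int.natCast_dvd.2 (Nat.gcd_dvd_right _ _)
    have h8 : g ∣ p * y ^ (p - 1) := by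
      have := dvd_sub h7 (h6.trans h1)
      rwa [sub_sub_cancel] at this
    have h9 : g ∣ (p : ℤ) := (h5.of_isCoprime_of_dvd_left h6).dvd_of_dvd_mul_right h8
    rw [hg] at h9
    exact_mod_cast h9
  have he : (x - y).natAbs * Ψ.natAbs = c.natAbs * z.natAbs ^ r := by
    rw [← Int.natAbs_mul, hprod, Int.natAbs_mul, Int.natAbs_pow]
  exact split_power S (Int.natAbs_ne_zero.2 hd) (Int.natAbs_ne_zero.2 hΨ0) (Int.natAbs_ne_zero.2 hz)
    hp.ne' (Int.natAbs_ne_zero.2 hc.1) (fun l hl hd => hc.2 l hl (Int.natCast_dvd.2 hd)) hgcd he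

end Pool.Agent.Helper82.SU
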