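import Pool.Agent.Helper82.SU.Descent
import Pool.Agent.Helper82.SU.LineMain
import Pool.Agent.Helper82.FC.EqualMain

/-!
# Two equal exponents, coefficients composed of few primes
-/

set_option autoImplicit false

namespace Pool.Agent.Helper82.SU

open Finset Polynomial Pool.Agent.N741.PB
open Pool.Agent.Helper82.FC (few_powers')

/-- `x` and `y` are two bases with the same exponent, `x ^ p - (σ y) ^ p = c z ^ r` -/
def Eq2 (S : Finset ℕ) (R : ℕ) (W : ℝ) (σ : ℤ) (x y : ℕ) : Prop := ∃ (c z : ℤ) (p r : ℕ),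
  (σ = 1 ∨ σ = -1 ∧ Odd p) ∧ Sol S 1 (-1) c x (σ * y) z p p r ∧
    (∀ q : ℕ, q.Prime → q ∣ r → R ≤ q) ∧ (x : ℝ) ^ p ≤ W ∧ (y : ℝ) ^ p ≤ W ∧
    |((c * z ^ r : ℤ) : ℝ)| ≤ W

theorem nat_pow_le {x p T : ℕ} {W : ℝ} (h : (x : ℝ) ^ p ≤ W) (hW : W ≤ 2 ^ T) : x ^ p ≤ 2 ^ T := by
  have h1 := h.trans hW
  exact_mod_cast h1

theorem nat_le_of_pow {x p T : ℕ} (hx : 2 ≤ x) (h : x ^ p ≤ 2 ^ T) : p ≤ T := by
  by_contra hlt
  have h1 : 2 ^ T < 2 ^ p := Nat.pow_lt_pow_right (by norm_num) (by omega)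
  have h2 : 2 ^ p ≤ x ^ p := Nat.pow_le_pow_left hx _
  omega

/-- the exponents may be assumed small -/
theorem Eq2.red {S : Finset ℕ} {R : ℕ} {W : ℝ} {σ : ℤ} {x y : ℕ} (h : Eq2 S R W σ x y) {T P : ℕ}
    (hW : W ≤ 2 ^ T) (hP : P.Prime) (hP7 : 7 ≤ P) (hPR : R ≤ P) :
    0 < x ∧ 0 < y ∧ x ≤ 2 ^ T ∧ y ≤ 2 ^ T ∧ ∃ (c z : ℤ) (p r : ℕ),
      Sol S 1 (-1) c x (σ * y) z p p r ∧ (∀ q : ℕ, q.Prime → q ∣ r → R ≤ q) ∧
        p ≤ T + 7 ∧ r ≤ T + P := by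
  obtain ⟨c, z, p, r, hσ, hs, hr, h1, h2, h3⟩ := h
  have hσ' : σ = 1 ∨ σ = -1 := by
    rcases hσ with h | h
    · exact Or.inl h
    · exact Or.inr h.1
  have hx : 0 < x := by
    have := hs.x0
    rcases Nat.eq_zero_or_pos x with h0 | h0
    · rw [h0] at this; simp at this
    · exact h0
  have hy : 0 < y := by
    have := hs.y0
    rcases Nat.eq_zero_or_pos y with h0 | h0
    · rw [h0] at this; simp at this
    · exact h0
  have e1 := nat_pow_le h1 hW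
  have e2 := nat_pow_le h2 hW
  have e3 := natAbs_le_of_abs h3 hW
  refine ⟨hx, hy, (Nat.le_self_pow hs.l0.ne' _).trans e1, (Nat.le_self_pow hs.l0.ne' _).trans e2, ?_⟩
  -- the exponent of the third base
  obtain ⟨z', r', s1, hr', hr2⟩ : ∃ (z' : ℤ) (r' : ℕ), Sol S 1 (-1) c x (σ * y) z' p p r' ∧
      (∀ q : ℕ, q.Prime → q ∣ r' → R ≤ q) ∧ r' ≤ T + P := by
    have hz := natAbs_le_mul hs.c1.1 e3
    rcases Nat.lt_or_ge z.natAbs 2 with g1 | g1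
    · have g2 : z.natAbs = 1 := by
        have := Int.natAbs_pos.mpr hs.z0
        omega
      have g4 : z = 1 ∨ z = -1 := Int.natAbs_eq_iff.mp g2
      have hodd : Odd P := hP.odd_of_ne_two (by omega)
      have g5 : z ^ r = 1 ∨ z ^ r = -1 := by
        rcases g4 with g4 | g4
        · rw [g4, one_pow]; exact Or.inl rfl
        · rw [g4]; exact neg_one_pow_eq_or ℤ r
      have g6 : (z ^ r) ^ P = z ^ r := by
        rcases g5 with g5 | g5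
        · rw [g5, one_pow]
        · rw [g5, hodd.neg_one_pow]
      refine ⟨z ^ r, P, ⟨hs.a1, hs.b1, hs.c1, hs.x0, hs.y0, pow_ne_zero _ hs.z0, hs.cop, hs.l0,
        hs.m0, hP.pos, ?_, ?_⟩, ?_, by omega⟩
      · exact third_exp hs.l0 hs.m0 hs.le (by omega)
      · rw [g6]; exact hs.eq
      · intro q hq hqP
        rw [(Nat.prime_dvd_prime_iff_eq hq hP).mp hqP]; exact hPR
    · exact ⟨z, r, hs, hr, (natAbs_two_pow g1 hz).trans (Nat.le_add_right _ _)⟩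
  -- the common exponent
  by_cases hxy : 2 ≤ x ∨ 2 ≤ y
  · refine ⟨c, z', p, r', s1, hr', ?_, hr2⟩
    have hpT : p ≤ T := by
      rcases hxy with hx2 | hy2
      · exact nat_le_of_pow hx2 e1
      · exact nat_le_of_pow hy2 e2
    omega
  · push Not at hxy
    have hx1 : x = 1 := by omega
    have hy1 : y = 1 := by omega
    subst hx1 hy1
    have hz0 : c * z' ^ r' ≠ 0 := mul_ne_zero s1.c1.1 (pow_ne_zero _ s1.z0)
    have hcz : c * z' ^ r' = 2 := by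
      rw [← s1.eq] at hz0 ⊢
      rcases hσ with h | ⟨h, hp⟩
      · rw [h] at hz0; simp at hz0
      · rw [h]
        simp only [Nat.cast_one, mul_one, one_pow]
        rw [hp.neg_one_pow]
        norm_num
    have hσ1 : σ = -1 := by
      rcases hσ with h | h
      · exfalso
        have := s1.eq
        rw [hcz, h] at this
        simp at this
      · exact h.1
    have h2r := s1.two_le.2.2
    refine ⟨c, z', 7, r', ⟨s1.a1, s1.b1, s1.c1, s1.x0, s1.y0, s1.z0, s1.cop, by norm_num,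
      by norm_num, s1.r0, by omega, ?_⟩, hr', by omega, hr2⟩
    rw [hcz, hσ1]
    norm_num

/-- the possible differences -/
theorem scount_lines {R L B : ℕ} (hR : 1 ≤ R) (hL : 1 ≤ L) (A : ℤ → ℤ) (U : Finset ℕ)
    (I : Finset (ℤ × ℤ))
    (hI : ∀ w ∈ I, (w.1 = 1 ∨ w.1 = -1) ∧ A w.1 < w.2 ∧ w.2 ≤ A w.1 + L ∧
      ∃ u ∈ U, ∃ d₁ d₂ r c : ℕ, 1 ≤ u ∧ 1 ≤ d₁ ∧ d₁ ≤ B ∧ 1 ≤ d₂ ∧ d₂ ≤ B ∧ R ≤ r ∧ r ≤ B ∧
        d₂ * w.2.natAbs = u * d₁ * c ^ r) :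
    (I.card : ℝ) ≤ 4 * U.card * ((B : ℝ) + 1) ^ 3 * (((B * L : ℕ) : ℝ) ^ (1 / (R : ℝ)) + 1) := by
  classical
  obtain ⟨J, hJ⟩ : ∃ J : Finset ((ℤ × ℤ) × (ℕ × ℕ × ℕ × ℕ)), J =
    (({1, -1} : Finset ℤ) ×ˢ ({1, -1} : Finset ℤ)) ×ˢ
    (U ×ˢ (range (B + 1) ×ˢ (range (B + 1) ×ˢ range (B + 1)))) := ⟨_, rfl⟩
  have hJc : J.card = 4 * (U.card * (B + 1) ^ 3) := by
    rw [hJ, card_product, card_product, card_product, card_product, card_product, card_range]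
    have h1 : ({1, -1} : Finset ℤ).card = 2 := by decide
    rw [h1]; ring
  obtain ⟨F, hF⟩ : ∃ F : (ℤ × ℤ) × (ℕ × ℕ × ℕ × ℕ) → Finset (ℤ × ℤ), F = fun j =>
    I.filter (fun w => w.1 = j.1.1 ∧
    1 ≤ j.2.1 ∧ 1 ≤ j.2.2.1 ∧ 1 ≤ j.2.2.2.1 ∧ j.2.2.2.1 ≤ B ∧ R ≤ j.2.2.2.2 ∧
      (j.1.2 = 1 ∨ j.1.2 = -1) ∧
      ∃ c : ℕ, j.2.2.2.1 * (j.1.2 * w.2) = ((j.2.1 * j.2.2.1 : ℕ) : ℤ) * (c : ℤ) ^ j.2.2.2.2) :=
    ⟨_, rfl⟩
  have hcov : I ⊆ J.biUnion F := by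
    intro w hw
    obtain ⟨h1, h2, h3, u, hu, d₁, d₂, r, c, hu1, hd1, hd1', hd2, hd2', hRr, hr, he⟩ := hI w hw
    rw [mem_biUnion]
    obtain ⟨τ, hτ, hτw⟩ : ∃ τ : ℤ, (τ = 1 ∨ τ = -1) ∧ τ * w.2 = (w.2.natAbs : ℤ) := by
      rcases le_total 0 w.2 with h | h
      · exact ⟨1, Or.inl rfl, by rw [one_mul, Int.natAbs_of_nonneg h]⟩
      · refine ⟨-1, Or.inr rfl, ?_⟩
        rw [Int.ofNat_natAbs_of_nonpos h]; ring
    refine ⟨((w.1, τ), (u, d₁, d₂, r)), ?_, ?_⟩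
    · simp only [hJ, mem_product, mem_insert, mem_singleton, mem_range]
      exact ⟨⟨h1, hτ⟩, hu, by omega, by omega, by omega⟩
    · rw [hF, mem_filter]
      refine ⟨hw, rfl, hu1, hd1, hd2, hd2', hRr, hτ, c, ?_⟩
      simp only
      rw [hτw]
      exact_mod_cast he
  have hFc : ∀ j ∈ J, ((F j).card : ℝ) ≤ ((B * L : ℕ) : ℝ) ^ (1 / (R : ℝ)) + 1 := by
    intro j _
    rcases (F j).eq_empty_or_nonempty with h0 | ⟨w₀, hw₀⟩
    · rw [h0, card_empty, Nat.cast_zero]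
      positivity
    have hw₀' := hw₀
    simp only [hF, mem_filter] at hw₀'
    obtain ⟨-, -, hu1, hd1, hd2, hd2', hRr, hτ, -⟩ := hw₀'
    obtain ⟨d, hd⟩ : ∃ d, d = j.2.2.2.1 := ⟨_, rfl⟩
    rw [← hd] at hd2 hd2'
    have hd0 : (0 : ℤ) < d := by exact_mod_cast hd2
    have hinj : Set.InjOn (fun w : ℤ × ℤ => (d : ℤ) * (j.1.2 * w.2)) (F j) := by
      intro v hv w hw hvw
      simp only at hvw
      rw [mem_coe] at hv hw
      simp only [hF, mem_filter] at hv hw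
      have h4 := mul_left_cancel₀ hd0.ne' hvw
      have h5 : v.2 = w.2 := by
        rcases hτ with h | h
        · rw [h] at h4; linarith
        · rw [h] at h4; linarith
      exact Prod.ext (hv.2.1.trans hw.2.1.symm) h5
    rw [← card_image_of_injOn hinj]
    have hd1Z : (1 : ℤ) ≤ d := by linarith
    obtain ⟨A', hA'⟩ : ∃ A' : ℤ, ∀ x : ℤ, A j.1.1 < x → x ≤ A j.1.1 + L →
        A' < d * (j.1.2 * x) ∧ d * (j.1.2 * x) ≤ A' + ((d * L : ℕ) : ℤ) := by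
      rcases hτ with h | h
      · refine ⟨d * A j.1.1, fun x h1 h2 => ?_⟩
        rw [h]
        push_cast
        constructor <;> nlinarith
      · refine ⟨d * (- A j.1.1 - L) - 1, fun x h1 h2 => ?_⟩
        rw [h]
        push_cast
        constructor
        · nlinarith
        · have := Int.add_one_le_iff.mpr h1
          nlinarith
    have hdL : 1 ≤ d * L := Nat.mul_pos hd2 hL
    refine (few_powers' (κ := j.2.1 * j.2.2.1) (r := j.2.2.2.2) (Nat.mul_pos hu1 hd1) hR hRr hdL A'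
      _ ?_).trans ?_
    · intro x hx
      obtain ⟨w, hw, rfl⟩ := mem_image.mp hx
      simp only [hF, mem_filter] at hw
      obtain ⟨hwI, hw1, -, -, -, -, -, -, c, hc⟩ := hw
      obtain ⟨-, h2, h3, -⟩ := hI w hwI
      rw [hw1] at h2 h3
      refine ⟨(hA' w.2 h2 h3).1, (hA' w.2 h2 h3).2, c, ?_⟩
      rw [hd]
      exact hc
    · have h6 : ((d * L : ℕ) : ℝ) ≤ ((B * L : ℕ) : ℝ) := by
        exact_mod_cast Nat.mul_le_mul_right L hd2'
      have := Real.rpow_le_rpow (Nat.cast_nonneg _) h6 (by positivity : 0 ≤ 1 / (R : ℝ))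
      linarith
  calc (I.card : ℝ) ≤ ((J.biUnion F).card : ℝ) := by exact_mod_cast card_le_card hcov
    _ ≤ ∑ j ∈ J, ((F j).card : ℝ) := by exact_mod_cast card_biUnion_le
    _ ≤ ∑ _j ∈ J, (((B * L : ℕ) : ℝ) ^ (1 / (R : ℝ)) + 1) := sum_le_sum hFc
    _ = 4 * U.card * ((B : ℝ) + 1) ^ 3 * (((B * L : ℕ) : ℝ) ^ (1 / (R : ℝ)) + 1) := by
      rw [sum_const, hJc, nsmul_eq_mul]
      push_cast
      ring

/-- the pairs on a line `x - σ y = s` -/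
theorem sfiber {S : Finset ℕ} {R N a : ℕ} {W M : ℝ} {s σ : ℤ} (hσ : σ = 1 ∨ σ = -1)
    (hline : ∀ f g : ℤ[X], (0 < f.natDegree ∨ 0 < g.natDegree) → f.natDegree ≤ 1 →
      g.natDegree ≤ 1 →
      ∀ T : Finset ℤ, (∀ n ∈ T, |n| ≤ N ∧ SPair S R W (f.eval n) (g.eval n)) → (T.card : ℝ) ≤ M)
    (V : Finset (ℕ × ℕ))
    (hV : ∀ v ∈ V, a < v.1 ∧ v.1 ≤ a + N ∧ (v.1 : ℤ) - σ * v.2 = s ∧
      SPair S R W (v.1 : ℤ) (σ * v.2)) : (V.card : ℝ) ≤ M := by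
  classical
  have hinj : Set.InjOn (fun v : ℕ × ℕ => (v.1 : ℤ) - a) V := by
    intro v hv w hw hvw
    simp only at hvw
    have e1 := (hV v hv).2.2.1
    have e2 := (hV w hw).2.2.1
    have h3 : (v.1 : ℤ) = w.1 := by linarith
    have h4 : σ * (v.2 : ℤ) = σ * w.2 := by linarith
    have h5 : (v.2 : ℤ) = w.2 := by
      rcases hσ with rfl | rfl
      · linarith
      · linarith
    exact Prod.ext (by exact_mod_cast h3) (by exact_mod_cast h5)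
  rw [← card_image_of_injOn hinj]
  have hd1 : (X + C (a : ℤ) : ℤ[X]).natDegree = 1 := natDegree_X_add_C _
  have hd2 : (X + C ((a : ℤ) - s) : ℤ[X]).natDegree = 1 := natDegree_X_add_C _
  refine hline (X + C (a : ℤ)) (X + C ((a : ℤ) - s)) (Or.inl (by rw [hd1]; norm_num)) hd1.le hd2.le
    _ ?_
  intro n hn
  obtain ⟨v, hv, rfl⟩ := mem_image.mp hn
  obtain ⟨g1, g2, g3, g4⟩ := hV v hv
  have g1' : (a : ℤ) < v.1 := by exact_mod_cast g1
  have g2' : (v.1 : ℤ) ≤ a + N := by exact_mod_cast g2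
  refine ⟨by rw [abs_le]; constructor <;> linarith, ?_⟩
  simp only [eval_add, eval_X, eval_C]
  have e1 : (v.1 : ℤ) - a + a = v.1 := by ring
  have e2 : (v.1 : ℤ) - a + (a - s) = σ * v.2 := by linarith
  rw [e1, e2]
  exact g4

end Pool.Agent.Helper82.SU
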