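import Pool.Agent.Helper82.SU.Equal

/-!
# Two equal exponents, coefficients composed of few primes: the count
-/

set_option autoImplicit false

namespace Pool.Agent.Helper82.SU

open Finset Polynomial Pool.Agent.N741.PB

theorem sequal_main (s R : ℕ) (hR : 2 ≤ R) (δ : ℝ) (hδ : 0 < δ) : ∃ c : ℝ, 0 < c ∧ ∃ N₁ : ℕ,
    ∀ N Y a b : ℕ, N₁ ≤ N → N ≤ Y → ∀ S : Finset ℕ, S.card ≤ s →
      ∀ V : Finset (ℕ × ℕ), (∀ v ∈ V, a < v.1 ∧ v.1 ≤ a + N ∧ b < v.2 ∧ v.2 ≤ b + Y ∧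
        ∃ σ : ℤ, Eq2 S R (Real.exp ((N : ℝ) ^ c)) σ v.1 v.2) →
        (V.card : ℝ) ≤ ((N : ℝ) * Y) ^ (1 / (R : ℝ)) * (N : ℝ) ^ δ := by
  classical
  obtain ⟨e, he⟩ : ∃ e, e = δ / 4 := ⟨_, rfl⟩
  have he0 : 0 < e := by rw [he]; positivity
  obtain ⟨c', hc', -, -, N₀, hN₀⟩ := sline s R hR e he0
  obtain ⟨P, hPge, hP⟩ := Nat.exists_infinite_primes (R + 7)
  obtain ⟨c, hc⟩ : ∃ c : ℝ, c = min c' (e / (s + 4)) := ⟨_, rfl⟩
  have hc0 : 0 < c := by rw [hc]; positivity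
  have hcc : c ≤ c' := by rw [hc]; exact min_le_left _ _
  have hcs : c * ((s + 4 : ℕ) : ℝ) ≤ e := by
    have h1 : c ≤ e / (s + 4) := by rw [hc]; exact min_le_right _ _
    have h2 : c * ((s : ℝ) + 4) ≤ e := by
      rwa [le_div_iff₀ (by positivity)] at h1
    push_cast
    exact h2
  obtain ⟨K₀, hK₀⟩ : ∃ K₀ : ℝ, K₀ = 16 * ((P : ℝ) + 20) ^ (s + 4) := ⟨_, rfl⟩
  obtain ⟨L₁, hL₁⟩ := ev_rpow hc0 6
  obtain ⟨L₂, hL₂⟩ := ev_rpow he0 K₀
  refine ⟨c, hc0, N₀ + L₁ + L₂ + 1, fun N Y a b hN hNY S hS V hV => ?_⟩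
  obtain ⟨Q, hQ⟩ : ∃ Q : ℝ, Q = (N : ℝ) ^ c := ⟨_, rfl⟩
  have h1 := hL₁ N (by omega)
  have h2 := hL₂ N (by omega)
  rw [← hQ] at h1
  have hN1 : (1 : ℝ) ≤ N := by exact_mod_cast (by omega : 1 ≤ N)
  have hN0 : (0 : ℝ) < N := by linarith
  have hY1 : (1 : ℝ) ≤ Y := by exact_mod_cast (by omega : 1 ≤ Y)
  have hR0 : (0 : ℝ) < R := by exact_mod_cast (by omega : 0 < R)
  obtain ⟨T, hT⟩ : ∃ T : ℕ, T = ⌈2 * Q⌉₊ := ⟨_, rfl⟩
  have hT1 : 2 * Q ≤ T := by rw [hT]; exact Nat.le_ceil _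
  have hT2 : (T : ℝ) ≤ 3 * Q := by
    rw [hT]
    have := Nat.ceil_lt_add_one (show 0 ≤ 2 * Q by linarith)
    linarith
  have hE : Real.exp Q ≤ 2 ^ T := by
    have h4 : Q ≤ (T : ℝ) * Real.log 2 := by
      have h5 := Real.log_two_gt_d9
      nlinarith
    calc Real.exp Q ≤ Real.exp ((T : ℝ) * Real.log 2) := Real.exp_le_exp.mpr h4
      _ = (2 : ℝ) ^ T := by
        rw [mul_comm, Real.exp_mul, Real.exp_log (by norm_num), Real.rpow_natCast]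
  obtain ⟨B, hB⟩ : ∃ B : ℕ, B = T + P + 7 := ⟨_, rfl⟩
  have hB1 : (B : ℝ) + 1 ≤ ((P : ℝ) + 20) * Q := by
    rw [hB]
    push_cast
    have hP0 : (0 : ℝ) ≤ P := Nat.cast_nonneg P
    nlinarith
  have hBpow : ((B : ℝ) + 1) ^ (s + 4) ≤ ((P : ℝ) + 20) ^ (s + 4) * (N : ℝ) ^ e := by
    calc ((B : ℝ) + 1) ^ (s + 4) ≤ (((P : ℝ) + 20) * Q) ^ (s + 4) :=
          pow_le_pow_left₀ (by positivity) hB1 _
      _ = ((P : ℝ) + 20) ^ (s + 4) * Q ^ (s + 4) := mul_pow _ _ _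
      _ ≤ _ := by
        apply mul_le_mul_of_nonneg_left _ (by positivity)
        rw [hQ, ← Real.rpow_natCast, ← Real.rpow_mul hN0.le]
        exact Real.rpow_le_rpow_of_exponent_le hN1 hcs
  -- the data
  have hex : ∀ v ∈ V, ∃ σ : ℤ, Eq2 S R (Real.exp Q) σ v.1 v.2 := by
    intro v hv
    rw [hQ]
    exact (hV v hv).2.2.2.2
  choose! σ hsol using hex
  have hσ : ∀ v ∈ V, σ v = 1 ∨ σ v = -1 := by
    intro v hv
    obtain ⟨k, z, p, r, h, -⟩ := hsol v hv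
    rcases h with h | h
    · exact Or.inl h
    · exact Or.inr h.1
  obtain ⟨f, hf⟩ : ∃ f : ℕ × ℕ → ℤ × ℤ, f = fun v => (σ v, (v.1 : ℤ) - σ v * v.2) := ⟨_, rfl⟩
  obtain ⟨A, hA⟩ : ∃ A : ℤ → ℤ, A = fun t => if t = 1 then (a : ℤ) - b - Y else (a : ℤ) + b :=
    ⟨_, rfl⟩
  obtain ⟨U, hU⟩ : ∃ U : Finset ℕ, U = (units S (T + 1)).image Int.natAbs := ⟨_, rfl⟩
  have hUc : (U.card : ℝ) ≤ 2 * ((B : ℝ) + 1) ^ s := by
    have h3 : U.card ≤ 2 * (T + 1 + 1) ^ S.card := by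
      rw [hU]; exact card_image_le.trans (units_card S (T + 1))
    have h4 : 2 * (T + 1 + 1) ^ S.card ≤ 2 * (B + 1) ^ s := by
      apply Nat.mul_le_mul_left
      exact (Nat.pow_le_pow_left (by omega) _).trans (Nat.pow_le_pow_right (by omega) hS)
    exact_mod_cast h3.trans h4
  have hI := scount_lines (R := R) (L := N + Y) (B := B) (by omega) (by omega) A U (V.image f) (by
    intro w hw
    obtain ⟨v, hv, rfl⟩ := mem_image.mp hw
    obtain ⟨g1, g2, g3, g4, -⟩ := hV v hv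
    obtain ⟨hx, hy, hxT, hyT, k, z, p, r, hs, hr, hpT, hrT⟩ :=
      (hsol v hv).red hE hP (by omega) (by omega)
    have g1' : (a : ℤ) < v.1 := by exact_mod_cast g1
    have g2' : (v.1 : ℤ) ≤ a + N := by exact_mod_cast g2
    have g3' : (b : ℤ) < v.2 := by exact_mod_cast g3
    have g4' : (v.2 : ℤ) ≤ b + Y := by exact_mod_cast g4
    have hint : A (σ v) < (v.1 : ℤ) - σ v * v.2 ∧
        (v.1 : ℤ) - σ v * v.2 ≤ A (σ v) + ((N + Y : ℕ) : ℤ) := by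
      rcases hσ v hv with h | h
      · rw [hA, h]
        simp only [if_true]
        push_cast
        constructor <;> linarith
      · have hA1 : A (-1) = (a : ℤ) + b := by rw [hA]; norm_num
        rw [h, hA1]
        push_cast
        constructor <;> linarith
    have hcop : IsCoprime (v.1 : ℤ) (σ v * v.2) := hs.cop.of_mul_left_right.of_mul_right_right
    obtain ⟨hne, u, d₁, d₂, c₁, hu0, huS, hud, hd1, hd2, heq⟩ := descent (p := p) (r := r) hs.l0 hcop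
      hs.c1 hs.z0 (by have := hs.eq; linear_combination this)
    have hrR : R ≤ r := by
      obtain ⟨q, hq, hqr⟩ := Nat.exists_prime_and_dvd (by have := hs.two_le.2.2; omega : r ≠ 1)
      exact (hr q hq hqr).trans (Nat.le_of_dvd hs.r0 hqr)
    have hpB : p ≤ B := by omega
    rw [hf]
    refine ⟨hσ v hv, hint.1, hint.2, u, ?_, d₁, d₂, r, c₁, Nat.pos_of_ne_zero hu0, ?_, ?_, ?_, ?_, hrR,
      by omega, heq⟩
    · rw [hU, mem_image]
      refine ⟨(u : ℤ), mem_units ⟨by exact_mod_cast hu0, fun l hl hd => huS l hl (by exact_mod_cast hd)⟩ ?_,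
        Int.natAbs_natCast u⟩
      rw [Int.natAbs_natCast]
      refine (Nat.le_of_dvd (Int.natAbs_pos.2 hne) hud).trans ?_
      have h3 : (σ v * (v.2 : ℤ)).natAbs = v.2 := by
        rw [Int.natAbs_mul, Int.natAbs_natCast]
        rcases hσ v hv with h | h <;> simp [h]
      calc ((v.1 : ℤ) - σ v * v.2).natAbs ≤ (v.1 : ℤ).natAbs + (σ v * (v.2 : ℤ)).natAbs :=
            Int.natAbs_sub_le _ _
        _ ≤ 2 ^ T + 2 ^ T := by rw [h3, Int.natAbs_natCast]; exact Nat.add_le_add hxT hyT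
        _ = 2 ^ (T + 1) := by rw [pow_succ]; ring
    · exact Nat.pos_of_dvd_of_pos hd1 hs.l0
    · exact (Nat.le_of_dvd hs.l0 hd1).trans hpB
    · exact Nat.pos_of_dvd_of_pos hd2 hs.l0
    · exact (Nat.le_of_dvd hs.l0 hd2).trans hpB)
  -- the fibers
  obtain ⟨M, hM⟩ : ∃ M : ℝ, M = (N : ℝ) ^ (1 / (R : ℝ) + e) := ⟨_, rfl⟩
  have hEE : Real.exp Q ≤ Real.exp ((N : ℝ) ^ c') := by
    rw [hQ]
    exact Real.exp_le_exp.2 (Real.rpow_le_rpow_of_exponent_le hN1 hcc)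
  have hfib : ∀ w ∈ V.image f, ((V.filter (fun v => f v = w)).card : ℝ) ≤ M := by
    intro w hw
    obtain ⟨v₀, hv₀, rfl⟩ := mem_image.mp hw
    refine sfiber (S := S) (R := R) (N := N) (a := a) (W := Real.exp ((N : ℝ) ^ c'))
      (s := (v₀.1 : ℤ) - σ v₀ * v₀.2) (σ := σ v₀) (hσ v₀ hv₀) ?_ _ ?_
    · intro f g hfg hf1 hg1 T hT
      have hNc : (1 : ℝ) ≤ (N : ℝ) ^ c' := Real.one_le_rpow hN1 hc'.le
      rw [hM]
      refine hN₀ N (by omega) S hS f g hfg ?_ ?_ T hT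
      · exact le_trans (by exact_mod_cast hf1) hNc
      · exact le_trans (by exact_mod_cast hg1) hNc
    · intro v hv
      rw [mem_filter] at hv
      obtain ⟨hvV, hfv⟩ := hv
      obtain ⟨g1, g2, -⟩ := hV v hvV
      obtain ⟨k, z, p, r, hσp, hs, hr, t1, t2, t3⟩ := hsol v hvV
      rw [hf] at hfv
      simp only [Prod.mk.injEq] at hfv
      refine ⟨g1, g2, ?_, ?_⟩
      · rw [← hfv.2, hfv.1]
      · rw [← hfv.1]
        refine ⟨1, -1, k, z, p, p, r, hs, hr, ?_, ?_, t3.trans hEE⟩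
        · rw [one_mul]
          push_cast
          rw [abs_of_nonneg (by positivity)]
          exact t1.trans hEE
        · push_cast
          rw [abs_mul, abs_neg, abs_one, one_mul, abs_pow, abs_mul, Nat.abs_cast]
          have h3 : |((σ v : ℤ) : ℝ)| = 1 := by
            rcases hσ v hvV with h | h <;> simp [h]
          rw [h3, one_mul]
          exact t2.trans hEE
  -- conclusion
  have hM0 : 0 ≤ M := by rw [hM]; positivity
  have hVI : (V.card : ℝ) ≤ (V.image f).card * M := by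
    rw [card_eq_sum_card_image f V]
    push_cast
    calc ∑ w ∈ V.image f, ((V.filter (fun v => f v = w)).card : ℝ) ≤ ∑ _w ∈ V.image f, M :=
          sum_le_sum hfib
      _ = (V.image f).card * M := by rw [sum_const, nsmul_eq_mul]
  have hLY : (((B * (N + Y) : ℕ) : ℝ)) ^ (1 / (R : ℝ)) + 1 ≤
      2 * ((B : ℝ) + 1) * (Y : ℝ) ^ (1 / (R : ℝ)) := by
    have hB0 : (1 : ℝ) ≤ B := by
      have : 1 ≤ B := by omega
      exact_mod_cast this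
    have h5 : (((B * (N + Y) : ℕ) : ℝ)) ≤ (2 * B) * Y := by
      have : (N : ℝ) ≤ Y := by exact_mod_cast hNY
      push_cast
      nlinarith
    have h6 : (((B * (N + Y) : ℕ) : ℝ)) ^ (1 / (R : ℝ)) ≤ ((2 * (B : ℝ)) * Y) ^ (1 / (R : ℝ)) :=
      Real.rpow_le_rpow (by positivity) h5 (by positivity)
    rw [Real.mul_rpow (by positivity) (by positivity)] at h6
    have h7 : (2 * (B : ℝ)) ^ (1 / (R : ℝ)) ≤ 2 * B := by
      calc (2 * (B : ℝ)) ^ (1 / (R : ℝ)) ≤ (2 * (B : ℝ)) ^ (1 : ℝ) := by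
            apply Real.rpow_le_rpow_of_exponent_le (by linarith)
            rw [div_le_one hR0]
            exact_mod_cast (by omega : 1 ≤ R)
        _ = 2 * B := Real.rpow_one _
    have h8 : 1 ≤ (Y : ℝ) ^ (1 / (R : ℝ)) := Real.one_le_rpow hY1 (by positivity)
    have h9 : (2 * (B : ℝ)) ^ (1 / (R : ℝ)) * (Y : ℝ) ^ (1 / (R : ℝ)) ≤
        2 * B * (Y : ℝ) ^ (1 / (R : ℝ)) := mul_le_mul_of_nonneg_right h7 (by positivity)
    nlinarith
  have hY0 : (0 : ℝ) ≤ (Y : ℝ) ^ (1 / (R : ℝ)) := by positivity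
  have hBB : 4 * (U.card : ℝ) * ((B : ℝ) + 1) ^ 3 * ((((B * (N + Y) : ℕ) : ℝ)) ^ (1 / (R : ℝ)) + 1) ≤
      16 * (((P : ℝ) + 20) ^ (s + 4) * (N : ℝ) ^ e) * (Y : ℝ) ^ (1 / (R : ℝ)) := by
    calc 4 * (U.card : ℝ) * ((B : ℝ) + 1) ^ 3 * ((((B * (N + Y) : ℕ) : ℝ)) ^ (1 / (R : ℝ)) + 1)
        ≤ 4 * (2 * ((B : ℝ) + 1) ^ s) * ((B : ℝ) + 1) ^ 3 *
          (2 * ((B : ℝ) + 1) * (Y : ℝ) ^ (1 / (R : ℝ))) := by gcongr
      _ = 16 * (((B : ℝ) + 1) ^ (s + 4)) * (Y : ℝ) ^ (1 / (R : ℝ)) := by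
        rw [pow_add ((B : ℝ) + 1) s 4]; ring
      _ ≤ _ := by gcongr
  calc (V.card : ℝ) ≤ (V.image f).card * M := hVI
    _ ≤ (4 * (U.card : ℝ) * ((B : ℝ) + 1) ^ 3 *
        ((((B * (N + Y) : ℕ) : ℝ)) ^ (1 / (R : ℝ)) + 1)) * M := mul_le_mul_of_nonneg_right hI hM0
    _ ≤ (16 * (((P : ℝ) + 20) ^ (s + 4) * (N : ℝ) ^ e) * (Y : ℝ) ^ (1 / (R : ℝ))) * M :=
      mul_le_mul_of_nonneg_right hBB hM0
    _ = K₀ * ((N : ℝ) ^ e * (Y : ℝ) ^ (1 / (R : ℝ)) * M) := by rw [hK₀]; ring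
    _ ≤ (N : ℝ) ^ e * ((N : ℝ) ^ e * (Y : ℝ) ^ (1 / (R : ℝ)) * M) :=
      mul_le_mul_of_nonneg_right h2 (by positivity)
    _ = ((N : ℝ) * Y) ^ (1 / (R : ℝ)) * ((N : ℝ) ^ e * (N : ℝ) ^ e * (N : ℝ) ^ e) := by
      rw [hM, Real.mul_rpow (by positivity) (by positivity), Real.rpow_add hN0]
      ring
    _ ≤ ((N : ℝ) * Y) ^ (1 / (R : ℝ)) * (N : ℝ) ^ δ := by
      apply mul_le_mul_of_nonneg_left _ (by positivity)
      rw [← Real.rpow_add hN0, ← Real.rpow_add hN0]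
      apply Real.rpow_le_rpow_of_exponent_le hN1
      rw [he]; linarith

end Pool.Agent.Helper82.SU
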