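import Pool.Agent.Helper82.SU.Binom

/-!
# Simultaneous power values of the polynomials `b_i g ^ (m_i) + a_i`
-/

set_option autoImplicit false

namespace Pool.Agent.Helper82.SU

open Polynomial Finset Filter Pool.Agent.Helper82.FC

theorem log_natAbs_mul {a b : ℤ} (ha : a ≠ 0) (hb : b ≠ 0) :
    Real.log (a * b).natAbs = Real.log a.natAbs + Real.log b.natAbs := by
  rw [Int.natAbs_mul]
  push_cast
  rw [Real.log_mul (by exact_mod_cast Int.natAbs_ne_zero.2 ha)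
    (by exact_mod_cast Int.natAbs_ne_zero.2 hb)]

theorem log_natAbs_pow (a : ℤ) (n : ℕ) :
    Real.log (a ^ n).natAbs = n * Real.log a.natAbs := by
  rw [Int.natAbs_pow]
  push_cast
  rw [Real.log_pow]

theorem sfixed (k R : ℕ) (δ : ℝ) (hδ : 0 < δ) : ∃ ε : ℝ, 0 < ε ∧ ∃ N₀ : ℕ, ∀ N : ℕ, N₀ ≤ N →
    ∀ g : ℤ[X], (g.natDegree : ℝ) ≤ (N : ℝ) ^ ε → ∀ n₁ n₂ : ℤ, g.eval n₁ ≠ g.eval n₂ →
    Real.log (g.eval n₁ - g.eval n₂).natAbs ≤ (N : ℝ) ^ ε →
    ∀ a b c : Fin k → ℤ, (∀ i, a i ≠ 0) → (∀ i, b i ≠ 0) → (∀ i, c i ≠ 0) →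
    (∀ i, Real.log (a i).natAbs ≤ (N : ℝ) ^ ε) → (∀ i, Real.log (b i).natAbs ≤ (N : ℝ) ^ ε) →
    (∀ i, Real.log (c i).natAbs ≤ (N : ℝ) ^ ε) → ∀ m r : Fin k → ℕ,
    (∀ i, 2 ≤ m i ∧ (m i : ℝ) ≤ (N : ℝ) ^ ε) → (∀ i, (r i).Prime ∧ r i < R) →
    (∀ i j, i ≠ j → (a i).natAbs ^ m j * (b j).natAbs ^ m i ≠
      (a j).natAbs ^ m i * (b i).natAbs ^ m j) →
    ∀ U : Finset ℕ, (∀ y ∈ U, ∀ z ∈ U, (y : ℝ) ≤ z + N) →
    (∀ y ∈ U, ∀ i, ∃ w : ℤ, b i * (g.eval (y : ℤ)) ^ m i + a i = c i * w ^ r i) →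
      (U.card : ℝ) ≤ (N : ℝ) ^ (1 / (2 : ℝ) ^ k + δ) := by
  classical
  obtain ⟨ε, hε, N₁, h⟩ := sieve_core k R δ hδ
  have hxt := tendsto_natCast_atTop_atTop (R := ℝ)
  have e1 := ((tendsto_rpow_atTop (show 0 < ε / 4 by positivity)).comp hxt).eventually_ge_atTop
    ((4 + 4 * ((R : ℝ) + 1)) * ((k : ℝ) + k ^ 2) + 4)
  obtain ⟨N₂, hN₂⟩ := eventually_atTop.1 (e1.and (eventually_ge_atTop 1))
  refine ⟨ε / 4, by positivity, max N₁ N₂, ?_⟩
  intro N hN g hgd n₁ n₂ hn12 hnl a b c ha0 hb0 hc0 hal hbl hcl m r hm hr hind U hUN hU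
  obtain ⟨h1, hN1⟩ := hN₂ N ((le_max_right _ _).trans hN)
  simp only [Function.comp] at h1
  obtain ⟨z, hz⟩ : ∃ z : ℝ, z = (N : ℝ) ^ (ε / 4) := ⟨_, rfl⟩
  rw [← hz] at h1 hal hbl hcl hm hgd hnl
  have hN0 : (0 : ℝ) < N := by exact_mod_cast hN1
  have hz4 : (N : ℝ) ^ ε = z ^ 4 := by
    rw [hz, ← Real.rpow_natCast, ← Real.rpow_mul hN0.le]
    congr 1
    push_cast
    ring
  have hk0 : (0 : ℝ) ≤ k := Nat.cast_nonneg k
  have hR0 : (0 : ℝ) ≤ R := Nat.cast_nonneg R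
  have hkk : (0 : ℝ) ≤ (k : ℝ) + k ^ 2 := by positivity
  have hz1 : 1 ≤ z := by nlinarith [mul_nonneg hR0 hkk]
  have hz0 : 0 < z := by linarith
  obtain ⟨a', ha'⟩ : ∃ a' : Fin k → ℤ, a' = fun i => c i ^ (r i - 1) * a i := ⟨_, rfl⟩
  obtain ⟨b', hb'⟩ : ∃ b' : Fin k → ℤ, b' = fun i => c i ^ (r i - 1) * b i := ⟨_, rfl⟩
  have ha'0 : ∀ i, a' i ≠ 0 := fun i => by
    rw [ha']
    exact mul_ne_zero (pow_ne_zero _ (hc0 i)) (ha0 i)
  have hb'0 : ∀ i, b' i ≠ 0 := fun i => by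
    rw [hb']
    exact mul_ne_zero (pow_ne_zero _ (hc0 i)) (hb0 i)
  have hm' : ∀ i, 0 < m i := fun i => by have := (hm i).1; omega
  have hcpow : ∀ i, Real.log (c i ^ (r i - 1)).natAbs ≤ R * z := by
    intro i
    rw [log_natAbs_pow]
    refine mul_le_mul ?_ (hcl i) (Real.log_natCast_nonneg _) hR0
    have h2 := (hr i).2
    exact_mod_cast (by omega : r i - 1 ≤ R)
  have hlog' : ∀ (u : Fin k → ℤ), (∀ i, u i ≠ 0) → (∀ i, Real.log (u i).natAbs ≤ z) →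
      ∀ i, Real.log (c i ^ (r i - 1) * u i).natAbs ≤ (R + 1) * z := by
    intro u hu hul i
    rw [log_natAbs_mul (pow_ne_zero _ (hc0 i)) (hu i)]
    have := hcpow i
    have := hul i
    linarith
  have hij : ∀ i j, i ≠ j → (a' i).natAbs ^ m j * (b' j).natAbs ^ m i ≠
      (a' j).natAbs ^ m i * (b' i).natAbs ^ m j := by
    intro i j hne heq
    apply hind i j hne
    rw [ha', hb'] at heq
    simp only [Int.natAbs_mul, mul_pow] at heq
    have hpos : 0 < (c i ^ (r i - 1)).natAbs ^ m j * (c j ^ (r j - 1)).natAbs ^ m i :=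
      Nat.mul_pos (Nat.pow_pos (Int.natAbs_pos.2 (pow_ne_zero _ (hc0 i))))
        (Nat.pow_pos (Int.natAbs_pos.2 (pow_ne_zero _ (hc0 j))))
    apply Nat.eq_of_mul_eq_mul_left hpos
    linear_combination heq
  have hlog := log_sbad m hm' a' b' ha'0 hb'0 hij z ((R + 1) * z) (fun i => (hm i).2)
    (fun i => by rw [ha']; exact hlog' a ha0 hal i) (fun i => by rw [hb']; exact hlog' b hb0 hbl i)
    hz0.le (by positivity)
  have hb3 := sbad_ne_zero m hm' a' b' ha'0 hb'0 hij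
  have hb1 : (sbad m a' b').natAbs ≠ 0 := Int.natAbs_ne_zero.2 hb3
  have hb2 : (g.eval n₁ - g.eval n₂).natAbs ≠ 0 := Int.natAbs_ne_zero.2 (sub_ne_zero.2 hn12)
  have hb4 : (g.natDegree).factorial ≠ 0 := Nat.factorial_ne_zero _
  refine h N ((le_max_left _ _).trans hN) r (fun i => (hr i).1) (fun i => (hr i).2)
    (fun i => (C (b' i) * g ^ m i + C (a' i) : ℤ[X])) ?_
    (fun _ => 1) ?_ ((sbad m a' b').natAbs * (g.eval n₁ - g.eval n₂).natAbs *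
      (g.natDegree).factorial) (mul_ne_zero (mul_ne_zero hb1 hb2) hb4) ?_ ?_ U hUN ?_
  · have h2 : ∀ i, (C (b' i) * g ^ m i + C (a' i) : ℤ[X]).natDegree ≤ m i * g.natDegree := fun i => by
      rw [natDegree_add_C]
      exact (natDegree_C_mul_le _ _).trans natDegree_pow_le
    rw [hz4]
    push_cast
    have h3 : ∀ i, (((C (b' i) * g ^ m i + C (a' i) : ℤ[X]).natDegree : ℕ) : ℝ) ≤ z * z := fun i => by
      have h4 : (((C (b' i) * g ^ m i + C (a' i) : ℤ[X]).natDegree : ℕ) : ℝ) ≤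
          (m i : ℝ) * g.natDegree := by
        exact_mod_cast h2 i
      exact h4.trans (mul_le_mul (hm i).2 hgd (Nat.cast_nonneg _) hz0.le)
    calc ∑ i, (((C (b' i) * g ^ m i + C (a' i) : ℤ[X]).natDegree : ℕ) : ℝ) ≤ ∑ _i : Fin k, z * z :=
          Finset.sum_le_sum fun i _ => h3 i
      _ = k * (z * z) := by rw [Finset.sum_const, Finset.card_univ, Fintype.card_fin, nsmul_eq_mul]
      _ ≤ z * (z * z) := mul_le_mul_of_nonneg_right (by nlinarith [mul_nonneg hR0 hkk])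
          (by positivity)
      _ ≤ z ^ 4 := by
        have : z ^ 3 ≤ z ^ 4 := pow_le_pow_right₀ hz1 (by norm_num)
        nlinarith
  · intro i
    exact Or.inl rfl
  · rw [hz4]
    push_cast
    rw [Real.log_mul (mul_ne_zero (by exact_mod_cast hb1) (by exact_mod_cast hb2))
      (by exact_mod_cast hb4), Real.log_mul (by exact_mod_cast hb1) (by exact_mod_cast hb2)]
    have hzz : 1 ≤ z * z := by nlinarith
    have hz2 : z ^ 2 = z * z := by ring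
    have h2 : (1 + z) * (1 + 2 * ((R + 1) * z)) ≤ (4 + 4 * ((R : ℝ) + 1)) * z ^ 3 := by
      have g1 : 1 ≤ z ^ 3 := one_le_pow₀ hz1
      have g2 : z ≤ z ^ 3 := le_self_pow₀ hz1 (by norm_num)
      have g3 : z ^ 2 ≤ z ^ 3 := pow_le_pow_right₀ hz1 (by norm_num)
      have g4 : (1 + z) * (1 + 2 * ((R + 1) * z)) =
          1 + z + 2 * (((R : ℝ) + 1) * z) + 2 * (((R : ℝ) + 1) * z ^ 2) := by ring
      have g5 : ((R : ℝ) + 1) * z ≤ (R + 1) * z ^ 3 := mul_le_mul_of_nonneg_left g2 (by linarith)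
      have g6 : ((R : ℝ) + 1) * z ^ 2 ≤ (R + 1) * z ^ 3 := mul_le_mul_of_nonneg_left g3 (by linarith)
      have g7 : (0 : ℝ) ≤ z ^ 3 := by positivity
      rw [g4]
      linarith
    have h3 := log_factorial_le g.natDegree
    have h4 : (g.natDegree : ℝ) * g.natDegree ≤ z * z :=
      mul_le_mul hgd hgd (Nat.cast_nonneg _) hz0.le
    have h5 : ((k : ℝ) + k ^ 2) * ((1 + z) * (1 + 2 * ((R + 1) * z))) ≤
        ((k : ℝ) + k ^ 2) * ((4 + 4 * ((R : ℝ) + 1)) * z ^ 3) :=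
      mul_le_mul_of_nonneg_left h2 hkk
    have h6 : z + z * z ≤ 2 * z ^ 3 := by nlinarith [mul_pos hz0 hz0]
    have h7 : ((4 + 4 * ((R : ℝ) + 1)) * ((k : ℝ) + k ^ 2) + 4) * z ^ 3 ≤ z * z ^ 3 :=
      mul_le_mul_of_nonneg_right h1 (by positivity)
    have h8 : z * z ^ 3 = z ^ 4 := by ring
    have h9 : 0 < z ^ 3 := by positivity
    have e1 : Real.log ((sbad m a' b').natAbs : ℝ) ≤
        ((k : ℝ) + k ^ 2) * ((4 + 4 * ((R : ℝ) + 1)) * z ^ 3) := hlog.trans h5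
    have e2 : Real.log ((g.eval n₁ - g.eval n₂).natAbs : ℝ) ≤ z := hnl
    have e3 : Real.log (((g.natDegree).factorial : ℕ) : ℝ) ≤ z * z := h3.trans h4
    have e4 : ((k : ℝ) + k ^ 2) * ((4 + 4 * ((R : ℝ) + 1)) * z ^ 3) + 4 * z ^ 3 =
        ((4 + 4 * ((R : ℝ) + 1)) * ((k : ℝ) + k ^ 2) + 4) * z ^ 3 := by ring
    linarith
  · intro l hl hdvd
    have hl' : l.Prime := hl.out
    refine simp_coef g m (fun i => (hm i).1) a' b' l ?_ n₁ n₂ ?_ ?_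
    · by_contra h3
      push Not at h3
      exact hdvd (Dvd.dvd.mul_left ((hl'.dvd_factorial).2 h3) _)
    · intro h3
      exact hdvd (Dvd.dvd.mul_right (Dvd.dvd.mul_left (Int.natCast_dvd.1 h3) _) _)
    · intro h3
      exact hdvd (Dvd.dvd.mul_right (Dvd.dvd.mul_right (Int.natCast_dvd.1 h3) _) _)
  · intro y hy i
    obtain ⟨w, hw⟩ := hU y hy i
    refine ⟨c i * w, ?_⟩
    rw [eval_add, eval_mul, eval_pow, eval_C, eval_C, ha', hb']
    show c i ^ (r i - 1) * b i * (g.eval (y : ℤ)) ^ m i + c i ^ (r i - 1) * a i = 1 * (c i * w) ^ r i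
    have h3 : c i ^ r i = c i ^ (r i - 1) * c i := by
      rw [← pow_succ, Nat.sub_add_cancel (hr i).1.one_le]
    rw [mul_pow, h3]
    linear_combination c i ^ (r i - 1) * hw

end Pool.Agent.Helper82.SU
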