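import Pool.Agent.Helper82.SU.Tri
import Pool.Agent.Helper82.FC.Gen

/-!
# Three bases which are products of values of given polynomials, with coefficients
-/

set_option autoImplicit false

namespace Pool.Agent.Helper82.SU

open Finset MvPolynomial Pool.Agent.N741.PB
open Pool.Agent.Helper82.FC (mon mon_eval mon_degree mon_pos reduce)

/-- `x`, `y`, `z` are the bases of a solution with terms at most `W` -/
def WTri (S : Finset ℕ) (W : ℝ) (x y z : ℤ) : Prop := ∃ (a b c : ℤ) (l m r : ℕ),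
  Sol S a b c x y z l m r ∧ |((a * x ^ l : ℤ) : ℝ)| ≤ W ∧ |((b * y ^ m : ℤ) : ℝ)| ≤ W ∧
    |((c * z ^ r : ℤ) : ℝ)| ≤ W

/-- the numbers -/
lemma snumbers (m σ T q : ℕ) (hT : 2 ≤ T) (hq : q ≤ σ) :
    ((T + 2 + 1) ^ m * ((T + 2 + 1) ^ m * (T + 2 + 1) ^ m)) *
      ((2 * (m * ((T + 2) * T)) + (T + 7 + 1) ^ 3 * (2 * (T + 1) ^ q) ^ 3 *
        ((T + 7) * (m * ((T + 2) * T)))) + m * ((T + 2) * T)) ≤
      (4 ^ m * (4 ^ m * 4 ^ m) * (6 * m + 10000 * m * (2 ^ σ) ^ 3)) * T ^ (3 * m + 3 * σ + 6) := by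
  have h1 : (T + 2 + 1) ^ m ≤ 4 ^ m * T ^ m := by
    rw [← mul_pow]; exact Nat.pow_le_pow_left (by omega) m
  have h2 : m * ((T + 2) * T) ≤ 2 * m * T ^ 2 := by
    have : (T + 2) * T ≤ 2 * T ^ 2 := by nlinarith
    calc m * ((T + 2) * T) ≤ m * (2 * T ^ 2) := Nat.mul_le_mul_left _ this
      _ = 2 * m * T ^ 2 := by ring
  obtain ⟨D, hD⟩ : ∃ D, D = m * ((T + 2) * T) := ⟨_, rfl⟩
  rw [← hD] at h2 ⊢
  have h3 : (T + 1) ^ q ≤ 2 ^ σ * T ^ σ := by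
    rw [← mul_pow]
    exact (Nat.pow_le_pow_left (by omega) q).trans (Nat.pow_le_pow_right (by omega) hq)
  obtain ⟨β, hβ⟩ : ∃ β, β = 2 ^ σ := ⟨_, rfl⟩
  obtain ⟨τ, hτ⟩ : ∃ τ, τ = T ^ σ := ⟨_, rfl⟩
  rw [← hβ, ← hτ] at h3
  rw [← hβ]
  have hτ1 : 1 ≤ τ := by rw [hτ]; exact Nat.one_le_pow _ _ (by omega)
  have h4 : T + 7 + 1 ≤ 5 * T := by omega
  have h5 : T + 7 ≤ 5 * T := by omega
  have h6 : (T + 7 + 1) ^ 3 * (2 * (T + 1) ^ q) ^ 3 * ((T + 7) * D) ≤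
      (5 * T) ^ 3 * (2 * (β * τ)) ^ 3 * ((5 * T) * (2 * m * T ^ 2)) := by
    gcongr
  have h7 : (5 * T) ^ 3 * (2 * (β * τ)) ^ 3 * ((5 * T) * (2 * m * T ^ 2)) =
      (10000 * m * β ^ 3) * (τ ^ 3 * T ^ 6) := by ring
  have h8 : τ ^ 3 * T ^ 6 = T ^ (3 * σ + 6) := by
    rw [hτ, ← pow_mul, ← pow_add]; congr 1; ring
  have h9 : T ^ 2 ≤ T ^ (3 * σ + 6) := Nat.pow_le_pow_right (by omega) (by omega)
  have h10 : 3 * D ≤ 6 * m * T ^ (3 * σ + 6) := by nlinarith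
  have h11 : (2 * D + (T + 7 + 1) ^ 3 * (2 * (T + 1) ^ q) ^ 3 * ((T + 7) * D)) + D ≤
      (6 * m + 10000 * m * β ^ 3) * T ^ (3 * σ + 6) := by
    rw [h7, h8] at h6
    nlinarith
  calc ((T + 2 + 1) ^ m * ((T + 2 + 1) ^ m * (T + 2 + 1) ^ m)) *
        ((2 * D + (T + 7 + 1) ^ 3 * (2 * (T + 1) ^ q) ^ 3 * ((T + 7) * D)) + D)
      ≤ ((4 ^ m * T ^ m) * ((4 ^ m * T ^ m) * (4 ^ m * T ^ m))) *
        ((6 * m + 10000 * m * β ^ 3) * T ^ (3 * σ + 6)) := by gcongr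
    _ = _ := by
      rw [show 3 * m + 3 * σ + 6 = m + m + m + (3 * σ + 6) by ring, pow_add T (m + m + m), pow_add,
        pow_add]
      ring

theorem sgen_box (m d K σ : ℕ) : ∃ C₀ e : ℕ, ∀ N : ℕ, 3 ≤ N → ∀ S : Finset ℕ, S.card ≤ σ →
    ∀ F : Fin m → MvPolynomial (Fin (d + 1)) ℤ,
      (∀ i, ((F i).totalDegree : ℝ) ≤ Real.log N ^ K) →
      ({t : Fin (d + 1) → ℤ | (∀ j, |t j| ≤ (N : ℤ)) ∧ ∃ α β γ : Fin m → ℕ,
        (∃ i, 0 < (F i).totalDegree ∧ 0 < α i + β i + γ i) ∧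
        WTri S (Real.exp (Real.log N ^ K)) (∏ i, eval t (F i) ^ α i) (∏ i, eval t (F i) ^ β i)
          (∏ i, eval t (F i) ^ γ i)}.ncard : ℝ) ≤ C₀ * (N : ℝ) ^ d * Real.log N ^ e := by
  classical
  refine ⟨3 ^ d * ((4 ^ m * (4 ^ m * 4 ^ m) * (6 * m + 10000 * m * (2 ^ σ) ^ 3)) *
    5 ^ (3 * m + 3 * σ + 6)), K * (3 * m + 3 * σ + 6), fun N hN S hS F hdeg => ?_⟩
  have hN3 : (3 : ℝ) ≤ N := by exact_mod_cast hN
  have hlog : 1 ≤ Real.log N := by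
    rw [Real.le_log_iff_exp_le (by linarith)]
    have := Real.exp_one_lt_d9
    linarith
  obtain ⟨Λ, hΛ⟩ : ∃ Λ, Λ = Real.log N ^ K := ⟨_, rfl⟩
  have hΛ1 : 1 ≤ Λ := by rw [hΛ]; exact one_le_pow₀ hlog
  rw [← hΛ] at hdeg
  obtain ⟨s, hs⟩ : ∃ s : ℕ, s = ⌈2 * Λ⌉₊ := ⟨_, rfl⟩
  have hs1 : 2 * Λ ≤ s := by rw [hs]; exact Nat.le_ceil _
  have hs2 : (s : ℝ) ≤ 5 * Λ := by
    rw [hs]
    have := Nat.ceil_lt_add_one (show 0 ≤ 2 * Λ by linarith)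
    linarith
  have hs3 : 2 ≤ s := by
    have : (2 : ℝ) ≤ s := by linarith
    exact_mod_cast this
  have hE : Real.exp Λ ≤ 2 ^ s := by
    have h4 : Λ ≤ (s : ℝ) * Real.log 2 := by
      have h5 := Real.log_two_gt_d9
      nlinarith
    calc Real.exp Λ ≤ Real.exp ((s : ℝ) * Real.log 2) := Real.exp_le_exp.mpr h4
      _ = (2 : ℝ) ^ s := by
        rw [mul_comm, Real.exp_mul, Real.exp_log (by norm_num), Real.rpow_natCast]
  have hdeg' : ∀ i, (F i).totalDegree ≤ s := fun i => by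
    have : ((F i).totalDegree : ℝ) ≤ s := by linarith [hdeg i]
    exact_mod_cast this
  obtain ⟨U, hU⟩ : ∃ U : (Fin m → Fin (s + 2 + 1)) × (Fin m → Fin (s + 2 + 1)) ×
      (Fin m → Fin (s + 2 + 1)) → Set (Fin (d + 1) → ℤ), U = fun j =>
      {t | (∀ i, |t i| ≤ (N : ℤ)) ∧ (0 < (mon F (fun i => (j.1 i : ℕ))).totalDegree ∨
        0 < (mon F (fun i => (j.2.1 i : ℕ))).totalDegree ∨
        0 < (mon F (fun i => (j.2.2 i : ℕ))).totalDegree) ∧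
        STri S s (eval t (mon F (fun i => (j.1 i : ℕ)))) (eval t (mon F (fun i => (j.2.1 i : ℕ))))
          (eval t (mon F (fun i => (j.2.2 i : ℕ))))} := ⟨_, rfl⟩
  obtain ⟨Q, hQ⟩ : ∃ Q : ℕ, Q = (2 * (m * ((s + 2) * s)) + (s + 7 + 1) ^ 3 *
      (2 * (s + 1) ^ S.card) ^ 3 * ((s + 7) * (m * ((s + 2) * s)))) + m * ((s + 2) * s) := ⟨_, rfl⟩
  have hUfin : ∀ j, (U j).Finite := by
    intro j
    rw [hU]
    exact box_finite _
  have hUc : ∀ j, ((U j).ncard : ℝ) ≤ (2 * N + 1) ^ d * Q := by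
    intro j
    by_cases hpos : 0 < (mon F (fun i => (j.1 i : ℕ))).totalDegree ∨
        0 < (mon F (fun i => (j.2.1 i : ℕ))).totalDegree ∨
        0 < (mon F (fun i => (j.2.2 i : ℕ))).totalDegree
    · have hb : ∀ (a : Fin m → Fin (s + 2 + 1)) (i : Fin m), (a i : ℕ) ≤ s + 2 := fun a i => by
        have := (a i).2
        omega
      have hd := fun a : Fin m → Fin (s + 2 + 1) =>
        mon_degree F (fun i => (a i : ℕ)) (hb a) hdeg'
      have h1 := stri_box (mon F (fun i => (j.1 i : ℕ))) (mon F (fun i => (j.2.1 i : ℕ)))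
        (mon F (fun i => (j.2.2 i : ℕ))) hpos (S := S) (T := s) (N := N)
        (hd j.1) (hd j.2.1) (hd j.2.2)
      refine le_trans ?_ (h1.trans (le_of_eq ?_))
      · have hsub : U j ⊆ {t : Fin (d + 1) → ℤ | (∀ i, |t i| ≤ (N : ℤ)) ∧
            STri S s (eval t (mon F (fun i => (j.1 i : ℕ)))) (eval t (mon F (fun i => (j.2.1 i : ℕ))))
              (eval t (mon F (fun i => (j.2.2 i : ℕ))))} := by
          rw [hU]
          rintro t ⟨h2, -, h3⟩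
          exact ⟨h2, h3⟩
        exact_mod_cast Set.ncard_le_ncard hsub (box_finite _)
      · rw [hQ]
        push_cast
        ring
    · have : U j = ∅ := by
        rw [hU]
        ext t
        simp only [Set.mem_ofPred_eq, Set.mem_empty_iff_false, iff_false]
        rintro ⟨-, h2, -⟩
        exact hpos h2
      rw [this, Set.ncard_empty, Nat.cast_zero]
      positivity
  have hcov : {t : Fin (d + 1) → ℤ | (∀ j, |t j| ≤ (N : ℤ)) ∧ ∃ α β γ : Fin m → ℕ,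
        (∃ i, 0 < (F i).totalDegree ∧ 0 < α i + β i + γ i) ∧
        WTri S (Real.exp Λ) (∏ i, eval t (F i) ^ α i) (∏ i, eval t (F i) ^ β i)
          (∏ i, eval t (F i) ^ γ i)} ⊆
      ⋃ j ∈ (univ : Finset ((Fin m → Fin (s + 2 + 1)) × (Fin m → Fin (s + 2 + 1)) ×
        (Fin m → Fin (s + 2 + 1)))), U j := by
    rintro t ⟨ht, a, b, c, ⟨i, hi, hpos⟩, p, q, r, l, k, n, hsol, w1, w2, w3⟩
    have u1 := natAbs_le_of_abs w1 hE
    have u2 := natAbs_le_of_abs w2 hE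
    have u3 := natAbs_le_of_abs w3 hE
    obtain ⟨a', ha1, ha2, ha3⟩ := reduce (fun i => eval t (F i)) a hsol.x0
      (natAbs_base hsol.l0 (natAbs_le_mul hsol.a1.1 u1))
    obtain ⟨b', hb1, hb2, hb3⟩ := reduce (fun i => eval t (F i)) b hsol.y0
      (natAbs_base hsol.m0 (natAbs_le_mul hsol.b1.1 u2))
    obtain ⟨c', hc1, hc2, hc3⟩ := reduce (fun i => eval t (F i)) c hsol.z0
      (natAbs_base hsol.r0 (natAbs_le_mul hsol.c1.1 u3))
    have ea : eval t (mon F a') = ∏ i, eval t (F i) ^ a i := by rw [mon_eval]; exact ha3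
    have eb : eval t (mon F b') = ∏ i, eval t (F i) ^ b i := by rw [mon_eval]; exact hb3
    have ec : eval t (mon F c') = ∏ i, eval t (F i) ^ c i := by rw [mon_eval]; exact hc3
    rw [Set.mem_iUnion₂]
    refine ⟨((fun i => ⟨a' i, by have := ha1 i; omega⟩), (fun i => ⟨b' i, by have := hb1 i; omega⟩),
      (fun i => ⟨c' i, by have := hc1 i; omega⟩)), mem_univ _, ?_⟩
    rw [hU]
    refine ⟨ht, ?_, ?_⟩
    · have hne : ∀ {x : Fin m → ℕ}, eval t (mon F x) ≠ 0 → mon F x ≠ 0 := by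
        intro x hx h0
        exact hx (by rw [h0, map_zero])
      have h3 : 0 < a i ∨ 0 < b i ∨ 0 < c i := by omega
      rcases h3 with h3 | h3 | h3
      · exact Or.inl (mon_pos F a' (hne (by rw [ea]; exact hsol.x0)) hi (ha2 i h3))
      · exact Or.inr (Or.inl (mon_pos F b' (hne (by rw [eb]; exact hsol.y0)) hi (hb2 i h3)))
      · exact Or.inr (Or.inr (mon_pos F c' (hne (by rw [ec]; exact hsol.z0)) hi (hc2 i h3)))
    · simp only
      rw [ea, eb, ec]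
      exact ⟨p, q, r, l, k, n, hsol, u1, u2, u3⟩
  rw [← hΛ]
  have hfinU : (⋃ j ∈ (univ : Finset ((Fin m → Fin (s + 2 + 1)) × (Fin m → Fin (s + 2 + 1)) ×
        (Fin m → Fin (s + 2 + 1)))), U j).Finite :=
    (univ : Finset _).finite_toSet.biUnion fun j _ => hUfin j
  have h1 := (Set.ncard_le_ncard hcov hfinU).trans (Finset.set_ncard_biUnion_le _ _)
  have h2 : ((∑ j ∈ (univ : Finset ((Fin m → Fin (s + 2 + 1)) × (Fin m → Fin (s + 2 + 1)) ×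
        (Fin m → Fin (s + 2 + 1)))), (U j).ncard : ℕ) : ℝ) ≤
      ((s + 2 + 1) ^ m * ((s + 2 + 1) ^ m * (s + 2 + 1) ^ m) : ℕ) * ((2 * N + 1) ^ d * Q) := by
    push_cast
    calc ∑ j ∈ (univ : Finset ((Fin m → Fin (s + 2 + 1)) × (Fin m → Fin (s + 2 + 1)) ×
        (Fin m → Fin (s + 2 + 1)))), ((U j).ncard : ℝ) ≤ ∑ _j ∈ (univ : Finset ((Fin m →
          Fin (s + 2 + 1)) × (Fin m → Fin (s + 2 + 1)) × (Fin m → Fin (s + 2 + 1)))),
          ((2 * (N : ℝ) + 1) ^ d * Q) := sum_le_sum fun j _ => hUc j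
      _ = _ := by
        rw [sum_const, card_univ, Fintype.card_prod, Fintype.card_prod, Fintype.card_fun,
          Fintype.card_fin, Fintype.card_fin, nsmul_eq_mul]
        push_cast
        ring
  have h3 := snumbers m σ s S.card hs3 hS
  rw [← hQ] at h3
  obtain ⟨A, hA⟩ : ∃ A : ℕ, A = 4 ^ m * (4 ^ m * 4 ^ m) * (6 * m + 10000 * m * (2 ^ σ) ^ 3) :=
    ⟨_, rfl⟩
  obtain ⟨E, hE'⟩ : ∃ E : ℕ, E = 3 * m + 3 * σ + 6 := ⟨_, rfl⟩
  rw [← hA, ← hE'] at h3 ⊢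
  have h3' : (((s + 2 + 1) ^ m * ((s + 2 + 1) ^ m * (s + 2 + 1) ^ m) : ℕ) : ℝ) * Q ≤
      A * (s : ℝ) ^ E := by exact_mod_cast h3
  have h4 : (2 * (N : ℝ) + 1) ^ d ≤ 3 ^ d * (N : ℝ) ^ d := by
    rw [← mul_pow]
    exact pow_le_pow_left₀ (by positivity) (by linarith) d
  calc _ ≤ ((∑ j ∈ (univ : Finset ((Fin m → Fin (s + 2 + 1)) × (Fin m → Fin (s + 2 + 1)) ×
        (Fin m → Fin (s + 2 + 1)))), (U j).ncard : ℕ) : ℝ) := by exact_mod_cast h1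
    _ ≤ _ := h2
    _ = (2 * (N : ℝ) + 1) ^ d * ((((s + 2 + 1) ^ m * ((s + 2 + 1) ^ m * (s + 2 + 1) ^ m) : ℕ) : ℝ) *
      Q) := by ring
    _ ≤ (3 ^ d * (N : ℝ) ^ d) * (A * (5 * Λ) ^ E) := by
      have h5 : (s : ℝ) ^ E ≤ (5 * Λ) ^ E := pow_le_pow_left₀ (Nat.cast_nonneg _) hs2 E
      have h6 : (A : ℝ) * (s : ℝ) ^ E ≤ A * (5 * Λ) ^ E :=
        mul_le_mul_of_nonneg_left h5 (Nat.cast_nonneg _)
      exact mul_le_mul h4 (h3'.trans h6) (by positivity) (by positivity)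
    _ = _ := by
      rw [mul_pow 5 Λ E, hΛ, ← pow_mul]
      push_cast
      ring

end Pool.Agent.Helper82.SU
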