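import Mathlib
import Pool.Agent.N741.PB.Expo

/-!
# Coefficients composed of the primes of a finite set
-/

set_option autoImplicit false

namespace Pool.Agent.Helper82.SU

open Finset

/-- nonzero integers all of whose prime divisors belong to `S` -/
def SU (S : Finset ℕ) (a : ℤ) : Prop := a ≠ 0 ∧ ∀ p : ℕ, p.Prime → (p : ℤ) ∣ a → p ∈ S

theorem SU.mul {S : Finset ℕ} {a b : ℤ} (ha : SU S a) (hb : SU S b) : SU S (a * b) := by
  refine ⟨mul_ne_zero ha.1 hb.1, fun p hp h => ?_⟩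
  rcases (Nat.prime_iff_prime_int.1 hp).dvd_or_dvd h with h | h
  · exact ha.2 p hp h
  · exact hb.2 p hp h

theorem SU.pow {S : Finset ℕ} {a : ℤ} (ha : SU S a) (n : ℕ) : SU S (a ^ n) :=
  ⟨pow_ne_zero _ ha.1, fun p hp h => ha.2 p hp ((Nat.prime_iff_prime_int.1 hp).dvd_of_dvd_pow h)⟩

open Classical in
/-- those of absolute value at most `2 ^ T` -/
noncomputable def units (S : Finset ℕ) (T : ℕ) : Finset ℤ :=
  (Finset.Icc (-(2 ^ T : ℤ)) (2 ^ T)).filter (SU S)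

theorem mem_units {S : Finset ℕ} {T : ℕ} {a : ℤ} (h : SU S a) (ha : a.natAbs ≤ 2 ^ T) :
    a ∈ units S T := by
  classical
  unfold units
  rw [mem_filter, mem_Icc, ← abs_le, Int.abs_eq_natAbs]
  exact ⟨by exact_mod_cast ha, h⟩

theorem units_spec {S : Finset ℕ} {T : ℕ} {a : ℤ} (h : a ∈ units S T) :
    SU S a ∧ a.natAbs ≤ 2 ^ T := by
  classical
  unfold units at h
  rw [mem_filter, mem_Icc, ← abs_le, Int.abs_eq_natAbs] at h
  exact ⟨h.2, by exact_mod_cast h.1⟩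

theorem units_card (S : Finset ℕ) (T : ℕ) : (units S T).card ≤ 2 * (T + 1) ^ S.card := by
  classical
  have hfac : ∀ a ∈ units S T, ∀ p : ℕ, a.natAbs.factorization p < T + 1 := by
    intro a ha p
    obtain ⟨h1, h2⟩ := units_spec ha
    by_cases hp : p.Prime
    · refine Nat.lt_succ_of_le (Nat.factorization_le_of_le_pow ?_)
      exact h2.trans (Nat.pow_le_pow_left hp.two_le _)
    · rw [Nat.factorization_eq_zero_of_not_prime _ hp]
      omega
  let φ : ℤ → Bool × (S → ℕ) := fun a => (decide (0 < a), fun p => a.natAbs.factorization p)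
  have h1 : (units S T).card ≤ ((Finset.univ : Finset Bool) ×ˢ
      (Fintype.piFinset fun _ : S => range (T + 1))).card := by
    refine Finset.card_le_card_of_injOn φ ?_ ?_
    · intro a ha
      rw [Finset.mem_coe, mem_product, Fintype.mem_piFinset]
      exact ⟨mem_univ _, fun p => mem_range.2 (hfac a ha p)⟩
    · intro a ha b hb hab
      obtain ⟨⟨ha0, haS⟩, -⟩ := units_spec ha
      obtain ⟨⟨hb0, hbS⟩, -⟩ := units_spec hb
      simp only [φ, Prod.mk.injEq, decide_eq_decide] at hab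
      obtain ⟨hs, hf⟩ := hab
      have hnot : ∀ c : ℤ, c ≠ 0 → (∀ p : ℕ, p.Prime → (p : ℤ) ∣ c → p ∈ S) →
          ∀ p : ℕ, p ∉ S → c.natAbs.factorization p = 0 := by
        intro c _ hc p hp
        by_contra hne
        have hmem : p ∈ c.natAbs.primeFactors := by
          rw [← Nat.support_factorization, Finsupp.mem_support_iff]
          exact hne
        exact hp (hc p (Nat.prime_of_mem_primeFactors hmem)
          (Int.natCast_dvd.2 (Nat.dvd_of_mem_primeFactors hmem)))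
      have heq : a.natAbs = b.natAbs := by
        refine Nat.eq_of_factorization_eq (Int.natAbs_ne_zero.2 ha0) (Int.natAbs_ne_zero.2 hb0)
          fun p => ?_
        by_cases hp : p ∈ S
        · exact congrFun hf ⟨p, hp⟩
        · rw [hnot a ha0 haS p hp, hnot b hb0 hbS p hp]
      rcases Int.natAbs_eq_natAbs_iff.1 heq with h | h
      · exact h
      · exfalso
        omega
  refine h1.trans (le_of_eq ?_)
  rw [card_product, Fintype.card_piFinset]
  simp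

theorem natAbs_two_pow {x : ℤ} {l T : ℕ} (hx : 2 ≤ x.natAbs) (h : (x ^ l).natAbs ≤ 2 ^ T) :
    l ≤ T := by
  rw [Int.natAbs_pow] at h
  by_contra hlt
  have h1 : 2 ^ T < 2 ^ l := Nat.pow_lt_pow_right (by norm_num) (by omega)
  have h2 : 2 ^ l ≤ x.natAbs ^ l := Nat.pow_le_pow_left hx _
  omega

/-- `a x ^ l + b y ^ m = c z ^ r` with coefficients composed of primes of `S` -/
structure Sol (S : Finset ℕ) (a b c x y z : ℤ) (l m r : ℕ) : Prop where
  a1 : SU S a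
  b1 : SU S b
  c1 : SU S c
  x0 : x ≠ 0
  y0 : y ≠ 0
  z0 : z ≠ 0
  cop : IsCoprime (a * x) (b * y)
  l0 : 0 < l
  m0 : 0 < m
  r0 : 0 < r
  le : m * r + r * l + l * m ≤ l * m * r
  eq : a * x ^ l + b * y ^ m = c * z ^ r

theorem Sol.two_le {S : Finset ℕ} {a b c x y z : ℤ} {l m r : ℕ} (h : Sol S a b c x y z l m r) :
    2 ≤ l ∧ 2 ≤ m ∧ 2 ≤ r := Pool.Agent.N741.PB.two_le_of h.l0 h.m0 h.r0 h.le

theorem natAbs_le_mul {a b : ℤ} (ha : a ≠ 0) {C : ℕ} (h : (a * b).natAbs ≤ C) : b.natAbs ≤ C := by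
  rw [Int.natAbs_mul] at h
  exact (Nat.le_mul_of_pos_left _ (Int.natAbs_pos.2 ha)).trans h

theorem natAbs_le_mul' {a b : ℤ} (hb : b ≠ 0) {C : ℕ} (h : (a * b).natAbs ≤ C) : a.natAbs ≤ C := by
  rw [mul_comm] at h
  exact natAbs_le_mul hb h

theorem natAbs_base {x : ℤ} {l C : ℕ} (hl : 0 < l) (h : (x ^ l).natAbs ≤ C) : x.natAbs ≤ C := by
  rw [Int.natAbs_pow] at h
  exact (Nat.le_self_pow hl.ne' _).trans h

/-- the exponents of the first two bases may be assumed small -/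
theorem Sol.red12 {S : Finset ℕ} {a b c x y z : ℤ} {l m r : ℕ} (h : Sol S a b c x y z l m r)
    {T : ℕ} (h1 : (a * x ^ l).natAbs ≤ 2 ^ T) (h2 : (b * y ^ m).natAbs ≤ 2 ^ T) :
    ∃ (l' m' : ℕ), Sol S a b c x y z l' m' r ∧ l' ≤ T + 7 ∧ m' ≤ T + 7 ∧
      x ^ l' = x ^ l ∧ y ^ m' = y ^ m := by
  have hx := natAbs_le_mul h.a1.1 h1
  have hy := natAbs_le_mul h.b1.1 h2
  obtain ⟨l', hl', el, s1⟩ : ∃ l', l' ≤ T + 7 ∧ x ^ l' = x ^ l ∧ Sol S a b c x y z l' m r := by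
    rcases Nat.lt_or_ge x.natAbs 2 with g1 | g1
    · have g2 : x.natAbs = 1 := by
        have := Int.natAbs_pos.mpr h.x0
        omega
      have g3 := Pool.Agent.N741.PB.unit_pow g2 l
      refine ⟨6 + l % 2, by omega, g3, h.a1, h.b1, h.c1, h.x0, h.y0, h.z0, h.cop, by omega, h.m0,
        h.r0, ?_, ?_⟩
      · have := Pool.Agent.N741.PB.third_exp (k' := 6 + l % 2) h.m0 h.r0
          (by have := h.le; nlinarith : r * l + l * m + m * r ≤ m * r * l) (by omega)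
        nlinarith
      · rw [g3]; exact h.eq
    · exact ⟨l, (natAbs_two_pow g1 hx).trans (Nat.le_add_right _ _), rfl, h⟩
  obtain ⟨m', hm', em, s2⟩ : ∃ m', m' ≤ T + 7 ∧ y ^ m' = y ^ m ∧ Sol S a b c x y z l' m' r := by
    rcases Nat.lt_or_ge y.natAbs 2 with g1 | g1
    · have g2 : y.natAbs = 1 := by
        have := Int.natAbs_pos.mpr h.y0
        omega
      have g3 := Pool.Agent.N741.PB.unit_pow g2 m
      refine ⟨6 + m % 2, by omega, g3, h.a1, h.b1, h.c1, h.x0, h.y0, h.z0, h.cop, s1.l0, by omega,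
        h.r0, ?_, ?_⟩
      · have := Pool.Agent.N741.PB.third_exp (k' := 6 + m % 2) s1.r0 s1.l0
          (by have := s1.le; nlinarith : l' * m + m * r + r * l' ≤ r * l' * m) (by omega)
        nlinarith
      · rw [g3]; exact s1.eq
    · exact ⟨m, (natAbs_two_pow g1 hy).trans (Nat.le_add_right _ _), rfl, s1⟩
  exact ⟨l', m', s2, hl', hm', el, em⟩

/-- the exponents may be assumed small -/
theorem Sol.red {S : Finset ℕ} {a b c x y z : ℤ} {l m r : ℕ} (h : Sol S a b c x y z l m r)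
    {T R P : ℕ} (hP : P.Prime) (hP7 : 7 ≤ P) (hPR : R ≤ P)
    (hr : ∀ p : ℕ, p.Prime → p ∣ r → R ≤ p) (h1 : (a * x ^ l).natAbs ≤ 2 ^ T)
    (h2 : (b * y ^ m).natAbs ≤ 2 ^ T) (h3 : (c * z ^ r).natAbs ≤ 2 ^ T) :
    ∃ (z' : ℤ) (l' m' r' : ℕ), Sol S a b c x y z' l' m' r' ∧ l' ≤ T + 7 ∧ m' ≤ T + 7 ∧
      r' ≤ T + P ∧ (∀ p : ℕ, p.Prime → p ∣ r' → R ≤ p) ∧ z'.natAbs ≤ 2 ^ T ∧
      x ^ l' = x ^ l ∧ y ^ m' = y ^ m ∧ z' ^ r' = z ^ r := by
  have hz := natAbs_le_mul h.c1.1 h3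
  obtain ⟨l', m', s2, hl', hm', el, em⟩ := h.red12 h1 h2
  rcases Nat.lt_or_ge z.natAbs 2 with g1 | g1
  · have g2 : z.natAbs = 1 := by
      have := Int.natAbs_pos.mpr h.z0
      omega
    have g4 : z = 1 ∨ z = -1 := Int.natAbs_eq_iff.mp g2
    have hodd : Odd P := hP.odd_of_ne_two (by omega)
    have g5 : z ^ r = 1 ∨ z ^ r = -1 := by
      rcases g4 with g4 | g4
      · rw [g4, one_pow]; exact Or.inl rfl
      · rw [g4]; exact neg_one_pow_eq_or ℤ r
    have g6 : (z ^ r) ^ P = z ^ r := by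
      rcases g5 with g5 | g5
      · rw [g5, one_pow]
      · rw [g5, hodd.neg_one_pow]
    refine ⟨z ^ r, l', m', P, ⟨h.a1, h.b1, h.c1, h.x0, h.y0, pow_ne_zero _ h.z0, h.cop, s2.l0,
      s2.m0, hP.pos, ?_, ?_⟩, hl', hm', by omega, ?_, hz, el, em, g6⟩
    · exact Pool.Agent.N741.PB.third_exp s2.l0 s2.m0 s2.le (by omega)
    · rw [g6]; exact s2.eq
    · intro p hp hpP
      rw [(Nat.prime_dvd_prime_iff_eq hp hP).mp hpP]; exact hPR
  · exact ⟨z, l', m', r, s2, hl', hm', (natAbs_two_pow g1 hz).trans (Nat.le_add_right _ _), hr,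
      natAbs_base h.r0 hz, el, em, rfl⟩

/-- pairwise coprimality from the condition on the three bases and coefficients -/
theorem cop_of_gcd {a b c x y z : ℤ} {l m r : ℕ} (hl : 0 < l) (hm : 0 < m)
    (hg : Int.gcd (a * x) (Int.gcd (b * y) (c * z)) = 1)
    (he : a * x ^ l + b * y ^ m = c * z ^ r) : IsCoprime (a * x) (b * y) := by
  rw [Int.isCoprime_iff_gcd_eq_one]
  by_contra hne
  obtain ⟨p, hp, hpd⟩ := Nat.exists_prime_and_dvd hne
  have hp' : Prime (p : ℤ) := Nat.prime_iff_prime_int.1 hp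
  have h1 : (p : ℤ) ∣ a * x := (Int.natCast_dvd_natCast.2 hpd).trans (Int.gcd_dvd_left _ _)
  have h2 : (p : ℤ) ∣ b * y := (Int.natCast_dvd_natCast.2 hpd).trans (Int.gcd_dvd_right _ _)
  have aux : ∀ (u v : ℤ) (k : ℕ), 0 < k → (p : ℤ) ∣ u * v → (p : ℤ) ∣ u * v ^ k := by
    intro u v k hk h
    obtain ⟨j, rfl⟩ : ∃ j, k = j + 1 := ⟨k - 1, by omega⟩
    rw [pow_succ, mul_left_comm]
    exact h.mul_left _
  have aux2 : ∀ (u v : ℤ) (k : ℕ), (p : ℤ) ∣ u * v ^ k → (p : ℤ) ∣ u * v := by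
    intro u v k h
    rcases hp'.dvd_or_dvd h with h | h
    · exact h.mul_right _
    · exact (hp'.dvd_of_dvd_pow h).mul_left _
  have h3 : (p : ℤ) ∣ c * z := by
    apply aux2 c z r
    rw [← he]
    exact dvd_add (aux _ _ _ hl h1) (aux _ _ _ hm h2)
  have h4 : (p : ℤ) ∣ ((Int.gcd (a * x) (Int.gcd (b * y) (c * z)) : ℕ) : ℤ) :=
    Int.dvd_coe_gcd h1 (Int.dvd_coe_gcd h2 h3)
  rw [hg] at h4
  exact hp'.not_dvd_one (by exact_mod_cast h4)

/-- two bases of a solution with terms at most `W`, the exponent of the third base has no prime factor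
smaller than `R` -/
def SPair (S : Finset ℕ) (R : ℕ) (W : ℝ) (x y : ℤ) : Prop := ∃ (a b c z : ℤ) (l m r : ℕ),
  Sol S a b c x y z l m r ∧ (∀ p : ℕ, p.Prime → p ∣ r → R ≤ p) ∧
    |((a * x ^ l : ℤ) : ℝ)| ≤ W ∧ |((b * y ^ m : ℤ) : ℝ)| ≤ W ∧ |((c * z ^ r : ℤ) : ℝ)| ≤ W

theorem natAbs_le_of_abs {t : ℤ} {W : ℝ} {T : ℕ} (h : |(t : ℝ)| ≤ W) (hW : W ≤ 2 ^ T) :
    t.natAbs ≤ 2 ^ T := by
  have h1 : ((t.natAbs : ℕ) : ℝ) ≤ 2 ^ T := by
    rw [Nat.cast_natAbs, Int.cast_abs]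
    exact h.trans hW
  exact_mod_cast h1

end Pool.Agent.Helper82.SU
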