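import Pool.Agent.N741.PB.Line
import Pool.Agent.N741.PB.Par
import Pool.Agent.Helper82.SU.Unit

/-!
# Two bases given by polynomials in one variable, with coefficients composed of few primes
-/

set_option autoImplicit false

namespace Pool.Agent.Helper82.SU

open Finset Polynomial Filter Topology Pool.Agent.N741.PB

/-- the left side of the equation, times `d` -/
noncomputable def Sf (f g : ℤ[X]) (a b d : ℤ) (l m : ℕ) : ℤ[X] := C d * (C a * f ^ l + C b * g ^ m)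

theorem sf_natDegree {f g : ℤ[X]} {l m B D : ℕ} {a b d : ℤ} (hl : l ≤ B) (hm : m ≤ B)
    (hD : f.natDegree ≤ D) (hD' : g.natDegree ≤ D) : (Sf f g a b d l m).natDegree ≤ B * D := by
  have h1 : ∀ {P : ℤ[X]} {i : ℕ} {c : ℤ}, i ≤ B → P.natDegree ≤ D →
      (C c * P ^ i).natDegree ≤ B * D := by
    intro P i c hi hP
    exact (natDegree_C_mul_le _ _).trans (natDegree_pow_le.trans (Nat.mul_le_mul hi hP))
  unfold Sf
  exact (natDegree_C_mul_le _ _).trans ((natDegree_add_le _ _).trans (max_le (h1 hl hD) (h1 hm hD')))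

/-- the left side is not a perfect power -/
theorem sf_not_pow {f g : ℤ[X]} (hf0 : f ≠ 0) (hg : g ≠ 0) (hfg : 0 < f.natDegree ∨ 0 < g.natDegree)
    (hcop : IsCoprime (f.map (Int.castRingHom ℚ)) (g.map (Int.castRingHom ℚ))) {l m k : ℕ}
    (hl : 0 < l) (hm : 0 < m) (hk : 0 < k) (hineq : m * k + k * l + l * m ≤ l * m * k) {a b d : ℤ}
    (ha : a ≠ 0) (hb : b ≠ 0) (hd : d ≠ 0) :
    ¬ ∃ G : ℚ[X], (Sf f g a b d l m).map (Int.castRingHom ℚ) = G ^ k := by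
  have hinj : Function.Injective (Int.castRingHom ℚ) := (Int.castRingHom ℚ).injective_int
  have hne : ∀ {P : ℤ[X]}, P ≠ 0 → P.map (Int.castRingHom ℚ) ≠ 0 := fun {P} hP =>
    (Polynomial.map_ne_zero_iff hinj).mpr hP
  have hz : ∀ {c : ℤ}, c ≠ 0 → (Int.castRingHom ℚ) c ≠ 0 := fun {c} hc => by
    rw [eq_intCast]
    exact_mod_cast hc
  have hdeg0 : ∀ {P : ℤ[X]}, IsUnit (P.map (Int.castRingHom ℚ)) → P.natDegree = 0 := by
    intro P h
    have h1 := natDegree_eq_zero_of_isUnit h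
    rwa [natDegree_map_eq_of_injective hinj] at h1
  rintro ⟨G, hG⟩
  obtain ⟨a', ha'⟩ : ∃ a', a' = (Int.castRingHom ℚ) a := ⟨_, rfl⟩
  obtain ⟨b', hb'⟩ : ∃ b', b' = (Int.castRingHom ℚ) b := ⟨_, rfl⟩
  obtain ⟨d', hd'⟩ : ∃ d', d' = (Int.castRingHom ℚ) d := ⟨_, rfl⟩
  have ha0 : a' ≠ 0 := by rw [ha']; exact hz ha
  have hb0 : b' ≠ 0 := by rw [hb']; exact hz hb
  have hd0 : d' ≠ 0 := by rw [hd']; exact hz hd
  simp only [Sf, Polynomial.map_add, Polynomial.map_mul, Polynomial.map_pow, map_C] at hG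
  rw [← ha', ← hb', ← hd'] at hG
  have hdd : (C d'⁻¹ * C d' : ℚ[X]) = 1 := by rw [← C_mul, inv_mul_cancel₀ hd0, C_1]
  have haa : (C a'⁻¹ * C a' : ℚ[X]) = 1 := by rw [← C_mul, inv_mul_cancel₀ ha0, C_1]
  have hbb : (C b'⁻¹ * C b' : ℚ[X]) = 1 := by rw [← C_mul, inv_mul_cancel₀ hb0, C_1]
  by_cases hG0 : G = 0
  · rw [hG0, zero_pow hk.ne'] at hG
    have h0 : C a' * (f.map (Int.castRingHom ℚ)) ^ l + C b' * (g.map (Int.castRingHom ℚ)) ^ m = 0 := by
      rcases mul_eq_zero.1 hG with h | h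
      · exact absurd (C_eq_zero.1 h) hd0
      · exact h
    have e1 := hdeg0 (unit_of_zero (s := C (a'⁻¹ * b')) hcop
      (isUnit_C.2 (isUnit_iff_ne_zero.2 (mul_ne_zero (inv_ne_zero ha0) hb0))) hl (by
        rw [C_mul]
        linear_combination C a'⁻¹ * h0 - (f.map (Int.castRingHom ℚ)) ^ l * haa) (m := m))
    have e2 := hdeg0 (unit_of_zero (s := C (b'⁻¹ * a')) hcop.symm
      (isUnit_C.2 (isUnit_iff_ne_zero.2 (mul_ne_zero (inv_ne_zero hb0) ha0))) hm (by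
        rw [C_mul]
        linear_combination C b'⁻¹ * h0 - (g.map (Int.castRingHom ℚ)) ^ m * hbb) (m := l))
    omega
  · have h2 := Polynomial.flt_catalan (k := ℚ) hl.ne' hm.ne' hk.ne' hineq
      (by exact_mod_cast hl.ne') (by exact_mod_cast hm.ne') (by exact_mod_cast hk.ne')
      (hne hf0) (hne hg) hG0 hcop (u := a') (v := b') (w := -d'⁻¹) ha0 hb0
      (neg_ne_zero.2 (inv_ne_zero hd0)) (by
        rw [C_neg, ← hG]
        linear_combination (-(C a' * f.map (Int.castRingHom ℚ) ^ l +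
          C b' * g.map (Int.castRingHom ℚ) ^ m)) * hdd)
    rw [natDegree_map_eq_of_injective hinj, natDegree_map_eq_of_injective hinj] at h2
    omega

/-- the index set of the equations with exponents at most `B` -/
noncomputable def SIdx (S : Finset ℕ) (T B R : ℕ) : Finset ((ℕ × ℕ × ℕ) × (ℤ × ℤ × ℤ)) :=
  ((range (B + 1) ×ˢ range (B + 1) ×ˢ range (B + 1)).filter (fun e : ℕ × ℕ × ℕ =>
    0 < e.1 ∧ 0 < e.2.1 ∧ 0 < e.2.2 ∧ e.2.1 * e.2.2 + e.2.2 * e.1 + e.1 * e.2.1 ≤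
      e.1 * e.2.1 * e.2.2 ∧ ∀ p < R, p.Prime → ¬ p ∣ e.2.2)) ×ˢ
        (units S T ×ˢ (units S T ×ˢ units S T))

theorem sidx_card (S : Finset ℕ) (T B R : ℕ) :
    (SIdx S T B R).card ≤ (B + 1) ^ 3 * (2 * (T + 1) ^ S.card) ^ 3 := by
  unfold SIdx
  rw [card_product, card_product, card_product]
  have h0 := units_card S T
  refine Nat.mul_le_mul ?_ ?_
  · refine (card_filter_le _ _).trans ?_
    rw [card_product, card_product, card_range]
    apply le_of_eq; ring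
  · calc (units S T).card * ((units S T).card * (units S T).card) ≤
        (2 * (T + 1) ^ S.card) * ((2 * (T + 1) ^ S.card) * (2 * (T + 1) ^ S.card)) :=
          Nat.mul_le_mul h0 (Nat.mul_le_mul h0 h0)
      _ = _ := by ring

theorem sline_count {f g : ℤ[X]} (hfg : 0 < f.natDegree ∨ 0 < g.natDegree)
    {R P T N a D X X₁ B : ℕ} (hR : 1 ≤ R) (hP : P.Prime) (hP7 : 7 ≤ P) (hPR : R ≤ P)
    (hN : 1 ≤ N) (hDf : f.natDegree ≤ D) (hDg : g.natDegree ≤ D) (S : Finset ℕ)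
    {𝒬 : Finset ℕ} (h𝒬 : ∀ r ∈ 𝒬, r.Prime ∧ X ≤ r ∧ r ≤ X₁) (hB : B = T + P) (hBX : B < X)
    (hWX : 2 ^ (2 * T) < X ^ 𝒬.card)
    (hbig : N ^ a * (2 ^ (2 * T)) ^ (R - 1) * (R * (a + 1)) ^ 2 < X ^ (R * (a + 1) - 1))
    (V : Finset ℤ) (hV : ∀ n ∈ V, |n| ≤ N ∧ SPair S R ((2 ^ T : ℕ) : ℝ) (f.eval n) (g.eval n)) :
    V.card ≤ 2 * D + (B + 1) ^ 3 * (2 * (T + 1) ^ S.card) ^ 3 *
      (𝒬.card * (X₁ * (B * (B * a + R * (B * D))))) := by
  classical
  rcases V.eq_empty_or_nonempty with hTe | ⟨n₀, hn₀⟩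
  · rw [hTe, card_empty]; exact Nat.zero_le _
  have hf0 : f ≠ 0 := by
    rintro rfl
    obtain ⟨-, a, b, c, z, l, m, k, h, -⟩ := hV n₀ hn₀
    exact h.x0 (by simp)
  have hg0 : g ≠ 0 := by
    rintro rfl
    obtain ⟨-, a, b, c, z, l, m, k, h, -⟩ := hV n₀ hn₀
    exact h.y0 (by simp)
  by_cases hcop : IsCoprime (f.map (Int.castRingHom ℚ)) (g.map (Int.castRingHom ℚ))
  swap
  · have h1 := unit_values hf0 hcop V (fun n hn => by
      obtain ⟨-, a, b, c, z, l, m, k, h, -⟩ := hV n hn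
      exact h.cop.of_mul_left_right.of_mul_right_right)
    have : V.card ≤ 2 * D := h1.trans (Nat.mul_le_mul_left _ hDf)
    exact this.trans (Nat.le_add_right _ _)
  set A : (ℕ × ℕ × ℕ) × (ℤ × ℤ × ℤ) → Finset ℤ := fun e => V.filter (fun n : ℤ => ∃ w : ℤ, w ≠ 0 ∧
    |w| ≤ ((2 ^ (2 * T) : ℕ) : ℤ) ∧ w ^ e.1.2.2 =
      (Sf f g e.2.1 e.2.2.1 (e.2.2.2 ^ (e.1.2.2 - 1)) e.1.1 e.1.2.1).eval n) with hA
  have hnat : ∀ t : ℤ, |((t : ℤ) : ℝ)| ≤ ((2 ^ T : ℕ) : ℝ) → t.natAbs ≤ 2 ^ T := by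
    intro t ht
    refine natAbs_le_of_abs ht (le_of_eq ?_)
    push_cast
    rfl
  have hsub : V ⊆ (SIdx S T B R).biUnion A := by
    intro n hn
    obtain ⟨hnN, a, b, c, z, l, m, k, h, hk, t1, t2, t3⟩ := hV n hn
    obtain ⟨z', l', m', k', h', b1, b2, b3, hkR, hz', e1, e2, e3⟩ :=
      h.red hP hP7 hPR hk (hnat _ t1) (hnat _ t2) (hnat _ t3)
    have ua : a.natAbs ≤ 2 ^ T := natAbs_le_mul' (pow_ne_zero _ h.x0) (hnat _ t1)
    have ub : b.natAbs ≤ 2 ^ T := natAbs_le_mul' (pow_ne_zero _ h.y0) (hnat _ t2)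
    have uc : c.natAbs ≤ 2 ^ T := natAbs_le_mul' (pow_ne_zero _ h.z0) (hnat _ t3)
    rw [mem_biUnion]
    refine ⟨((l', m', k'), (a, b, c)), ?_, ?_⟩
    · simp only [SIdx, mem_product, mem_filter, mem_range]
      refine ⟨⟨⟨by omega, by omega, by omega⟩, h'.l0, h'.m0, h'.r0, h'.le, ?_⟩,
        mem_units h.a1 ua, mem_units h.b1 ub, mem_units h.c1 uc⟩
      intro p hpR hp hpk
      have := hkR p hp hpk
      omega
    · simp only [hA, mem_filter]
      refine ⟨hn, c * z', mul_ne_zero h.c1.1 h'.z0, ?_, ?_⟩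
      · rw [Int.abs_eq_natAbs, Int.natAbs_mul]
        have : c.natAbs * z'.natAbs ≤ 2 ^ (2 * T) := by
          rw [two_mul, pow_add]
          exact Nat.mul_le_mul uc hz'
        exact_mod_cast this
      · simp only [Sf, eval_mul, eval_add, eval_C, eval_pow]
        rw [h'.eq, mul_pow, ← mul_assoc, ← pow_succ, Nat.sub_add_cancel h'.r0]
  have hAc : ∀ e ∈ SIdx S T B R, (A e).card ≤ 𝒬.card * (X₁ * (B * (B * a + R * (B * D)))) := by
    rintro ⟨⟨l, m, k⟩, ca, cb, cc⟩ he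
    simp only [SIdx, mem_product, mem_filter, mem_range] at he
    obtain ⟨⟨⟨h1, h2, h3⟩, h4, h5, h6, h7, h8⟩, ha, hb, hc⟩ := he
    have hLp := sf_not_pow hf0 hg0 hfg hcop h4 h5 h6 h7 (units_spec ha).1.1 (units_spec hb).1.1
      (pow_ne_zero (k - 1) (units_spec hc).1.1)
    have hNF : NoFac (Sf f g ca cb (cc ^ (k - 1)) l m) k R := fun Q hQ hQR =>
      no_small_factor (by omega) (fun p hp hpk => by
        by_contra hcon
        exact h8 p (by omega) hp hpk) hLp Q hQ hQR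
    have hkB : k ≤ B := by omega
    refine (primes_count (D := B * D) (by omega) hR hNF (sf_natDegree (by omega) (by omega) hDf hDg)
      hN Nat.one_le_two_pow h𝒬 (by omega) hWX hbig (A ((l, m, k), (ca, cb, cc))) ?_).trans ?_
    · intro n hn
      simp only [hA, mem_filter] at hn
      exact ⟨(hV n hn.1).1, hn.2⟩
    · gcongr
  have h1 := card_biUnion_le_card_mul _ _ _ hAc
  have h2 := (card_le_card hsub).trans (h1.trans (Nat.mul_le_mul_right _ (sidx_card S T B R)))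
  omega

end Pool.Agent.Helper82.SU
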