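import Pool.Agent.Helper82.SU.Unit

/-!
# Permutations of the terms and signs of the bases
-/

set_option autoImplicit false

namespace Pool.Agent.Helper82.SU

theorem SU.neg {S : Finset ℕ} {a : ℤ} (ha : SU S a) : SU S (-a) :=
  ⟨neg_ne_zero.2 ha.1, fun p hp h => ha.2 p hp ((dvd_neg).1 h)⟩

theorem su_of_dvd {S : Finset ℕ} {a b : ℤ} (hb : b ≠ 0) (hab : a ∣ b)
    (h : ∀ l : ℕ, l.Prime → (l : ℤ) ∣ b → l ∈ S) : SU S a :=
  ⟨fun h0 => hb (by rw [h0] at hab; exact zero_dvd_iff.1 hab), fun p hp hd => h p hp (hd.trans hab)⟩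

/-- from the form of the problem -/
theorem sol_mk {S : Finset ℕ} {a b c x y z : ℤ} {p q r : ℕ} (hp : 0 < p) (hq : 0 < q) (hr : 0 < r)
    (hle : (1 : ℚ) / p + 1 / q + 1 / r ≤ 1) (habc : a * b * c ≠ 0)
    (hS : ∀ l : ℕ, l.Prime → (l : ℤ) ∣ a * b * c → l ∈ S) (hx : x ≠ 0) (hy : y ≠ 0) (hz : z ≠ 0)
    (hg : Int.gcd (a * x) (Int.gcd (b * y) (c * z)) = 1)
    (he : a * x ^ p + b * y ^ q = c * z ^ r) : Sol S a b c x y z p q r := by
  refine ⟨su_of_dvd habc ((Dvd.intro _ rfl).mul_right _) hS,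
    su_of_dvd habc ((Dvd.intro_left _ rfl).mul_right _) hS, su_of_dvd habc (Dvd.intro_left _ rfl) hS,
    hx, hy, hz, cop_of_gcd hp hq hg he, hp, hq, hr, ?_, he⟩
  have hp' : (0 : ℚ) < p := by exact_mod_cast hp
  have hq' : (0 : ℚ) < q := by exact_mod_cast hq
  have hr' : (0 : ℚ) < r := by exact_mod_cast hr
  have h1 : ((q * r + r * p + p * q : ℕ) : ℚ) ≤ (p * q * r : ℕ) := by
    push_cast
    have h2 := mul_le_mul_of_nonneg_right hle (show (0 : ℚ) ≤ p * q * r by positivity)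
    have h3 : ((1 : ℚ) / p + 1 / q + 1 / r) * (p * q * r) = q * r + r * p + p * q := by
      field_simp
    linarith
  exact_mod_cast h1

theorem Sol.swap {S : Finset ℕ} {a b c x y z : ℤ} {l m r : ℕ} (h : Sol S a b c x y z l m r) :
    Sol S b a c y x z m l r :=
  ⟨h.b1, h.a1, h.c1, h.y0, h.x0, h.z0, h.cop.symm, h.m0, h.l0, h.r0, by have := h.le; nlinarith,
    by rw [add_comm]; exact h.eq⟩

theorem Sol.rot {S : Finset ℕ} {a b c x y z : ℤ} {l m r : ℕ} (h : Sol S a b c x y z l m r) :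
    Sol S a (-c) (-b) x z y l r m := by
  have he : a * x ^ l + -c * z ^ r = -b * y ^ m := by
    have := h.eq
    linear_combination this
  refine ⟨h.a1, h.c1.neg, h.b1.neg, h.x0, h.z0, h.y0, ?_, h.l0, h.r0, h.m0,
    by have := h.le; nlinarith, he⟩
  refine cop_of_gcd (z := y) h.l0 h.r0 ?_ he
  have h1 := h.cop
  rw [Int.isCoprime_iff_gcd_eq_one] at h1
  refine Nat.dvd_one.1 ?_
  rw [← h1]
  refine Int.dvd_gcd (Int.gcd_dvd_left _ _) ?_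
  have h2 : ((Int.gcd (a * x) (Int.gcd (-c * z) (-b * y)) : ℕ) : ℤ) ∣ -b * y :=
    (Int.gcd_dvd_right _ _).trans (Int.gcd_dvd_right _ _)
  exact (dvd_neg.1 (h2.trans (dvd_of_eq (neg_mul b y))))

theorem Sol.base {S : Finset ℕ} {a b c x y z : ℤ} {l m r : ℕ} (h : Sol S a b c x y z l m r)
    {u : ℤ} (hu : |x| = |u|) : ∃ a' : ℤ, Sol S a' b c u y z l m r ∧ a' * u ^ l = a * x ^ l ∧
      abs a' = abs a := by
  rcases abs_eq_abs.1 hu with rfl | rfl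
  · exact ⟨a, h, rfl, rfl⟩
  · have hs : ((-1 : ℤ) ^ l = 1) ∨ ((-1 : ℤ) ^ l = -1) := neg_one_pow_eq_or ℤ l
    have e1 : (-1) ^ l * a * u ^ l = a * (-u) ^ l := by
      rw [neg_pow u l]; ring
    have hu0 : u ≠ 0 := fun h0 => h.x0 (by rw [h0]; rfl)
    refine ⟨(-1) ^ l * a, ⟨?_, h.b1, h.c1, hu0, h.y0, h.z0, ?_, h.l0, h.m0, h.r0, h.le, ?_⟩, e1, ?_⟩
    · rcases hs with hs | hs
      · rw [hs, one_mul]; exact h.a1
      · rw [hs, neg_one_mul]; exact h.a1.neg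
    · rcases hs with hs | hs
      · rw [hs, one_mul]
        have := h.cop
        rw [mul_neg, IsCoprime.neg_left_iff] at this
        exact this
      · rw [hs]
        have := h.cop
        rwa [mul_neg, ← neg_mul, ← neg_one_mul a] at this
    · rw [e1]; exact h.eq
    · rw [abs_mul, abs_pow, abs_neg, abs_one, one_pow, one_mul]

theorem Sol.bases {S : Finset ℕ} {a b c x y z : ℤ} {l m r : ℕ} (h : Sol S a b c x y z l m r)
    {u v : ℤ} (hu : |x| = |u|) (hv : |y| = |v|) : ∃ a' b' : ℤ, Sol S a' b' c u v z l m r ∧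
      a' * u ^ l = a * x ^ l ∧ b' * v ^ m = b * y ^ m := by
  obtain ⟨a', h1, h2, -⟩ := h.base hu
  obtain ⟨b', h3, h4, -⟩ := h1.swap.base hv
  exact ⟨a', b', h3.swap, h2, h4⟩

theorem Sol.bases3 {S : Finset ℕ} {a b c x y z : ℤ} {l m r : ℕ} (h : Sol S a b c x y z l m r)
    {u v w : ℤ} (hu : |x| = |u|) (hv : |y| = |v|) (hw : |z| = |w|) : ∃ a' b' c' : ℤ,
      Sol S a' b' c' u v w l m r ∧ a' * u ^ l = a * x ^ l ∧ b' * v ^ m = b * y ^ m ∧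
        c' * w ^ r = c * z ^ r := by
  obtain ⟨a', b', h1, e1, e2⟩ := h.bases hu hv
  obtain ⟨c', h2, e3, -⟩ := h1.rot.swap.base hw
  have h3 := h2.swap.rot
  rw [neg_neg] at h3
  exact ⟨a', b', -c', h3, e1, e2, by linear_combination -e3⟩

/-- two of the bases in any positions, with the exponent and the term of the third base -/
theorem Sol.pair {S : Finset ℕ} {a b c x y z : ℤ} {l m r : ℕ} (h : Sol S a b c x y z l m r)
    {W : ℝ} (t1 : |((a * x ^ l : ℤ) : ℝ)| ≤ W) (t2 : |((b * y ^ m : ℤ) : ℝ)| ≤ W)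
    (t3 : |((c * z ^ r : ℤ) : ℝ)| ≤ W) {u v : ℤ} {C : ℕ → Prop}
    (huv : (|x| = |u| ∧ |y| = |v| ∧ C r) ∨ (|y| = |u| ∧ |x| = |v| ∧ C r) ∨
      (|x| = |u| ∧ |z| = |v| ∧ C m) ∨ (|z| = |u| ∧ |x| = |v| ∧ C m) ∨
      (|y| = |u| ∧ |z| = |v| ∧ C l) ∨ (|z| = |u| ∧ |y| = |v| ∧ C l)) :
    ∃ (a' b' c' w : ℤ) (l' m' r' : ℕ), Sol S a' b' c' u v w l' m' r' ∧ C r' ∧
      |((a' * u ^ l' : ℤ) : ℝ)| ≤ W ∧ |((b' * v ^ m' : ℤ) : ℝ)| ≤ W ∧
      |((c' * w ^ r' : ℤ) : ℝ)| ≤ W := by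
  have neg : ∀ {k w : ℤ} {n : ℕ}, |((k * w ^ n : ℤ) : ℝ)| ≤ W → |((-k * w ^ n : ℤ) : ℝ)| ≤ W := by
    intro k w n hk
    rw [neg_mul, Int.cast_neg, abs_neg]
    exact hk
  have key : ∀ {a b c x y z : ℤ} {l m r : ℕ}, Sol S a b c x y z l m r →
      |((a * x ^ l : ℤ) : ℝ)| ≤ W → |((b * y ^ m : ℤ) : ℝ)| ≤ W → |((c * z ^ r : ℤ) : ℝ)| ≤ W →
      |x| = |u| → |y| = |v| → C r →
      ∃ (a' b' c' w : ℤ) (l' m' r' : ℕ), Sol S a' b' c' u v w l' m' r' ∧ C r' ∧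
        |((a' * u ^ l' : ℤ) : ℝ)| ≤ W ∧ |((b' * v ^ m' : ℤ) : ℝ)| ≤ W ∧
        |((c' * w ^ r' : ℤ) : ℝ)| ≤ W := by
    intro a b c x y z l m r h t1 t2 t3 hu hv hC
    obtain ⟨a', b', h1, e1, e2⟩ := h.bases hu hv
    exact ⟨a', b', c, z, l, m, r, h1, hC, by rw [e1]; exact t1, by rw [e2]; exact t2, t3⟩
  rcases huv with ⟨h1, h2, h3⟩ | ⟨h1, h2, h3⟩ | ⟨h1, h2, h3⟩ | ⟨h1, h2, h3⟩ | ⟨h1, h2, h3⟩ |
    ⟨h1, h2, h3⟩
  · exact key h t1 t2 t3 h1 h2 h3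
  · exact key h.swap t2 t1 t3 h1 h2 h3
  · exact key h.rot t1 (neg t3) (neg t2) h1 h2 h3
  · exact key h.rot.swap (neg t3) t1 (neg t2) h1 h2 h3
  · exact key h.swap.rot t2 (neg t3) (neg t1) h1 h2 h3
  · exact key h.swap.rot.swap (neg t3) t2 (neg t1) h1 h2 h3

end Pool.Agent.Helper82.SU
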