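import Pool.Agent.N741.PB.Tri
import Pool.Agent.Helper82.SU.Line
import Pool.Agent.Helper82.SU.Perm

/-!
# Three bases given by polynomials, coefficients composed of few primes
-/

set_option autoImplicit false

namespace Pool.Agent.Helper82.SU

open Finset Polynomial Pool.Agent.N741.PB

/-- the polynomial of an equation -/
noncomputable def STf (f g h : ℤ[X]) (a b c : ℤ) (l m k : ℕ) : ℤ[X] :=
  C a * f ^ l + C b * g ^ m - C c * h ^ k

theorem stf_ne_zero {f g h : ℤ[X]} (hf : f ≠ 0) (hg : g ≠ 0) (hh : h ≠ 0)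
    (hpos : 0 < f.natDegree ∨ 0 < g.natDegree ∨ 0 < h.natDegree)
    (hcop : IsCoprime (f.map (Int.castRingHom ℚ)) (g.map (Int.castRingHom ℚ))) {l m k : ℕ}
    (hl : 0 < l) (hm : 0 < m) (hk : 0 < k) (hineq : m * k + k * l + l * m ≤ l * m * k) {a b c : ℤ}
    (ha : a ≠ 0) (hb : b ≠ 0) (hc : c ≠ 0) : STf f g h a b c l m k ≠ 0 := by
  intro h0
  have hinj : Function.Injective (Int.castRingHom ℚ) := (Int.castRingHom ℚ).injective_int
  have h1 := congrArg (fun P : ℤ[X] => P.map (Int.castRingHom ℚ)) h0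
  simp only [STf, Polynomial.map_sub, Polynomial.map_add, Polynomial.map_mul, Polynomial.map_pow,
    map_C, Polynomial.map_zero] at h1
  have hne : ∀ {P : ℤ[X]}, P ≠ 0 → P.map (Int.castRingHom ℚ) ≠ 0 := fun {P} hP =>
    (Polynomial.map_ne_zero_iff hinj).mpr hP
  have hz : ∀ {c : ℤ}, c ≠ 0 → (Int.castRingHom ℚ) c ≠ 0 := fun {c} hc => by
    rw [eq_intCast]
    exact_mod_cast hc
  have h2 := Polynomial.flt_catalan (k := ℚ) hl.ne' hm.ne' hk.ne' hineq
    (by exact_mod_cast hl.ne') (by exact_mod_cast hm.ne') (by exact_mod_cast hk.ne')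
    (hne hf) (hne hg) (hne hh) hcop (u := (Int.castRingHom ℚ) a) (v := (Int.castRingHom ℚ) b)
    (w := -(Int.castRingHom ℚ) c) (hz ha) (hz hb) (neg_ne_zero.2 (hz hc)) (by
      rw [C_neg]
      linear_combination h1)
  rw [natDegree_map_eq_of_injective hinj, natDegree_map_eq_of_injective hinj,
    natDegree_map_eq_of_injective hinj] at h2
  omega

theorem stf_natDegree {f g h : ℤ[X]} {l m k B D : ℕ} {a b c : ℤ} (hl : l ≤ B) (hm : m ≤ B)
    (hk : k ≤ B) (hD : f.natDegree ≤ D) (hD' : g.natDegree ≤ D) (hD'' : h.natDegree ≤ D) :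
    (STf f g h a b c l m k).natDegree ≤ B * D := by
  have h1 : ∀ {P : ℤ[X]} {i : ℕ} {u : ℤ}, i ≤ B → P.natDegree ≤ D →
      (C u * P ^ i).natDegree ≤ B * D := by
    intro P i u hi hP
    exact (natDegree_C_mul_le _ _).trans (natDegree_pow_le.trans (Nat.mul_le_mul hi hP))
  unfold STf
  exact (natDegree_sub_le _ _).trans
    (max_le ((natDegree_add_le _ _).trans (max_le (h1 hl hD) (h1 hm hD'))) (h1 hk hD''))

/-- all exponents may be assumed small -/
theorem Sol.red3 {S : Finset ℕ} {a b c x y z : ℤ} {l m r : ℕ} (h : Sol S a b c x y z l m r)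
    {T : ℕ} (h1 : (a * x ^ l).natAbs ≤ 2 ^ T) (h2 : (b * y ^ m).natAbs ≤ 2 ^ T)
    (h3 : (c * z ^ r).natAbs ≤ 2 ^ T) :
    ∃ (l' m' r' : ℕ), Sol S a b c x y z l' m' r' ∧ l' ≤ T + 7 ∧ m' ≤ T + 7 ∧ r' ≤ T + 7 := by
  obtain ⟨l', m', s1, hl, hm, e1, e2⟩ := h.red12 h1 h2
  have h3' : (-c * z ^ r).natAbs ≤ 2 ^ T := by rw [neg_mul, Int.natAbs_neg]; exact h3
  obtain ⟨l'', r', s2, hl'', hr, -, -⟩ := s1.rot.red12 (T := T) (by rw [e1]; exact h1) h3'
  have s3 := s2.rot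
  rw [neg_neg, neg_neg] at s3
  exact ⟨l'', m', r', s3, hl'', hm, hr⟩

/-- `x`, `y`, `z` are the bases of a solution with terms at most `2 ^ T` -/
def STri (S : Finset ℕ) (T : ℕ) (x y z : ℤ) : Prop := ∃ (a b c : ℤ) (l m r : ℕ),
  Sol S a b c x y z l m r ∧ (a * x ^ l).natAbs ≤ 2 ^ T ∧ (b * y ^ m).natAbs ≤ 2 ^ T ∧
    (c * z ^ r).natAbs ≤ 2 ^ T

theorem stri_line {f g h : ℤ[X]} (hpos : 0 < f.natDegree ∨ 0 < g.natDegree ∨ 0 < h.natDegree)
    {S : Finset ℕ} {T D : ℕ} (hDf : f.natDegree ≤ D) (hDg : g.natDegree ≤ D)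
    (hDh : h.natDegree ≤ D) (V : Finset ℤ) (hV : ∀ n ∈ V, STri S T (f.eval n) (g.eval n) (h.eval n)) :
    V.card ≤ 2 * D + (T + 7 + 1) ^ 3 * (2 * (T + 1) ^ S.card) ^ 3 * ((T + 7) * D) := by
  classical
  rcases V.eq_empty_or_nonempty with hTe | ⟨n₀, hn₀⟩
  · rw [hTe, card_empty]; exact Nat.zero_le _
  have hf0 : f ≠ 0 := by
    rintro rfl
    obtain ⟨a, b, c, l, m, k, h, -⟩ := hV n₀ hn₀
    exact h.x0 (by simp)
  have hg0 : g ≠ 0 := by
    rintro rfl
    obtain ⟨a, b, c, l, m, k, h, -⟩ := hV n₀ hn₀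
    exact h.y0 (by simp)
  have hh0 : h ≠ 0 := by
    rintro rfl
    obtain ⟨a, b, c, l, m, k, h, -⟩ := hV n₀ hn₀
    exact h.z0 (by simp)
  by_cases hcop : IsCoprime (f.map (Int.castRingHom ℚ)) (g.map (Int.castRingHom ℚ))
  swap
  · have h1 := unit_values hf0 hcop V (fun n hn => by
      obtain ⟨a, b, c, l, m, k, h, -⟩ := hV n hn
      exact h.cop.of_mul_left_right.of_mul_right_right)
    have : V.card ≤ 2 * D := h1.trans (Nat.mul_le_mul_left _ hDf)
    exact this.trans (Nat.le_add_right _ _)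
  obtain ⟨A, hA⟩ : ∃ A : (ℕ × ℕ × ℕ) × (ℤ × ℤ × ℤ) → Finset ℤ, A = fun e =>
    V.filter (fun n : ℤ => (STf f g h e.2.1 e.2.2.1 e.2.2.2 e.1.1 e.1.2.1 e.1.2.2).eval n = 0) :=
    ⟨_, rfl⟩
  have hsub : V ⊆ (SIdx S T (T + 7) 0).biUnion A := by
    intro n hn
    obtain ⟨a, b, c, l, m, k, h1, hv1, hv2, hv3⟩ := hV n hn
    obtain ⟨l', m', k', h2, hl, hm, hk⟩ := h1.red3 hv1 hv2 hv3
    rw [mem_biUnion]
    refine ⟨((l', m', k'), (a, b, c)), ?_, ?_⟩
    · simp only [SIdx, mem_product, mem_filter, mem_range]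
      exact ⟨⟨⟨by omega, by omega, by omega⟩, h2.l0, h2.m0, h2.r0, h2.le, fun p hp => by omega⟩,
        mem_units h1.a1 (natAbs_le_mul' (pow_ne_zero _ h1.x0) hv1),
        mem_units h1.b1 (natAbs_le_mul' (pow_ne_zero _ h1.y0) hv2),
        mem_units h1.c1 (natAbs_le_mul' (pow_ne_zero _ h1.z0) hv3)⟩
    · simp only [hA, mem_filter, STf, eval_sub, eval_add, eval_mul, eval_C, eval_pow]
      refine ⟨hn, ?_⟩
      rw [h2.eq, sub_self]
  have hAc : ∀ e ∈ SIdx S T (T + 7) 0, (A e).card ≤ (T + 7) * D := by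
    rintro ⟨⟨l, m, k⟩, a, b, c⟩ he
    simp only [SIdx, mem_product, mem_filter, mem_range] at he
    obtain ⟨⟨⟨h1, h2, h3⟩, h4, h5, h6, h7, -⟩, ha, hb, hc⟩ := he
    refine (int_roots_card _ (stf_ne_zero hf0 hg0 hh0 hpos hcop h4 h5 h6 h7 (units_spec ha).1.1
      (units_spec hb).1.1 (units_spec hc).1.1) _ ?_).trans
      (stf_natDegree (by omega) (by omega) (by omega) hDf hDg hDh)
    intro n hn
    simp only [hA, mem_filter] at hn
    exact hn.2
  have h1 := card_biUnion_le_card_mul _ _ _ hAc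
  have h2 := (card_le_card hsub).trans (h1.trans (Nat.mul_le_mul_right _ (sidx_card S T (T + 7) 0)))
  omega

open MvPolynomial in
/-- three polynomials in several variables -/
theorem stri_box {d : ℕ} (F G H : MvPolynomial (Fin (d + 1)) ℤ)
    (hpos : 0 < F.totalDegree ∨ 0 < G.totalDegree ∨ 0 < H.totalDegree)
    {S : Finset ℕ} {T D N : ℕ} (hDF : F.totalDegree ≤ D) (hDG : G.totalDegree ≤ D)
    (hDH : H.totalDegree ≤ D) :
    ({t : Fin (d + 1) → ℤ | (∀ i, |t i| ≤ (N : ℤ)) ∧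
      STri S T (eval t F) (eval t G) (eval t H)}.ncard : ℝ) ≤
      (2 * N + 1) ^ d * ((2 * D + (T + 7 + 1) ^ 3 * (2 * (T + 1) ^ S.card) ^ 3 * ((T + 7) * D) : ℕ)
        + D) := by
  classical
  obtain ⟨Q₀, hQ₀⟩ : ∃ Q₀ : ℕ, Q₀ = 2 * D + (T + 7 + 1) ^ 3 * (2 * (T + 1) ^ S.card) ^ 3 *
    ((T + 7) * D) := ⟨_, rfl⟩
  rw [← hQ₀]
  have key : ∀ F G H : MvPolynomial (Fin (d + 1)) ℤ,
      (0 < F.degreeOf 0 ∨ 0 < G.degreeOf 0 ∨ 0 < H.degreeOf 0) →
      F.totalDegree ≤ D → G.totalDegree ≤ D → H.totalDegree ≤ D →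
      ({t : Fin (d + 1) → ℤ | (∀ i, |t i| ≤ (N : ℤ)) ∧
        STri S T (eval t F) (eval t G) (eval t H)}.ncard : ℝ) ≤
      (2 * N + 1) ^ d * (Q₀ + D) := by
    intro F G H hpos hDF hDG hDH
    obtain ⟨U, hU⟩ : ∃ U, U = (box_finite (N := N) (fun t : Fin (d + 1) → ℤ =>
      STri S T (eval t F) (eval t G) (eval t H))).toFinset := ⟨_, rfl⟩
    have hTm : ∀ t, t ∈ U ↔ (∀ i, |t i| ≤ (N : ℤ)) ∧
        STri S T (eval t F) (eval t G) (eval t H) := by
      intro t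
      rw [hU, Set.Finite.mem_toFinset]; rfl
    rw [Set.ncard_eq_toFinset_card _ (box_finite (N := N) (fun t : Fin (d + 1) → ℤ =>
      STri S T (eval t F) (eval t G) (eval t H))), ← hU]
    obtain ⟨Q, hQ0, hQD, hQl⟩ : ∃ Q : MvPolynomial (Fin (d + 1)) ℤ, 0 < Q.degreeOf 0 ∧
        Q.totalDegree ≤ D ∧ ∀ t', 0 < (lin Q t').natDegree →
          (0 < (lin F t').natDegree ∨ 0 < (lin G t').natDegree ∨ 0 < (lin H t').natDegree) := by
      rcases hpos with h | h | h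
      · exact ⟨F, h, hDF, fun t' ht' => Or.inl ht'⟩
      · exact ⟨G, h, hDG, fun t' ht' => Or.inr (Or.inl ht')⟩
      · exact ⟨H, h, hDH, fun t' ht' => Or.inr (Or.inr ht')⟩
    refine fiber_count Q hQ0 hQD ((Q₀ : ℕ) : ℝ)
      (Nat.cast_nonneg _) U (fun t ht => ((hTm t).mp ht).1) (fun t' _ hp T' hT' => ?_)
    have h1 := stri_line (S := S) (T := T) (hQl t' hp) ((lin_natDegree F t').trans hDF)
      ((lin_natDegree G t').trans hDG) ((lin_natDegree H t').trans hDH) T' (by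
        intro n hn
        have h3 := (hTm _).mp (hT' n hn)
        rw [lin_eval', lin_eval', lin_eval']
        exact h3.2)
    rw [← hQ₀] at h1
    exact_mod_cast h1
  obtain ⟨i, hi⟩ : ∃ i, 0 < F.degreeOf i ∨ 0 < G.degreeOf i ∨ 0 < H.degreeOf i := by
    rcases hpos with h | h | h
    · obtain ⟨i, hi⟩ := exists_degreeOf h
      exact ⟨i, Or.inl hi⟩
    · obtain ⟨i, hi⟩ := exists_degreeOf h
      exact ⟨i, Or.inr (Or.inl hi)⟩
    · obtain ⟨i, hi⟩ := exists_degreeOf h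
      exact ⟨i, Or.inr (Or.inr hi)⟩
  set σ := Equiv.swap i 0 with hσ
  have hσi : σ i = 0 := Equiv.swap_apply_left i 0
  rw [perm_box σ]
  have h2 : ∀ (F : MvPolynomial (Fin (d + 1)) ℤ) (t : Fin (d + 1) → ℤ),
      eval (t ∘ σ) F = eval t (rename σ F) := fun F t => (eval_rename _ _ _).symm
  have h3 := key (rename σ F) (rename σ G) (rename σ H) (by
    rw [← hσi, degreeOf_rename_of_injective σ.injective, degreeOf_rename_of_injective σ.injective,
      degreeOf_rename_of_injective σ.injective]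
    exact hi) ((totalDegree_rename_le _ _).trans hDF) ((totalDegree_rename_le _ _).trans hDG)
    ((totalDegree_rename_le _ _).trans hDH)
  simp only [h2]
  exact h3

end Pool.Agent.Helper82.SU
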